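import Pool.Agent.RS.Base

/-! RS/Count.  Number of assignments with small product (Rankin's trick).
`#{σ : PP(supp σ) ≤ D} ≤ ∑_σ (D / PP(supp σ))^2 = D^2 ∏_i (1 + k/p_i^2) ≤ D^2 exp(1/2) ≤ 2 D^2`
(`∑_σ ∏_i f i (σ i) = ∏_i ∑_o f i o`, with `f i none = 1`, `f i (some j) = 1/p_i^2`). -/

namespace Pool.Agent.RS

open Finset

variable {ι κ : Type} [Fintype ι] [DecidableEq ι] [DecidableEq κ] [Fintype κ]

open Classical in
theorem count_le {p : ι → ℕ} (hp : ∀ i, 2 ≤ p i)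
    (hk : ∑ i, (Fintype.card κ : ℝ) / (p i : ℝ) ^ 2 ≤ 1 / 2) {D : ℝ} (hD : 0 ≤ D) :
    (((univ : Finset (ι → Option κ)).filter (fun σ => PP p (supp σ) ≤ D)).card : ℝ) ≤
      2 * D ^ 2 := by
  have hp0 : ∀ i, (0 : ℝ) < (p i : ℝ) := by
    intro i
    have : (2 : ℝ) ≤ p i := by exact_mod_cast hp i
    linarith
  have hPP : ∀ S : Finset ι, 0 < PP p S := fun S => prod_pos fun i _ => hp0 i
  have h1 : (((univ : Finset (ι → Option κ)).filter (fun σ => PP p (supp σ) ≤ D)).card : ℝ) ≤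
      ∑ σ : ι → Option κ, (D / PP p (supp σ)) ^ 2 := by
    rw [card_eq_sum_ones]
    push_cast
    calc ∑ _σ ∈ (univ : Finset (ι → Option κ)).filter (fun σ => PP p (supp σ) ≤ D), (1 : ℝ) ≤
          ∑ σ ∈ (univ : Finset (ι → Option κ)).filter (fun σ => PP p (supp σ) ≤ D),
            (D / PP p (supp σ)) ^ 2 := by
          refine sum_le_sum fun σ hσ => ?_
          rw [mem_filter] at hσ
          have h2 : 1 ≤ D / PP p (supp σ) := (one_le_div (hPP _)).2 hσ.2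
          exact one_le_pow₀ h2
      _ ≤ _ := sum_le_sum_of_subset_of_nonneg (filter_subset _ _) fun _ _ _ => sq_nonneg _
  refine h1.trans ?_
  have h2 : ∀ σ : ι → Option κ, (D / PP p (supp σ)) ^ 2 =
      D ^ 2 * ∏ i, (σ i).elim 1 (fun _ => 1 / (p i : ℝ) ^ 2) := by
    intro σ
    have h3 : ∏ i, (σ i).elim 1 (fun _ => 1 / (p i : ℝ) ^ 2) =
        ∏ i ∈ supp σ, 1 / (p i : ℝ) ^ 2 := by
      symm
      have h4 : ∏ i ∈ supp σ, 1 / (p i : ℝ) ^ 2 =
          ∏ i ∈ supp σ, (σ i).elim 1 (fun _ => 1 / (p i : ℝ) ^ 2) := by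
        refine prod_congr rfl fun i hi => ?_
        rw [mem_supp] at hi
        obtain ⟨j, hj⟩ := Option.ne_none_iff_exists'.1 hi
        rw [hj]
        rfl
      rw [h4]
      refine prod_subset (subset_univ _) ?_
      intro i _ hi
      rw [mem_supp, not_not] at hi
      rw [hi]
      rfl
    rw [h3, prod_div_distrib, prod_const_one, prod_pow, div_pow]
    unfold PP
    ring
  rw [sum_congr rfl fun σ _ => h2 σ, ← mul_sum]
  have h3 : ∑ σ : ι → Option κ, ∏ i, (σ i).elim 1 (fun _ => 1 / (p i : ℝ) ^ 2) =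
      ∏ i, ∑ o : Option κ, o.elim 1 (fun _ => 1 / (p i : ℝ) ^ 2) := by
    rw [Finset.prod_univ_sum, Fintype.piFinset_univ]
  have h4 : ∀ i, ∑ o : Option κ, o.elim 1 (fun _ => 1 / (p i : ℝ) ^ 2) =
      1 + (Fintype.card κ : ℝ) / (p i : ℝ) ^ 2 := by
    intro i
    rw [Fintype.sum_option]
    simp only [Option.elim, sum_const, card_univ, nsmul_eq_mul]
    ring
  rw [h3, prod_congr rfl fun i _ => h4 i]
  have h5 : ∏ i, (1 + (Fintype.card κ : ℝ) / (p i : ℝ) ^ 2) ≤ 2 := by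
    have h6 : ∀ i ∈ (univ : Finset ι), 1 + (Fintype.card κ : ℝ) / (p i : ℝ) ^ 2 ≤
        Real.exp ((Fintype.card κ : ℝ) / (p i : ℝ) ^ 2) := by
      intro i _
      have h7 := Real.add_one_le_exp ((Fintype.card κ : ℝ) / (p i : ℝ) ^ 2)
      linarith
    refine (prod_le_prod (fun i _ => by positivity) h6).trans ?_
    rw [← Real.exp_sum]
    refine (Real.exp_le_exp.2 hk).trans ?_
    have h8 := Real.one_sub_le_exp_neg (1 / 2 : ℝ)
    rw [Real.exp_neg] at h8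
    have h9 := Real.exp_pos (1 / 2 : ℝ)
    have h10 : (1 - 1 / 2) * Real.exp (1 / 2) ≤ (Real.exp (1 / 2))⁻¹ * Real.exp (1 / 2) :=
      mul_le_mul_of_nonneg_right h8 h9.le
    rw [inv_mul_cancel₀ h9.ne'] at h10
    linarith
  calc D ^ 2 * ∏ i, (1 + (Fintype.card κ : ℝ) / (p i : ℝ) ^ 2) ≤ D ^ 2 * 2 :=
        mul_le_mul_of_nonneg_left h5 (sq_nonneg _)
    _ = 2 * D ^ 2 := by ring

end Pool.Agent.RS
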