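import Pool.Agent.RS.Avg

/-! RS/Gram.  Local averages and the correlation of two assignments.

`gram_avg`: as `u` runs over `range q`, `n0 + M u` runs over all residues mod `q` (`M` is invertible
mod `q`), so each class `n ≡ a j` is hit exactly once; distinct `a j` are in distinct classes.  Cases:
none,none: average of 1; none,some: `(1/q)(-1 + (q-1)/(q-1)) = 0`; same j:
`(1/q)(1 + (q-1)/(q-1)^2) = 1/(q-1)`; different j, j':
`(1/q)(-2/(q-1) + (q-2)/(q-1)^2) = -1/(q-1)^2`.

`corr`: apply `avg_prod` with `S = supp σ ∪ supp σ'` and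
`F i t = eo (p i) a (n0 + M t) (σ i) * eo (p i) a (n0 + M t) (σ' i)`, which is `p i`-periodic in `t`
and bounded by 1 in absolute value (`|ee q z| ≤ 1` for `2 ≤ q`); outside `S` the factors are 1
(and `GG q none none = 1`).  Finally `∏_{i ∈ supp σ ∪ supp σ'} p i ≤ PP p (supp σ) * PP p (supp σ')`. -/

namespace Pool.Agent.RS

open Finset

variable {ι κ : Type} [Fintype ι] [DecidableEq ι] [DecidableEq κ]

/-- `ee q` as a function on `ZMod q` -/
private noncomputable def ez (p : ℕ) (x : ZMod p) : ℝ :=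
  if x = 0 then -1 else 1 / ((p : ℝ) - 1)

private theorem ee_eq_ez (p : ℕ) (m : ℤ) : ee p m = ez p (m : ZMod p) := by
  unfold ee ez
  have h : ((m : ZMod p) = 0) ↔ ((p : ℤ) ∣ m) := ZMod.intCast_zmod_eq_zero_iff_dvd m p
  by_cases hm : (p : ℤ) ∣ m
  · rw [if_pos hm, if_pos (h.2 hm)]
  · rw [if_neg hm, if_neg (fun h' => hm (h.1 h'))]

private theorem ez_eq {p : ℕ} (hp : 1 < p) (x : ZMod p) :
    ez p x = 1 / ((p : ℝ) - 1) - (p : ℝ) / ((p : ℝ) - 1) * (if x = 0 then 1 else 0) := by
  have h1 : (0 : ℝ) < (p : ℝ) - 1 := by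
    have : (1 : ℝ) < p := by exact_mod_cast hp
    linarith
  unfold ez
  split_ifs
  · field_simp
    ring
  · simp

/-- value of a factor -/
private noncomputable def fz (p : ℕ) (a : κ → ℤ) (o : Option κ) (x : ZMod p) : ℝ :=
  o.elim 1 (fun i => ez p (x - (a i : ZMod p)))

omit [DecidableEq κ] in
private theorem eo_eq_fz (p : ℕ) (a : κ → ℤ) (o : Option κ) (n : ℤ) :
    eo p a n o = fz p a o (n : ZMod p) := by
  cases o with
  | none => rfl
  | some j =>
    show ee p (n - a j) = ez p ((n : ZMod p) - (a j : ZMod p))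
    rw [ee_eq_ez]
    push_cast
    rfl

theorem abs_ee_le {q : ℕ} (hq : 2 ≤ q) (z : ℤ) : |ee q z| ≤ 1 := by
  have h1 : (1 : ℝ) ≤ (q : ℝ) - 1 := by
    have : (2 : ℝ) ≤ q := by exact_mod_cast hq
    linarith
  unfold ee
  split_ifs
  · simp
  · rw [abs_of_nonneg (by positivity), div_le_one (by linarith)]
    exact h1

omit [DecidableEq κ] in
private theorem abs_eo_le {q : ℕ} (hq : 2 ≤ q) (a : κ → ℤ) (n : ℤ) (o : Option κ) :
    |eo q a n o| ≤ 1 := by
  cases o with
  | none => simp [eo]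
  | some j => exact abs_ee_le hq _

omit [DecidableEq κ] in
theorem abs_EE_le {p : ι → ℕ} (hp : ∀ i, 2 ≤ p i) (a : κ → ℤ) (σ : ι → Option κ) (n : ℤ) :
    |EE p a σ n| ≤ 1 := by
  unfold EE
  rw [abs_prod]
  exact prod_le_one (fun _ _ => abs_nonneg _) fun i _ => abs_eo_le (hp i) a n (σ i)

private theorem avg_fz {p : ℕ} [NeZero p] (hp : 1 < p) (a : κ → ℤ)
    (ha : ∀ i j, i ≠ j → ¬ ((p : ℤ) ∣ a i - a j)) (o o' : Option κ) :
    ∑ x : ZMod p, fz p a o x * fz p a o' x = (p : ℝ) * GG p o o' := by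
  have h1 : (0 : ℝ) < (p : ℝ) - 1 := by
    have : (1 : ℝ) < p := by exact_mod_cast hp
    linarith
  have hcard : (Finset.univ : Finset (ZMod p)).card = p := by
    rw [Finset.card_univ, ZMod.card]
  have hs : ∀ b : ZMod p, ∑ x : ZMod p, (if x - b = 0 then (1 : ℝ) else 0) = 1 := by
    intro b
    have : ∀ x : ZMod p, (if x - b = 0 then (1 : ℝ) else 0) = if x = b then 1 else 0 := by
      intro x
      simp only [sub_eq_zero]
    rw [sum_congr rfl fun x _ => this x]
    simp
  have hez : ∀ b : ZMod p, ∑ x : ZMod p, ez p (x - b) = 0 := by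
    intro b
    rw [sum_congr rfl fun x _ => ez_eq hp (x - b), sum_sub_distrib, ← mul_sum, hs b, sum_const,
      hcard, nsmul_eq_mul]
    field_simp
    ring
  cases o with
  | none =>
    cases o' with
    | none =>
      simp [fz, GG]
    | some j =>
      simp only [fz, GG, Option.elim, one_mul, mul_zero]
      exact hez _
  | some i =>
    cases o' with
    | none =>
      simp only [fz, GG, Option.elim, mul_one, mul_zero]
      exact hez _
    | some j =>
      simp only [fz, GG, Option.elim]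
      have hprod : ∀ x : ZMod p, ez p (x - (a i : ZMod p)) * ez p (x - (a j : ZMod p)) =
          (1 / ((p : ℝ) - 1)) ^ 2 - (1 / ((p : ℝ) - 1)) * ((p : ℝ) / ((p : ℝ) - 1)) *
            (if x - (a i : ZMod p) = 0 then 1 else 0) -
          (1 / ((p : ℝ) - 1)) * ((p : ℝ) / ((p : ℝ) - 1)) *
            (if x - (a j : ZMod p) = 0 then 1 else 0) +
          ((p : ℝ) / ((p : ℝ) - 1)) ^ 2 *
            ((if x - (a i : ZMod p) = 0 then 1 else 0) *
              (if x - (a j : ZMod p) = 0 then 1 else 0)) := by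
        intro x
        rw [ez_eq hp, ez_eq hp]
        ring
      rw [sum_congr rfl fun x _ => hprod x, sum_add_distrib, sum_sub_distrib, sum_sub_distrib,
        ← mul_sum, ← mul_sum, ← mul_sum, hs, hs, sum_const, hcard, nsmul_eq_mul]
      by_cases hij : i = j
      · subst hij
        rw [if_pos rfl]
        have h2 : ∑ x : ZMod p, ((if x - (a i : ZMod p) = 0 then (1 : ℝ) else 0) *
            (if x - (a i : ZMod p) = 0 then 1 else 0)) = 1 := by
          have h3 : ∀ x : ZMod p, ((if x - (a i : ZMod p) = 0 then (1 : ℝ) else 0) *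
              (if x - (a i : ZMod p) = 0 then 1 else 0)) =
              (if x - (a i : ZMod p) = 0 then (1 : ℝ) else 0) := by
            intro x
            split_ifs <;> simp
          rw [sum_congr rfl fun x _ => h3 x, hs]
        rw [h2]
        field_simp
        ring
      · rw [if_neg hij]
        have h2 : ∑ x : ZMod p, ((if x - (a i : ZMod p) = 0 then (1 : ℝ) else 0) *
            (if x - (a j : ZMod p) = 0 then 1 else 0)) = 0 := by
          refine sum_eq_zero fun x _ => ?_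
          by_cases hx : x - (a i : ZMod p) = 0
          · rw [if_pos hx, one_mul, if_neg]
            intro hx'
            have h3 : ((a i - a j : ℤ) : ZMod p) = 0 := by
              push_cast
              have := sub_eq_zero.1 hx
              have h4 := sub_eq_zero.1 hx'
              rw [← this, ← h4]
              ring
            exact ha i j hij ((ZMod.intCast_zmod_eq_zero_iff_dvd _ p).1 h3)
          · rw [if_neg hx, zero_mul]
        rw [h2]
        field_simp
        ring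

theorem gram_avg {q M : ℕ} (hq : 2 ≤ q) (hM : Nat.Coprime M q) (n0 : ℤ) (a : κ → ℤ)
    (hd : ∀ j j', j ≠ j' → ¬ (q : ℤ) ∣ a j - a j') (o o' : Option κ) :
    (∑ u ∈ range q, eo q a (n0 + M * u) o * eo q a (n0 + M * u) o') / q = GG q o o' := by
  have ne : NeZero q := ⟨by omega⟩
  have hq0 : (q : ℝ) ≠ 0 := by exact_mod_cast (NeZero.ne q)
  have h1 := RW.sum_period (fun x : ZMod q => fz q a o x * fz q a o' x) hM n0
  rw [avg_fz (by omega) a hd] at h1
  have h2 : ∑ u ∈ range q, eo q a (n0 + M * u) o * eo q a (n0 + M * u) o' =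
      (q : ℝ) * GG q o o' := by
    rw [← h1]
    refine sum_congr rfl fun u _ => ?_
    rw [eo_eq_fz, eo_eq_fz]
  rw [h2]
  field_simp

theorem corr {p : ι → ℕ} {M : ℕ} (hp : ∀ i, 2 ≤ p i)
    (hc : ∀ i j, i ≠ j → Nat.Coprime (p i) (p j)) (hM : ∀ i, Nat.Coprime M (p i)) (n0 : ℤ)
    (a : κ → ℤ) (hd : ∀ i j j', j ≠ j' → ¬ (p i : ℤ) ∣ a j - a j') (T : ℕ)
    (σ σ' : ι → Option κ) :
    |∑ t ∈ range T, EE p a σ (n0 + M * t) * EE p a σ' (n0 + M * t) -
        T * ∏ i, GG (p i) (σ i) (σ' i)| ≤ 2 * (PP p (supp σ) * PP p (supp σ')) := by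
  have hper : ∀ i, ∀ o : Option κ, ∀ t : ℕ, eo (p i) a (n0 + M * ((t + p i : ℕ) : ℤ)) o =
      eo (p i) a (n0 + M * (t : ℤ)) o := by
    intro i o t
    rw [eo_eq_fz, eo_eq_fz]
    congr 1
    push_cast
    simp
  have h1 := avg_prod (supp σ ∪ supp σ') p (fun i _ => by have := hp i; omega)
    (fun i _ j _ hij => hc i j hij)
    (fun i t => eo (p i) a (n0 + M * (t : ℤ)) (σ i) * eo (p i) a (n0 + M * (t : ℤ)) (σ' i))
    (by
      intro i _ t
      show eo (p i) a (n0 + M * ((t + p i : ℕ) : ℤ)) (σ i) *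
        eo (p i) a (n0 + M * ((t + p i : ℕ) : ℤ)) (σ' i) = _
      rw [hper, hper])
    (by
      intro i _ t
      rw [abs_mul]
      exact mul_le_one₀ (abs_eo_le (hp i) a _ _) (abs_nonneg _) (abs_eo_le (hp i) a _ _)) T
  have hout : ∀ i, i ∉ supp σ ∪ supp σ' → σ i = none ∧ σ' i = none := by
    intro i hi
    rw [mem_union, mem_supp, mem_supp, not_or, not_not, not_not] at hi
    exact hi
  have e1 : ∀ t : ℕ, ∏ i ∈ supp σ ∪ supp σ', (eo (p i) a (n0 + M * (t : ℤ)) (σ i) *
      eo (p i) a (n0 + M * (t : ℤ)) (σ' i)) =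
      EE p a σ (n0 + M * t) * EE p a σ' (n0 + M * t) := by
    intro t
    unfold EE
    rw [← prod_mul_distrib]
    refine prod_subset (subset_univ _) ?_
    intro i _ hi
    obtain ⟨h2, h3⟩ := hout i hi
    rw [h2, h3]
    simp [eo]
  have e2 : ∏ i ∈ supp σ ∪ supp σ', ((∑ u ∈ range (p i), eo (p i) a (n0 + M * (u : ℤ)) (σ i) *
      eo (p i) a (n0 + M * (u : ℤ)) (σ' i)) / p i) = ∏ i, GG (p i) (σ i) (σ' i) := by
    rw [prod_congr rfl fun i _ => gram_avg (hp i) (hM i) n0 a (hd i) (σ i) (σ' i)]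
    refine prod_subset (subset_univ _) ?_
    intro i _ hi
    obtain ⟨h2, h3⟩ := hout i hi
    rw [h2, h3]
    rfl
  rw [sum_congr rfl fun t _ => e1 t, e2] at h1
  refine h1.trans ?_
  refine mul_le_mul_of_nonneg_left ?_ (by norm_num)
  have h2 : ∀ S : Finset ι, (1 : ℝ) ≤ PP p S := by
    intro S
    unfold PP
    have : ∀ i ∈ S, (1 : ℝ) ≤ (p i : ℝ) := by
      intro i _
      have := hp i
      exact_mod_cast (by omega : 1 ≤ p i)
    calc (1 : ℝ) = ∏ _i ∈ S, (1 : ℝ) := by simp
      _ ≤ _ := prod_le_prod (fun _ _ => by norm_num) this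
  have h3 : PP p (supp σ ∪ supp σ') * PP p (supp σ ∩ supp σ') =
      PP p (supp σ) * PP p (supp σ') := prod_union_inter
  rw [← h3]
  show PP p (supp σ ∪ supp σ') ≤ _
  exact le_mul_of_one_le_right ((by norm_num : (0 : ℝ) ≤ 1).trans (h2 _)) (h2 _)

end Pool.Agent.RS
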