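import Pool.Agent.RS.Base

/-! RS/Decomp.  Splitting off one cell.

`decomp`: the map `σ ↦ (era σ m, cell σ m)` is a bijection from all assignments to the pairs
`(σ', S)` with `cell σ' m = ∅`, `S ∩ supp σ' = ∅`; inverse `(σ', S) ↦ put σ' S m`
(`Finset.sum_sigma'`, `Finset.sum_bij'` or `sum_nbij'`). -/

namespace Pool.Agent.RS

open Finset

variable {ι κ : Type} [Fintype ι] [DecidableEq ι] [DecidableEq κ]

theorem cell_era_self (σ : ι → Option κ) (m : κ) : cell (era σ m) m = ∅ := by
  ext i
  rw [mem_cell]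
  simp only [era, notMem_empty, iff_false]
  split_ifs with h
  · simp
  · exact h

theorem cell_era_of_ne (σ : ι → Option κ) {m j : κ} (h : j ≠ m) :
    cell (era σ m) j = cell σ j := by
  ext i
  rw [mem_cell, mem_cell]
  simp only [era]
  split_ifs with h1
  · rw [h1]
    simp only [reduceCtorEq, Option.some.injEq, false_iff]
    exact h.symm
  · exact Iff.rfl

theorem cell_put_self {σ : ι → Option κ} {m : κ} {S : Finset ι} (h0 : cell σ m = ∅) :
    cell (put σ S m) m = S := by
  ext i
  rw [mem_cell]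
  simp only [put]
  split_ifs with h1
  · simp [h1]
  · constructor
    · intro h2
      have h3 : i ∈ cell σ m := mem_cell.mpr h2
      rw [h0] at h3
      exact absurd h3 (notMem_empty i)
    · intro h2
      exact absurd h2 h1

theorem cell_put_of_ne {σ : ι → Option κ} {m j : κ} {S : Finset ι} (h : j ≠ m)
    (hS : S ∈ (univ \ supp σ).powerset) : cell (put σ S m) j = cell σ j := by
  ext i
  rw [mem_cell, mem_cell]
  simp only [put]
  split_ifs with h1
  · have h2 : σ i = none := by
      by_contra h3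
      have h4 := (mem_sdiff.mp (mem_powerset.mp hS h1)).2
      exact h4 (mem_supp.mpr h3)
    rw [h2]
    simp only [Option.some.injEq, reduceCtorEq, iff_false]
    exact h.symm
  · exact Iff.rfl

theorem era_put {σ : ι → Option κ} {m : κ} {S : Finset ι} (h0 : cell σ m = ∅)
    (hS : S ∈ (univ \ supp σ).powerset) : era (put σ S m) m = σ := by
  funext i
  simp only [era, put]
  by_cases h1 : i ∈ S
  · have h2 : σ i = none := by
      by_contra h3
      have h4 := (mem_sdiff.mp (mem_powerset.mp hS h1)).2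
      exact h4 (mem_supp.mpr h3)
    simp [h1, h2]
  · have h2 : σ i ≠ some m := by
      intro h3
      have h4 : i ∈ cell σ m := mem_cell.mpr h3
      rw [h0] at h4
      exact absurd h4 (notMem_empty i)
    simp [h1, h2]

private theorem prod_split (g : ι → ℝ) (σ : ι → Option κ) (m : κ) :
    ∏ i ∈ supp σ, g i = (∏ i ∈ cell σ m, g i) * ∏ i ∈ supp (era σ m), g i := by
  unfold supp cell
  rw [prod_filter, prod_filter, prod_filter, ← prod_mul_distrib]
  refine prod_congr rfl fun i _ => ?_
  simp only [era]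
  by_cases h : σ i = some m
  · simp [h]
  · simp [h]

private theorem prod_cells [Fintype κ] (g : ι → ℝ) (σ : ι → Option κ) :
    ∏ i ∈ supp σ, g i = ∏ j, ∏ i ∈ cell σ j, g i := by
  unfold supp cell
  simp only [prod_filter]
  rw [prod_comm]
  refine prod_congr rfl fun i _ => ?_
  cases h : σ i with
  | none => simp
  | some j0 => simp

theorem PP_supp_split (p : ι → ℕ) (σ : ι → Option κ) (m : κ) :
    PP p (supp σ) = PP p (cell σ m) * PP p (supp (era σ m)) := by
  exact prod_split _ σ m

theorem PH_supp_split (p : ι → ℕ) (σ : ι → Option κ) (m : κ) :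
    PH p (supp σ) = PH p (cell σ m) * PH p (supp (era σ m)) := by
  exact prod_split _ σ m

theorem EE_split (p : ι → ℕ) (a : κ → ℤ) (σ : ι → Option κ) (m : κ) (n : ℤ) :
    EE p a σ n = (∏ i ∈ cell σ m, ee (p i) (n - a m)) * EE p a (era σ m) n := by
  unfold EE cell
  rw [prod_filter, ← prod_mul_distrib]
  refine prod_congr rfl fun i _ => ?_
  simp only [era]
  by_cases h : σ i = some m
  · simp [h, eo]
  · simp [h]

theorem PP_supp_eq_prod [Fintype κ] (p : ι → ℕ) (σ : ι → Option κ) :
    PP p (supp σ) = ∏ j, PP p (cell σ j) := by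
  exact prod_cells _ σ

theorem PH_supp_eq_prod [Fintype κ] (p : ι → ℕ) (σ : ι → Option κ) :
    PH p (supp σ) = ∏ j, PH p (cell σ j) := by
  exact prod_cells _ σ

theorem Yt_split [Fintype κ] (y : Finset ι → ℝ) (hy0 : y ∅ = 1) (σ : ι → Option κ) (m : κ) :
    Yt y σ = y (cell σ m) * Yt y (era σ m) := by
  unfold Yt
  rw [← mul_prod_erase univ _ (mem_univ m), ← mul_prod_erase univ (fun j => y (cell (era σ m) j))
    (mem_univ m), cell_era_self, hy0, one_mul]
  congr 1
  refine prod_congr rfl fun j hj => ?_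
  rw [cell_era_of_ne σ (mem_erase.mp hj).1]

open Classical in
theorem decomp [Fintype κ] (m : κ) (F : (ι → Option κ) → Finset ι → ℝ) :
    ∑ σ, F (era σ m) (cell σ m) =
      ∑ σ ∈ (univ : Finset (ι → Option κ)).filter (fun σ => cell σ m = ∅),
        ∑ S ∈ (univ \ supp σ).powerset, F σ S := by
  symm
  rw [Finset.sum_sigma']
  refine Finset.sum_bij' (fun x _ => put x.1 x.2 m) (fun σ _ => ⟨era σ m, cell σ m⟩) ?_ ?_ ?_ ?_ ?_
  · intro x _
    exact mem_univ _
  · intro σ _
    rw [mem_sigma, mem_filter]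
    refine ⟨⟨mem_univ _, cell_era_self σ m⟩, ?_⟩
    rw [mem_powerset]
    intro i hi
    rw [mem_sdiff]
    refine ⟨mem_univ _, fun h => ?_⟩
    have h1 := mem_supp.mp h
    simp only [era, mem_cell.mp hi, if_true] at h1
    exact h1 rfl
  · rintro ⟨σ, S⟩ hx
    rw [mem_sigma, mem_filter] at hx
    simp only at hx ⊢
    rw [era_put hx.1.2 hx.2, cell_put_self hx.1.2]
  · intro σ _
    funext i
    simp only [put, mem_cell, era]
    split_ifs with h
    · exact h.symm
    · rfl
  · rintro ⟨σ, S⟩ hx
    rw [mem_sigma, mem_filter] at hx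
    simp only at hx ⊢
    rw [era_put hx.1.2 hx.2, cell_put_self hx.1.2]

end Pool.Agent.RS
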