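import Mathlib

/-! RS/Abel.  Dyadic Abel summation.

For `ω` with `l ω ≤ 2^J/V` let `i(ω) ≥ 0` be least with `l ω ≤ 2^i/V` (so `l ω ≤ 2^j / V` for all
`j ≥ i`).  Then `1/l ω ≥ V 2^(-i) ≥ ∑_{j=max(i,1)}^{J-1} (V 2^(-j) - V 2^(-j-1))`, i.e. simply
`1/l ω ≥ ∑_{j ∈ [1,J-1], l ω ≤ 2^j/V} V 2^(-j-1)` (geometric sum; prove by induction on `J`:
`∑_{j ∈ [1,J-1], l ≤ 2^j/V} V 2^(-j-1) ≤ 1/l`).  Multiply by `u`, sum over `ω`, exchange:
`∑ u/l ≥ ∑_{j=1}^{J-1} V 2^(-j-1) ∑_{l ω ≤ 2^j/V} u ω ≥ ∑_{j=1}^{J-1} V 2^(-j-1) (2^j - 1)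
 ≥ ∑_{j=1}^{J-1} V/4`. -/

namespace Pool.Agent.RS

open Finset

private theorem abel_pt {l V : ℝ} (hl : 0 < l) (hV : 0 < V) (J : ℕ) :
    (∑ j ∈ Ico 1 J, if l ≤ 2 ^ j / V then V / 2 ^ (j + 1) else 0) ≤
      if l ≤ 2 ^ J / V then 1 / l - V / 2 ^ J else 0 := by
  have hle : ∀ J : ℕ, l ≤ 2 ^ J / V → 0 ≤ 1 / l - V / 2 ^ J := by
    intro J hJ
    have h1 : (0 : ℝ) < 2 ^ J := by positivity
    rw [sub_nonneg, div_le_div_iff₀ h1 hl, one_mul]
    calc V * l ≤ V * (2 ^ J / V) := by gcongr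
      _ = 2 ^ J := by field_simp
  induction J with
  | zero =>
    rw [Ico_eq_empty (by omega), sum_empty]
    split_ifs with h
    · exact hle 0 h
    · exact le_rfl
  | succ J ih =>
    rcases Nat.eq_zero_or_pos J with rfl | hJ
    · rw [Ico_self, sum_empty]
      split_ifs with h
      · exact hle _ h
      · exact le_rfl
    · rw [sum_Ico_succ_top hJ]
      by_cases h1 : l ≤ 2 ^ J / V
      · have h2 : l ≤ 2 ^ (J + 1) / V := by
          refine h1.trans ?_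
          gcongr
          · norm_num
          · omega
        rw [if_pos h1] at ih ⊢
        rw [if_pos h2]
        have h3 : V / 2 ^ J = V / 2 ^ (J + 1) + V / 2 ^ (J + 1) := by
          rw [pow_succ]
          field_simp
          ring
        linarith
      · rw [if_neg h1] at ih ⊢
        rw [add_zero]
        refine ih.trans ?_
        split_ifs with h
        · exact hle _ h
        · exact le_rfl

open Classical in
theorem abel_lower {Ω : Type} (s : Finset Ω) (u l : Ω → ℝ) (hu : ∀ ω ∈ s, 0 ≤ u ω)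
    (hl : ∀ ω ∈ s, 0 < l ω) {V : ℝ} (hV : 0 < V) (J : ℕ)
    (h : ∀ j ∈ Icc 1 J, (2 : ℝ) ^ j - 1 ≤ ∑ ω ∈ s.filter (fun ω => l ω ≤ 2 ^ j / V), u ω) :
    V * ((J : ℝ) - 1) / 4 ≤ ∑ ω ∈ s.filter (fun ω => l ω ≤ 2 ^ J / V), u ω / l ω := by
  have hR : 0 ≤ ∑ ω ∈ s.filter (fun ω => l ω ≤ 2 ^ J / V), u ω / l ω :=
    sum_nonneg fun ω hω => div_nonneg (hu ω (mem_filter.1 hω).1) (hl ω (mem_filter.1 hω).1).le
  rcases Nat.eq_zero_or_pos J with rfl | hJ
  · refine le_trans ?_ hR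
    have : V * (((0 : ℕ) : ℝ) - 1) / 4 = -(V / 4) := by
      push_cast
      ring
    rw [this]
    linarith [div_pos hV (by norm_num : (0 : ℝ) < 4)]
  calc V * ((J : ℝ) - 1) / 4 = ∑ j ∈ Ico 1 J, V / 4 := by
        rw [sum_const, Nat.card_Ico, nsmul_eq_mul, Nat.cast_sub hJ]
        push_cast
        ring
    _ ≤ ∑ j ∈ Ico 1 J, V / 2 ^ (j + 1) * ∑ ω ∈ s.filter (fun ω => l ω ≤ 2 ^ j / V), u ω := by
        refine sum_le_sum fun j hj => ?_
        rw [mem_Ico] at hj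
        have h1 := h j (mem_Icc.2 ⟨hj.1, hj.2.le⟩)
        have h2 : (2 : ℝ) ≤ 2 ^ j := by
          calc (2 : ℝ) = 2 ^ 1 := by norm_num
            _ ≤ 2 ^ j := pow_le_pow_right₀ (by norm_num) hj.1
        calc V / 4 ≤ V / 2 ^ (j + 1) * (2 ^ j - 1) := by
              rw [div_mul_eq_mul_div, div_le_div_iff₀ (by norm_num) (by positivity), pow_succ]
              nlinarith [mul_le_mul_of_nonneg_left h2 hV.le]
          _ ≤ _ := by gcongr
    _ = ∑ ω ∈ s, u ω * ∑ j ∈ Ico 1 J, if l ω ≤ 2 ^ j / V then V / 2 ^ (j + 1) else 0 := by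
        simp only [sum_filter, mul_sum]
        rw [sum_comm]
        refine sum_congr rfl fun ω _ => sum_congr rfl fun j _ => ?_
        split_ifs
        · ring
        · ring
    _ ≤ ∑ ω ∈ s, if l ω ≤ 2 ^ J / V then u ω / l ω else 0 := by
        refine sum_le_sum fun ω hω => ?_
        refine (mul_le_mul_of_nonneg_left (abel_pt (hl ω hω) hV J) (hu ω hω)).trans ?_
        split_ifs with h1
        · have h2 : 0 ≤ u ω * (V / 2 ^ J) := mul_nonneg (hu ω hω) (by positivity)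
          have h3 : u ω / l ω = u ω * (1 / l ω) := by ring
          rw [h3, mul_sub]
          linarith
        · rw [mul_zero]
    _ = _ := by rw [sum_filter]

end Pool.Agent.RS
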