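import Pool.Agent.RS.Wt
import Pool.Agent.RS.Abel

/-! RS/Tot.  `∑_{s ≤ y, (s,q)=1} μ²(s)/φ(s) ≥ (φ(q)/q) log y`, in terms of sets of primes.

`tot1`: every `n ∈ [1, y]` has all prime factors `≤ z`; grouping `n` by its set `S` of prime
factors, `∑_{n : primeFactors n = S, n ≤ y} 1/n ≤ ∏_{q∈S} (∑_{e ≥ 1} q^(-e)) = ∏_{q∈S} 1/(q-1)` and
`∏_{q ∈ S} q ≤ n ≤ y`; `∑_{n ≤ y} 1/n ≥ log y` (`log_add_one_le_harmonic` or similar).
`tot2`: split `S = S1 ∪ S2`, `S1 ⊆ E`, `S2 ⊆ primes \ E`, `∏_{S2} ≤ ∏_S ≤ y`: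
`∑_{S ⊆ primes} ≤ (∏_{q∈E} (1 + 1/(q-1))) * ∑_{S2}`, and `(1 + 1/(q-1)) (1 - 1/q) = 1`.
`H1_lower`: `tot2` gives for `1 ≤ t ≤ z`
`∑_{S ≠ ∅, PP S ≤ t} 1/PH S ≥ V log t - 1` (transfer between `Finset ℕ` and `Finset {q // q ∈ Q}`,
`Finset.powerset` / `Finset.map` of the subtype embedding, `Finset.subtype`); apply `abel_lower` with
`l S = log (PP S)`, `u S = 1/PH S` on `{S ≠ ∅}`, `2^j/V ≤ 2^J/V ≤ log S1 ≤ log z`. -/

namespace Pool.Agent.RS

open Finset

/-- primes `≤ z` -/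
def prz (z : ℕ) : Finset ℕ := (Finset.Icc 1 z).filter Nat.Prime

private noncomputable def tot_f : ℕ →* ℝ where
  toFun n := (n : ℝ)⁻¹
  map_one' := by simp
  map_mul' a b := by push_cast; rw [mul_inv]

open Classical in
/-- numbers with a given set of prime factors -/
private theorem tot_fiber (N : ℕ) (S : Finset ℕ) (hS : ∀ q ∈ S, q.Prime) :
    ∑ n ∈ (Finset.Icc 1 N).filter (fun n : ℕ => n.primeFactors = S), 1 / (n : ℝ) ≤
      1 / ∏ q ∈ S, ((q : ℝ) - 1) := by
  have hPpos : (0 : ℝ) < ∏ q ∈ S, (q : ℝ) :=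
    Finset.prod_pos fun q hq => by exact_mod_cast (hS q hq).pos
  have hsum := (EulerProduct.summable_and_hasSum_factoredNumbers_prod_filter_prime_geometric
    (f := tot_f) (fun {p} hp => by
      change ‖((p : ℕ) : ℝ)⁻¹‖ < 1
      rw [norm_inv, Real.norm_natCast]
      exact inv_lt_one_of_one_lt₀ (by exact_mod_cast hp.one_lt)) S).2
  have hfil : S.filter (fun p => p.Prime) = S := Finset.filter_true_of_mem hS
  rw [hfil] at hsum
  set T := (Finset.Icc 1 N).filter (fun n : ℕ => n.primeFactors = S) with hT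
  have hdvd : ∀ n ∈ T, (∏ q ∈ S, q) ∣ n := by
    intro n hn
    rw [hT, Finset.mem_filter] at hn
    rw [← hn.2]; exact Nat.prod_primeFactors_dvd n
  have hn0 : ∀ n ∈ T, n ≠ 0 := by
    intro n hn
    rw [hT, Finset.mem_filter, Finset.mem_Icc] at hn
    omega
  have hmem : ∀ n ∈ T, n / (∏ q ∈ S, q) ∈ Nat.factoredNumbers S := by
    intro n hn
    have h1 : n ∈ Nat.factoredNumbers S := by
      rw [Nat.mem_factoredNumbers_iff_primeFactors_subset]
      refine ⟨hn0 n hn, ?_⟩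
      rw [hT, Finset.mem_filter] at hn
      rw [hn.2]
    exact Nat.mem_factoredNumbers_of_dvd h1 (Nat.div_dvd_of_dvd (hdvd n hn))
  let g : {x // x ∈ T} → Nat.factoredNumbers S := fun n => ⟨n.1 / (∏ q ∈ S, q), hmem n.1 n.2⟩
  have hginj : Function.Injective g := by
    intro a b hab
    have h1 : a.1 / (∏ q ∈ S, q) = b.1 / (∏ q ∈ S, q) := congrArg Subtype.val hab
    have h2 := Nat.div_mul_cancel (hdvd a.1 a.2)
    have h3 := Nat.div_mul_cancel (hdvd b.1 b.2)
    apply Subtype.ext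
    rw [← h2, ← h3, h1]
  have hle : ∑ m ∈ (T.attach.map ⟨g, hginj⟩), tot_f m ≤ ∏ p ∈ S, (1 - tot_f p)⁻¹ :=
    sum_le_hasSum _ (fun i _ => by
      change 0 ≤ ((i : ℕ) : ℝ)⁻¹
      positivity) hsum
  rw [Finset.sum_map] at hle
  have h4 : ∑ n ∈ T, 1 / (n : ℝ) =
      (∏ q ∈ S, (q : ℝ))⁻¹ * ∑ x ∈ T.attach, tot_f ((⟨g, hginj⟩ : _ ↪ _) x).1 := by
    rw [← Finset.sum_attach, Finset.mul_sum]
    refine Finset.sum_congr rfl fun n _ => ?_
    change 1 / ((n : ℕ) : ℝ) = (∏ q ∈ S, (q : ℝ))⁻¹ * (((n.1 / (∏ q ∈ S, q) : ℕ)) : ℝ)⁻¹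
    rw [← mul_inv, one_div]
    congr 1
    have h5 := Nat.mul_div_cancel' (hdvd n.1 n.2)
    have h6 : ((∏ q ∈ S, q : ℕ) : ℝ) * ((n.1 / (∏ q ∈ S, q) : ℕ) : ℝ) = (n.1 : ℝ) := by
      rw [← Nat.cast_mul, h5]
    rw [← h6]; push_cast; rfl
  rw [h4]
  calc (∏ q ∈ S, (q : ℝ))⁻¹ * ∑ x ∈ T.attach, tot_f ((⟨g, hginj⟩ : _ ↪ _) x).1
      ≤ (∏ q ∈ S, (q : ℝ))⁻¹ * ∏ p ∈ S, (1 - tot_f p)⁻¹ :=
        mul_le_mul_of_nonneg_left hle (by positivity)
    _ = 1 / ∏ q ∈ S, ((q : ℝ) - 1) := by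
        rw [← Finset.prod_inv_distrib, ← Finset.prod_mul_distrib, one_div,
          ← Finset.prod_inv_distrib]
        refine Finset.prod_congr rfl fun q hq => ?_
        change (q : ℝ)⁻¹ * (1 - (q : ℝ)⁻¹)⁻¹ = ((q : ℝ) - 1)⁻¹
        have hq0 : (q : ℝ) ≠ 0 := by exact_mod_cast (hS q hq).ne_zero
        rw [← mul_inv]
        congr 1
        field_simp

open Classical in
theorem tot1 {z : ℕ} {y : ℝ} (hy : 1 ≤ y) (hyz : y ≤ z) :
    Real.log y ≤ ∑ S ∈ (prz z).powerset.filter (fun S : Finset ℕ => (∏ q ∈ S, (q : ℝ)) ≤ y),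
      1 / ∏ q ∈ S, ((q : ℝ) - 1) := by
  set N := ⌊y⌋₊ with hN
  have h1 : Real.log y ≤ ∑ n ∈ Finset.Icc 1 N, 1 / (n : ℝ) := by
    have h2 : Real.log y ≤ Real.log ((N + 1 : ℕ) : ℝ) := by
      refine Real.log_le_log (by linarith) ?_
      push_cast
      exact (Nat.lt_floor_add_one y).le
    refine h2.trans ((log_add_one_le_harmonic N).trans (le_of_eq ?_))
    rw [harmonic_eq_sum_Icc]
    push_cast
    exact Finset.sum_congr rfl fun n _ => by rw [one_div]
  have h3 : ∑ n ∈ Finset.Icc 1 N, 1 / (n : ℝ) =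
      ∑ S ∈ (prz z).powerset.filter (fun S : Finset ℕ => (∏ q ∈ S, (q : ℝ)) ≤ y),
        ∑ n ∈ (Finset.Icc 1 N).filter (fun n : ℕ => n.primeFactors = S), 1 / (n : ℝ) := by
    symm
    refine Finset.sum_fiberwise_of_maps_to (g := fun n : ℕ => n.primeFactors) ?_ _
    intro n hn
    rw [Finset.mem_Icc] at hn
    have hny : (n : ℝ) ≤ y := (Nat.cast_le.mpr hn.2).trans (Nat.floor_le (by linarith))
    rw [Finset.mem_filter, Finset.mem_powerset]
    constructor
    · intro q hq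
      unfold prz
      rw [Finset.mem_filter, Finset.mem_Icc]
      have hqp := Nat.prime_of_mem_primeFactors hq
      refine ⟨⟨hqp.pos, ?_⟩, hqp⟩
      have h5 : q ≤ n := Nat.le_of_mem_primeFactors hq
      have h6 : (q : ℝ) ≤ z := (Nat.cast_le.mpr h5).trans (hny.trans hyz)
      exact_mod_cast h6
    · have h5 : (∏ q ∈ n.primeFactors, q) ≤ n :=
        Nat.le_of_dvd (by omega) (Nat.prod_primeFactors_dvd n)
      have h6 : ((∏ q ∈ n.primeFactors, q : ℕ) : ℝ) ≤ (n : ℝ) := by exact_mod_cast h5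
      push_cast at h6
      exact h6.trans hny
  rw [h3] at h1
  refine h1.trans (Finset.sum_le_sum fun S hS => ?_)
  rw [Finset.mem_filter, Finset.mem_powerset] at hS
  refine tot_fiber N S fun q hq => ?_
  have := hS.1 hq
  unfold prz at this
  rw [Finset.mem_filter] at this
  exact this.2

private theorem tot_prime {z q : ℕ} (h : q ∈ prz z) : q.Prime := by
  unfold prz at h
  rw [Finset.mem_filter] at h
  exact h.2

private theorem tot_sub_one_pos {z q : ℕ} (h : q ∈ prz z) : (0 : ℝ) < (q : ℝ) - 1 := by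
  have : (1 : ℝ) < q := by exact_mod_cast (tot_prime h).one_lt
  linarith

private theorem tot_f_nonneg {z : ℕ} {S : Finset ℕ} (hS : S ⊆ prz z) :
    0 ≤ 1 / ∏ q ∈ S, ((q : ℝ) - 1) := by
  have : 0 < ∏ q ∈ S, ((q : ℝ) - 1) := Finset.prod_pos fun q hq => tot_sub_one_pos (hS hq)
  positivity

open Classical in
theorem tot2 {z : ℕ} {y : ℝ} (hy : 1 ≤ y) (hyz : y ≤ z) {E : Finset ℕ} (hE : E ⊆ prz z) :
    (∏ q ∈ E, (1 - 1 / (q : ℝ))) * Real.log y ≤
      ∑ S ∈ (prz z \ E).powerset.filter (fun S : Finset ℕ => (∏ q ∈ S, (q : ℝ)) ≤ y),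
        1 / ∏ q ∈ S, ((q : ℝ) - 1) := by
  set F := (prz z \ E).powerset.filter (fun S : Finset ℕ => (∏ q ∈ S, (q : ℝ)) ≤ y) with hF
  have h1 := tot1 hy hyz
  have h2 : ∑ S ∈ (prz z).powerset.filter (fun S : Finset ℕ => (∏ q ∈ S, (q : ℝ)) ≤ y),
      1 / ∏ q ∈ S, ((q : ℝ) - 1) ≤
      ∑ p ∈ E.powerset ×ˢ F, (1 / ∏ q ∈ p.1, ((q : ℝ) - 1)) * (1 / ∏ q ∈ p.2, ((q : ℝ) - 1)) := by
    have hinj : Set.InjOn (fun S : Finset ℕ => (S ∩ E, S \ E))
        ((prz z).powerset.filter (fun S : Finset ℕ => (∏ q ∈ S, (q : ℝ)) ≤ y)) := by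
      intro S _ T _ hST
      simp only [Prod.mk.injEq] at hST
      rw [← Finset.sdiff_union_inter S E, ← Finset.sdiff_union_inter T E, hST.1, hST.2]
    have h3 : ∀ S ∈ (prz z).powerset.filter (fun S : Finset ℕ => (∏ q ∈ S, (q : ℝ)) ≤ y),
        1 / ∏ q ∈ S, ((q : ℝ) - 1) =
          (1 / ∏ q ∈ (S ∩ E, S \ E).1, ((q : ℝ) - 1)) *
            (1 / ∏ q ∈ (S ∩ E, S \ E).2, ((q : ℝ) - 1)) := by
      intro S _
      simp only
      rw [one_div_mul_one_div, Finset.prod_inter_mul_prod_sdiff S E]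
    rw [Finset.sum_congr rfl h3]
    rw [← Finset.sum_image (g := fun S : Finset ℕ => (S ∩ E, S \ E))
      (f := fun p : Finset ℕ × Finset ℕ =>
        (1 / ∏ q ∈ p.1, ((q : ℝ) - 1)) * (1 / ∏ q ∈ p.2, ((q : ℝ) - 1))) hinj]
    refine Finset.sum_le_sum_of_subset_of_nonneg ?_ ?_
    · intro p hp
      rw [Finset.mem_image] at hp
      obtain ⟨S, hS, rfl⟩ := hp
      rw [Finset.mem_filter, Finset.mem_powerset] at hS
      rw [Finset.mem_product, hF, Finset.mem_filter, Finset.mem_powerset, Finset.mem_powerset]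
      refine ⟨Finset.inter_subset_right, Finset.sdiff_subset_sdiff hS.1 subset_rfl, ?_⟩
      refine le_trans ?_ hS.2
      have h7 : (∏ q ∈ S \ E, q) ≤ ∏ q ∈ S, q :=
        Nat.le_of_dvd (Finset.prod_pos fun q hq => (tot_prime (hS.1 hq)).pos)
          (Finset.prod_dvd_prod_of_subset _ _ _ Finset.sdiff_subset)
      have h8 : ((∏ q ∈ S \ E, q : ℕ) : ℝ) ≤ ((∏ q ∈ S, q : ℕ) : ℝ) := by exact_mod_cast h7
      push_cast at h8
      exact h8
    · intro p hp _
      rw [Finset.mem_product, hF, Finset.mem_filter, Finset.mem_powerset, Finset.mem_powerset] at hp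
      exact mul_nonneg (tot_f_nonneg (hp.1.trans hE))
        (tot_f_nonneg (hp.2.1.trans Finset.sdiff_subset))
  rw [Finset.sum_product] at h2
  have h3 : ∑ x ∈ E.powerset, ∑ y ∈ F,
      (1 / ∏ q ∈ (x, y).1, ((q : ℝ) - 1)) * (1 / ∏ q ∈ (x, y).2, ((q : ℝ) - 1)) =
      (∏ q ∈ E, (1 + 1 / ((q : ℝ) - 1))) * ∑ S ∈ F, 1 / ∏ q ∈ S, ((q : ℝ) - 1) := by
    rw [Finset.prod_one_add, Finset.sum_mul_sum]
    refine Finset.sum_congr rfl fun x _ => Finset.sum_congr rfl fun y _ => ?_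
    simp only
    congr 1
    rw [Finset.prod_div_distrib, Finset.prod_const_one]
  rw [h3] at h2
  have h4 : (∏ q ∈ E, (1 - 1 / (q : ℝ))) * ∏ q ∈ E, (1 + 1 / ((q : ℝ) - 1)) = 1 := by
    rw [← Finset.prod_mul_distrib]
    refine Finset.prod_eq_one fun q hq => ?_
    have h5 := tot_sub_one_pos (hE hq)
    have h6 : (q : ℝ) ≠ 0 := by exact_mod_cast (tot_prime (hE hq)).ne_zero
    have h7 : (q : ℝ) - 1 ≠ 0 := h5.ne'
    field_simp
    ring
  have h5 : 0 ≤ ∏ q ∈ E, (1 - 1 / (q : ℝ)) := by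
    refine Finset.prod_nonneg fun q hq => ?_
    have h5 := tot_sub_one_pos (hE hq)
    have h6 : (0 : ℝ) < q := by linarith
    rw [sub_nonneg, div_le_one h6]; linarith
  calc (∏ q ∈ E, (1 - 1 / (q : ℝ))) * Real.log y
      ≤ (∏ q ∈ E, (1 - 1 / (q : ℝ))) * ((∏ q ∈ E, (1 + 1 / ((q : ℝ) - 1))) *
          ∑ S ∈ F, 1 / ∏ q ∈ S, ((q : ℝ) - 1)) :=
        mul_le_mul_of_nonneg_left (h1.trans h2) h5
    _ = ∑ S ∈ F, 1 / ∏ q ∈ S, ((q : ℝ) - 1) := by
        rw [← mul_assoc, h4, one_mul]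

theorem H1_lower {z : ℕ} {E : Finset ℕ} (hE : E ⊆ prz z) {V : ℝ} (hV : 0 < V)
    (hV2 : V ≤ ∏ q ∈ E, (1 - 1 / (q : ℝ))) {S1 : ℝ} (hS1 : 1 < S1) (hS1z : S1 ≤ z) (J : ℕ)
    (hJ : 2 ^ J / V ≤ Real.log S1) :
    V * ((J : ℝ) - 1) / 4 ≤ H1 (fun q : {q // q ∈ prz z \ E} => (q : ℕ)) S1 := by
  classical
  have hS10 : 0 < S1 := by linarith
  set p : {q // q ∈ prz z \ E} → ℕ := fun q => (q : ℕ) with hp
  have hpp : ∀ i : {q // q ∈ prz z \ E}, i.1 ∈ prz z := fun i => (Finset.mem_sdiff.mp i.2).1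
  have hPP1 : ∀ S : Finset {q // q ∈ prz z \ E}, 1 ≤ PP p S := fun S => by
    unfold PP
    have : ((∏ i ∈ S, p i : ℕ) : ℝ) = ∏ i ∈ S, (p i : ℝ) := by push_cast; rfl
    rw [← this]
    exact_mod_cast (Finset.prod_pos fun i _ => (tot_prime (hpp i)).pos)
  have hPP2 : ∀ S : Finset {q // q ∈ prz z \ E}, S ≠ ∅ → 1 < PP p S := fun S hS => by
    obtain ⟨i, hi⟩ := Finset.nonempty_iff_ne_empty.mpr hS
    unfold PP
    have h2 : p i ∣ ∏ i ∈ S, p i := Finset.dvd_prod_of_mem _ hi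
    have h3 : p i ≤ ∏ i ∈ S, p i :=
      Nat.le_of_dvd (Finset.prod_pos fun i _ => (tot_prime (hpp i)).pos) h2
    have h4 := (tot_prime (hpp i)).one_lt
    have : ((∏ i ∈ S, p i : ℕ) : ℝ) = ∏ i ∈ S, (p i : ℝ) := by push_cast; rfl
    rw [← this]
    exact_mod_cast lt_of_lt_of_le h4 h3
  have hPH : ∀ S : Finset {q // q ∈ prz z \ E}, 0 < PH p S := fun S => by
    unfold PH
    exact Finset.prod_pos fun i _ => tot_sub_one_pos (hpp i)
  have hlog : ∀ S : Finset {q // q ∈ prz z \ E}, S ≠ ∅ → 0 < Real.log (PP p S) :=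
    fun S hS => Real.log_pos (hPP2 S hS)
  have main : ∀ t : ℝ, 1 ≤ t → t ≤ z → V * Real.log t - 1 ≤
      ∑ S ∈ (univ : Finset (Finset {q // q ∈ prz z \ E})).filter
        (fun S => S ≠ ∅ ∧ PP p S ≤ t), 1 / PH p S := by
    intro t ht htz
    have h1 := tot2 ht htz hE
    have h2 : V * Real.log t ≤ (∏ q ∈ E, (1 - 1 / (q : ℝ))) * Real.log t :=
      mul_le_mul_of_nonneg_right hV2 (Real.log_nonneg ht)
    have h3 : ∑ S ∈ (prz z \ E).powerset.filter (fun S : Finset ℕ => (∏ q ∈ S, (q : ℝ)) ≤ t),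
        1 / ∏ q ∈ S, ((q : ℝ) - 1) =
        ∑ S ∈ (univ : Finset (Finset {q // q ∈ prz z \ E})).filter
          (fun S => PP p S ≤ t), 1 / PH p S := by
      symm
      refine Finset.sum_nbij' (fun S => S.map (Function.Embedding.subtype _))
        (fun S => S.subtype _) ?_ ?_ ?_ ?_ ?_
      · intro S hS
        rw [Finset.mem_filter] at hS
        rw [Finset.mem_filter, Finset.mem_powerset]
        constructor
        · intro q hq
          rw [Finset.mem_map] at hq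
          obtain ⟨a, _, rfl⟩ := hq
          exact a.2
        · rw [Finset.prod_map]
          exact hS.2
      · intro S hS
        rw [Finset.mem_filter, Finset.mem_powerset] at hS
        rw [Finset.mem_filter]
        refine ⟨Finset.mem_univ _, ?_⟩
        have h4 : (S.subtype (· ∈ prz z \ E)).map (Function.Embedding.subtype _) = S := by
          rw [Finset.subtype_map]
          exact Finset.filter_true_of_mem fun x hx => hS.1 hx
        have h5 : PP p (S.subtype (· ∈ prz z \ E)) = ∏ q ∈ S, (q : ℝ) := by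
          conv_rhs => rw [← h4]
          rw [Finset.prod_map]; rfl
        rw [h5]; exact hS.2
      · intro S _
        exact Finset.map_injective (Function.Embedding.subtype _) (by
          rw [Finset.subtype_map]
          refine Finset.filter_true_of_mem fun x hx => ?_
          rw [Finset.mem_map] at hx
          obtain ⟨a, _, rfl⟩ := hx
          exact a.2)
      · intro S hS
        rw [Finset.mem_filter, Finset.mem_powerset] at hS
        rw [Finset.subtype_map]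
        exact Finset.filter_true_of_mem fun x hx => hS.1 hx
      · intro S _
        rw [Finset.prod_map]; rfl
    have h4 : ∑ S ∈ (univ : Finset (Finset {q // q ∈ prz z \ E})).filter
          (fun S => PP p S ≤ t), 1 / PH p S =
        1 + ∑ S ∈ (univ : Finset (Finset {q // q ∈ prz z \ E})).filter
          (fun S => S ≠ ∅ ∧ PP p S ≤ t), 1 / PH p S := by
      have h5 : (univ : Finset (Finset {q // q ∈ prz z \ E})).filter (fun S => PP p S ≤ t) =
          insert ∅ ((univ : Finset (Finset {q // q ∈ prz z \ E})).filter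
            (fun S => S ≠ ∅ ∧ PP p S ≤ t)) := by
        ext S
        simp only [Finset.mem_filter, Finset.mem_univ, true_and, Finset.mem_insert]
        by_cases hS : S = ∅
        · subst hS
          simp only [PP_empty, true_or, iff_true]
          exact ht
        · simp [hS]
      rw [h5, Finset.sum_insert (by simp)]
      rw [PH_empty, div_one]
    rw [h3, h4] at h1
    linarith
  have hab := abel_lower ((univ : Finset (Finset {q // q ∈ prz z \ E})).filter (fun S => S ≠ ∅))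
    (fun S => 1 / PH p S) (fun S => Real.log (PP p S))
    (fun S _ => (by have := hPH S; positivity))
    (fun S hS => hlog S (Finset.mem_filter.mp hS).2) hV J (by
      intro j hj
      rw [Finset.mem_Icc] at hj
      have h1 : (2 : ℝ) ^ j / V ≤ Real.log S1 := by
        refine le_trans ?_ hJ
        gcongr
        · norm_num
        · exact hj.2
      have ht1 : 1 ≤ Real.exp (2 ^ j / V) := Real.one_le_exp (by positivity)
      have ht2 : Real.exp (2 ^ j / V) ≤ z := by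
        refine le_trans ?_ hS1z
        rw [← Real.exp_log hS10]
        exact Real.exp_le_exp.mpr h1
      have h2 := main _ ht1 ht2
      rw [Real.log_exp, mul_div_cancel₀ _ hV.ne'] at h2
      refine h2.trans (le_of_eq ?_)
      rw [Finset.filter_filter]
      refine Finset.sum_congr ?_ fun _ _ => rfl
      refine Finset.filter_congr fun S _ => ?_
      rw [Real.log_le_iff_le_exp (by linarith [hPP1 S])])
  refine hab.trans ?_
  unfold H1
  rw [Finset.filter_filter]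
  have h6 : ∀ S : Finset {q // q ∈ prz z \ E}, 1 / PH p S / Real.log (PP p S) =
      1 / (PH p S * Real.log (PP p S)) := fun S => by rw [div_div]
  simp only [h6]
  refine Finset.sum_le_sum_of_subset_of_nonneg ?_ ?_
  · intro S hS
    rw [Finset.mem_filter] at hS ⊢
    refine ⟨hS.1, hS.2.1, ?_⟩
    have h7 := hS.2.2.trans hJ
    exact (Real.log_le_log_iff (by linarith [hPP1 S]) hS10).mp h7
  · intro S hS _
    rw [Finset.mem_filter] at hS
    have := hlog S hS.2.1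
    have := hPH S
    positivity

end Pool.Agent.RS
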