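import Pool.Agent.RS.Base

/-! RS/Schur.  Schur test for the Gram form.

`GG q o o'` is symmetric.  `∏ i, GG (p i) (σ i) (σ i) = 1 / PH p (supp σ)` (diagonal).
`∑_{σ'} ∏ i, |GG (p i) (σ i) (σ' i)| = ∏ i, ∑_{o} |GG (p i) (σ i) o|` (`Finset.prod_univ_sum`,
`Fintype.piFinset_univ`), and `∑_o |GG q none o| = 1`,
`∑_o |GG q (some j) o| = 1/(q-1) * (1 + (k-1)/(q-1))`, `k = Fintype.card κ`.  So the row sum is
`≤ 1/PH(supp σ) * exp (∑_{i∈supp σ} k/(p i -1)) ≤ 1/PH * exp(1/6) ≤ 1/PH * 6/5`.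
Then `|∑_{σ ≠ σ'} Y σ Y σ' ∏ GG| ≤ ∑_{σ ≠ σ'} (Y σ ^2 + Y σ' ^2)/2 * ∏|GG|
 = ∑_σ Y σ ^2 * (row sum - diagonal) ≤ (1/5) ∑_σ Y σ^2 / PH`; only `σ` with `Y σ ≠ 0` matter. -/

namespace Pool.Agent.RS

open Finset

variable {ι κ : Type} [Fintype ι] [DecidableEq ι] [DecidableEq κ] [Fintype κ]

/-- Schur test -/
private theorem quad {α : Type*} [Fintype α] [DecidableEq α] (A : α → α → ℝ)
    (hA : ∀ i j, A i j = A j i)
    (Y d : α → ℝ) (hd0 : ∀ i, 0 ≤ d i) (hd : ∀ i, A i i = d i) {ε : ℝ}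
    (hrow : ∀ i, Y i ≠ 0 → ∑ j, |A i j| ≤ (1 + ε) * d i) :
    |∑ i, ∑ j, Y i * Y j * A i j - ∑ i, Y i ^ 2 * d i| ≤ ε * ∑ i, Y i ^ 2 * d i := by
  have h1 : ∀ i, ∑ j, Y i * Y j * A i j =
      Y i ^ 2 * d i + ∑ j ∈ univ.erase i, Y i * Y j * A i j := by
    intro i
    rw [← Finset.add_sum_erase univ (fun j => Y i * Y j * A i j) (mem_univ i), hd i]
    ring
  have h2 : ∑ i, ∑ j, Y i * Y j * A i j - ∑ i, Y i ^ 2 * d i =
      ∑ i, ∑ j ∈ univ.erase i, Y i * Y j * A i j := by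
    rw [sum_congr rfl fun i _ => h1 i, sum_add_distrib]
    ring
  rw [h2]
  have h3 : |∑ i, ∑ j ∈ univ.erase i, Y i * Y j * A i j| ≤
      ∑ i, ∑ j ∈ univ.erase i, (|A i j| * Y i ^ 2 / 2 + |A i j| * Y j ^ 2 / 2) := by
    refine (abs_sum_le_sum_abs _ _).trans (sum_le_sum fun i _ => ?_)
    refine (abs_sum_le_sum_abs _ _).trans (sum_le_sum fun j _ => ?_)
    rw [abs_mul, abs_mul]
    have h4 : |Y i| * |Y j| ≤ (Y i ^ 2 + Y j ^ 2) / 2 := by
      nlinarith [sq_nonneg (|Y i| - |Y j|), sq_abs (Y i), sq_abs (Y j)]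
    have h5 : 0 ≤ |A i j| := abs_nonneg _
    nlinarith
  have h6 : ∀ f : α → α → ℝ, ∑ i, ∑ j ∈ univ.erase i, f i j =
      ∑ i, ∑ j ∈ univ.erase i, f j i := by
    intro f
    rw [Finset.sum_sigma', Finset.sum_sigma']
    refine sum_bij (fun x _ => ⟨x.2, x.1⟩) ?_ ?_ ?_ ?_
    · rintro ⟨i, j⟩ h
      simp only [mem_sigma, mem_univ, mem_erase, ne_eq, true_and, and_true] at h ⊢
      exact fun h' => h h'.symm
    · rintro ⟨i, j⟩ _ ⟨i', j'⟩ _ h
      simp only [Sigma.mk.injEq, heq_eq_eq] at h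
      rw [h.1, h.2]
    · rintro ⟨i, j⟩ h
      refine ⟨⟨j, i⟩, ?_, rfl⟩
      simp only [mem_sigma, mem_univ, mem_erase, ne_eq, true_and, and_true] at h ⊢
      exact fun h' => h h'.symm
    · rintro ⟨i, j⟩ _
      rfl
  have h7 : ∑ i, ∑ j ∈ univ.erase i, (|A i j| * Y i ^ 2 / 2 + |A i j| * Y j ^ 2 / 2) =
      ∑ i, Y i ^ 2 * ∑ j ∈ univ.erase i, |A i j| := by
    have h8 : ∑ i, ∑ j ∈ univ.erase i, |A i j| * Y j ^ 2 / 2 =
        ∑ i, ∑ j ∈ univ.erase i, |A i j| * Y i ^ 2 / 2 := by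
      rw [h6 fun i j => |A i j| * Y j ^ 2 / 2]
      refine sum_congr rfl fun i _ => sum_congr rfl fun j _ => ?_
      rw [hA j i]
    simp only [sum_add_distrib]
    rw [h8, ← sum_add_distrib]
    refine sum_congr rfl fun i _ => ?_
    rw [← sum_add_distrib, mul_sum]
    refine sum_congr rfl fun j _ => ?_
    ring
  refine h3.trans ?_
  rw [h7, mul_sum]
  refine sum_le_sum fun i _ => ?_
  by_cases hi : Y i = 0
  · rw [hi]
    simp
  · have h9 := hrow i hi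
    rw [← Finset.add_sum_erase univ (fun j => |A i j|) (mem_univ i), hd i,
      abs_of_nonneg (hd0 i)] at h9
    have h10 : ∑ j ∈ univ.erase i, |A i j| ≤ ε * d i := by linarith
    calc Y i ^ 2 * ∑ j ∈ univ.erase i, |A i j| ≤ Y i ^ 2 * (ε * d i) :=
          mul_le_mul_of_nonneg_left h10 (sq_nonneg _)
      _ = ε * (Y i ^ 2 * d i) := by ring

omit [Fintype κ] in
private theorem GG_symm (q : ℕ) (o o' : Option κ) : GG q o o' = GG q o' o := by
  cases o with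
  | none => cases o' <;> rfl
  | some i =>
    cases o' with
    | none => rfl
    | some j =>
      simp only [GG]
      by_cases h : i = j
      · rw [if_pos h, if_pos h.symm]
      · rw [if_neg h, if_neg (fun h' => h h'.symm)]

private theorem sum_abs_GG {q : ℕ} (hq : 2 ≤ q) (o : Option κ) :
    ∑ o' : Option κ, |GG q o o'| =
      o.elim 1 (fun _ => 1 / ((q : ℝ) - 1) *
        (1 + ((Fintype.card κ : ℝ) - 1) / ((q : ℝ) - 1))) := by
  have h1 : (0 : ℝ) < (q : ℝ) - 1 := by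
    have : (2 : ℝ) ≤ q := by exact_mod_cast hq
    linarith
  rw [Fintype.sum_option]
  cases o with
  | none => simp [GG]
  | some i =>
    simp only [GG, Option.elim, abs_zero, zero_add]
    rw [← Finset.add_sum_erase univ _ (mem_univ i)]
    rw [if_pos rfl, abs_of_nonneg (by positivity)]
    have h2 : ∀ j ∈ univ.erase i, |if i = j then 1 / ((q : ℝ) - 1) else
        -1 / ((q : ℝ) - 1) ^ 2| = 1 / ((q : ℝ) - 1) ^ 2 := by
      intro j hj
      rw [if_neg (ne_of_mem_erase hj).symm, neg_div, abs_neg, abs_of_nonneg (by positivity)]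
    rw [sum_congr rfl h2, sum_const, card_erase_of_mem (mem_univ i), card_univ,
      nsmul_eq_mul]
    have hk : 1 ≤ Fintype.card κ := Fintype.card_pos_iff.2 ⟨i⟩
    rw [Nat.cast_sub hk]
    field_simp
    push_cast
    ring

theorem quad_bound {p : ι → ℕ} (hp : ∀ i, 2 ≤ p i) (Y : (ι → Option κ) → ℝ)
    (hN : ∀ σ, Y σ ≠ 0 → ∑ i ∈ supp σ, (Fintype.card κ : ℝ) / ((p i : ℝ) - 1) ≤ 1 / 6) :
    |∑ σ, ∑ σ', Y σ * Y σ' * ∏ i, GG (p i) (σ i) (σ' i) - ∑ σ, Y σ ^ 2 / PH p (supp σ)| ≤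
      1 / 5 * ∑ σ, Y σ ^ 2 / PH p (supp σ) := by
  have hp1 : ∀ i, (0 : ℝ) < (p i : ℝ) - 1 := by
    intro i
    have : (2 : ℝ) ≤ p i := by exact_mod_cast hp i
    linarith
  have hPH : ∀ S : Finset ι, 0 < PH p S := fun S => prod_pos fun i _ => hp1 i
  have hel : ∀ (σ : ι → Option κ) (f : ι → ℝ),
      ∏ i, (σ i).elim 1 (fun _ => f i) = ∏ i ∈ supp σ, f i := by
    intro σ f
    symm
    have h1 : ∏ i ∈ supp σ, f i = ∏ i ∈ supp σ, (σ i).elim 1 (fun _ => f i) := by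
      refine prod_congr rfl fun i hi => ?_
      rw [mem_supp] at hi
      obtain ⟨j, hj⟩ := Option.ne_none_iff_exists'.1 hi
      rw [hj]
      rfl
    rw [h1]
    refine prod_subset (subset_univ _) ?_
    intro i _ hi
    rw [mem_supp, not_not] at hi
    rw [hi]
    rfl
  have hdiag : ∀ σ : ι → Option κ, ∏ i, GG (p i) (σ i) (σ i) = 1 / PH p (supp σ) := by
    intro σ
    unfold PH
    rw [← hel σ, one_div, ← prod_inv_distrib]
    refine prod_congr rfl fun i _ => ?_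
    cases σ i with
    | none => simp [GG]
    | some j => simp [GG]
  have hrow : ∀ σ, Y σ ≠ 0 → ∑ σ' : ι → Option κ, |∏ i, GG (p i) (σ i) (σ' i)| ≤
      (1 + 1 / 5) * (1 / PH p (supp σ)) := by
    intro σ hσ
    have h1 : ∑ σ' : ι → Option κ, |∏ i, GG (p i) (σ i) (σ' i)| =
        ∏ i, ∑ o' : Option κ, |GG (p i) (σ i) o'| := by
      rw [Finset.prod_univ_sum, Fintype.piFinset_univ]
      refine sum_congr rfl fun σ' _ => ?_
      rw [abs_prod]
    have h2 : ∏ i, ∑ o' : Option κ, |GG (p i) (σ i) o'| =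
        (1 / PH p (supp σ)) * ∏ i ∈ supp σ,
          (1 + ((Fintype.card κ : ℝ) - 1) / ((p i : ℝ) - 1)) := by
      unfold PH
      rw [← hel σ, ← hel σ, one_div, ← prod_inv_distrib, ← prod_mul_distrib]
      refine prod_congr rfl fun i _ => ?_
      rw [sum_abs_GG (hp i)]
      cases σ i with
      | none => simp
      | some j => simp
    have h3 : ∏ i ∈ supp σ, (1 + ((Fintype.card κ : ℝ) - 1) / ((p i : ℝ) - 1)) ≤
        1 + 1 / 5 := by
      have h4 : ∀ i ∈ supp σ, (1 + ((Fintype.card κ : ℝ) - 1) / ((p i : ℝ) - 1)) ≤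
          Real.exp ((Fintype.card κ : ℝ) / ((p i : ℝ) - 1)) := by
        intro i _
        have h5 := Real.add_one_le_exp ((Fintype.card κ : ℝ) / ((p i : ℝ) - 1))
        have h6 : ((Fintype.card κ : ℝ) - 1) / ((p i : ℝ) - 1) ≤
            (Fintype.card κ : ℝ) / ((p i : ℝ) - 1) :=
          div_le_div_of_nonneg_right (by linarith) (hp1 i).le
        linarith
      have h0 : ∀ i ∈ supp σ, 0 ≤ (1 + ((Fintype.card κ : ℝ) - 1) / ((p i : ℝ) - 1)) := by
        intro i hi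
        rw [mem_supp] at hi
        obtain ⟨j, _⟩ := Option.ne_none_iff_exists'.1 hi
        have hk : 1 ≤ Fintype.card κ := Fintype.card_pos_iff.2 ⟨j⟩
        have hk' : (1 : ℝ) ≤ Fintype.card κ := by exact_mod_cast hk
        have h7 : 0 ≤ ((Fintype.card κ : ℝ) - 1) / ((p i : ℝ) - 1) :=
          div_nonneg (by linarith) (hp1 i).le
        linarith
      refine (prod_le_prod h0 h4).trans ?_
      rw [← Real.exp_sum]
      refine (Real.exp_le_exp.2 (hN σ hσ)).trans ?_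
      have h8 := Real.one_sub_le_exp_neg (1 / 6 : ℝ)
      rw [Real.exp_neg] at h8
      have h9 := Real.exp_pos (1 / 6 : ℝ)
      have h10 : (1 - 1 / 6) * Real.exp (1 / 6) ≤ (Real.exp (1 / 6))⁻¹ * Real.exp (1 / 6) :=
        mul_le_mul_of_nonneg_right h8 h9.le
      rw [inv_mul_cancel₀ h9.ne'] at h10
      linarith
    rw [h1, h2, mul_comm (1 + 1 / 5 : ℝ)]
    exact mul_le_mul_of_nonneg_left h3 (by
      have := hPH (supp σ)
      positivity)
  have hq := quad (fun σ σ' : ι → Option κ => ∏ i, GG (p i) (σ i) (σ' i))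
    (fun σ σ' => prod_congr rfl fun i _ => GG_symm _ _ _) Y (fun σ => 1 / PH p (supp σ))
    (fun σ => by
      have := hPH (supp σ)
      positivity) hdiag hrow
  have hsum : ∑ σ, Y σ ^ 2 * (1 / PH p (supp σ)) = ∑ σ, Y σ ^ 2 / PH p (supp σ) :=
    sum_congr rfl fun σ _ => by ring
  rw [hsum] at hq
  exact hq

end Pool.Agent.RS
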