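import Pool.Agent.RS.Decomp

/-! RS/Rough.  The function `g = ∑ Yd σ e_σ` when no `p i` divides `n - a m`.

`cc_eq_zero`: `PP p S ≥ 1`.
`rough_id`: if no `p i` divides `n - a m` then `ee (p i) (n - a m) = 1/(p i - 1)`, so
`∏_{i∈S} ee (p i) (n - a m) = 1 / PH p S`.  Apply `decomp m` to the left side:
`= ∑_{σ', cell σ' m = ∅} Yt y σ' * EE σ' * ∑_{S} [PP S * PP (supp σ') ≤ D] y S / PH S`
`= ∑_{σ', cell σ' m = ∅} Yt y σ' * cc (supp σ') * EE σ'` (use `Yt_split`, `PP_supp_split`,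
`EE_split`, in the form `F σ' S := if PP S * PP (supp σ') ≤ D then y S * Yt y σ' * ...`).
`Zm_sum`: `Zm ≠ 0` gives `cc ≠ 0`, hence `PP (supp σ) ≤ D` and `Yt = Yd`; split at `D2`. -/

namespace Pool.Agent.RS

open Finset

variable {ι κ : Type} [Fintype ι] [DecidableEq ι] [DecidableEq κ]

theorem one_le_PP {p : ι → ℕ} (hp : ∀ i, 2 ≤ p i) (S : Finset ι) : 1 ≤ PP p S := by
  have h : ∏ i ∈ S, (1 : ℝ) ≤ ∏ i ∈ S, (p i : ℝ) := by
    apply Finset.prod_le_prod
    · intro i _; norm_num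
    · intro i _
      have := hp i
      have h2 : (2 : ℝ) ≤ (p i : ℝ) := by exact_mod_cast this
      linarith
  simpa [PP] using h

theorem one_le_PH {p : ι → ℕ} (hp : ∀ i, 2 ≤ p i) (S : Finset ι) : 1 ≤ PH p S := by
  have h : ∏ i ∈ S, (1 : ℝ) ≤ ∏ i ∈ S, ((p i : ℝ) - 1) := by
    apply Finset.prod_le_prod
    · intro i _; norm_num
    · intro i _
      have := hp i
      have h2 : (2 : ℝ) ≤ (p i : ℝ) := by exact_mod_cast this
      linarith
  simpa [PH] using h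

theorem cc_eq_zero {p : ι → ℕ} (hp : ∀ i, 2 ≤ p i) (y : Finset ι → ℝ) {D : ℝ} {U : Finset ι}
    (hU : D < PP p U) : cc p y D U = 0 := by
  classical
  unfold cc
  apply Finset.sum_eq_zero
  intro S _
  rw [if_neg]
  intro h
  have h1 := one_le_PP hp S
  have h2 := one_le_PP hp U
  nlinarith

variable [Fintype κ]

theorem rough_id {p : ι → ℕ} (hp : ∀ i, 2 ≤ p i) (a : κ → ℤ) (y : Finset ι → ℝ) (hy0 : y ∅ = 1)
    {D : ℝ} (m : κ) (n : ℤ) (hn : ∀ i, ¬ (p i : ℤ) ∣ n - a m) :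
    ∑ σ, Yd p y D σ * EE p a σ n = ∑ σ, Zm p y D m σ * EE p a σ n := by
  classical
  have hee : ∀ S : Finset ι, ∏ i ∈ S, ee (p i) (n - a m) = 1 / PH p S := by
    intro S
    have h1 : ∀ i ∈ S, ee (p i) (n - a m) = 1 / ((p i : ℝ) - 1) := by
      intro i _
      unfold ee
      rw [if_neg (hn i)]
    rw [Finset.prod_congr rfl h1, PH, Finset.prod_div_distrib]
    simp
  have hL : ∑ σ, Yd p y D σ * EE p a σ n =
      ∑ σ : ι → Option κ, (fun (s : ι → Option κ) (S : Finset ι) =>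
        if PP p S * PP p (supp s) ≤ D then y S * Yt y s * (1 / PH p S * EE p a s n) else 0)
          (era σ m) (cell σ m) := by
    apply Finset.sum_congr rfl
    intro σ _
    unfold Yd
    simp only
    rw [PP_supp_split p σ m]
    by_cases h : PP p (cell σ m) * PP p (supp (era σ m)) ≤ D
    · rw [if_pos h, if_pos h, Yt_split y hy0 σ m, EE_split p a σ m n, hee]
    · rw [if_neg h, if_neg h, zero_mul]
  rw [hL]
  refine (decomp m (fun (s : ι → Option κ) (S : Finset ι) =>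
        if PP p S * PP p (supp s) ≤ D then y S * Yt y s * (1 / PH p S * EE p a s n) else 0)).trans ?_
  rw [Finset.sum_filter]
  apply Finset.sum_congr rfl
  intro σ _
  unfold Zm
  by_cases hc : cell σ m = ∅
  · rw [if_pos hc, if_pos hc]
    unfold cc
    rw [Finset.mul_sum, Finset.sum_mul]
    apply Finset.sum_congr rfl
    intro S _
    by_cases h : PP p S * PP p (supp σ) ≤ D
    · simp only [if_pos h]
      ring
    · simp only [if_neg h]
      ring
  · rw [if_neg hc, if_neg hc, zero_mul]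

theorem Zm_supp {p : ι → ℕ} (hp : ∀ i, 2 ≤ p i) (y : Finset ι → ℝ) {D : ℝ}
    (m : κ) (σ : ι → Option κ) (h : Zm p y D m σ ≠ 0) : PP p (supp σ) ≤ D := by
  classical
  by_contra hcon
  apply h
  unfold Zm
  rw [cc_eq_zero hp y (lt_of_not_ge hcon)]
  simp

theorem Zm_abs {p : ι → ℕ} (y : Finset ι → ℝ) (hy1 : ∀ S, |y S| ≤ 1)
    {D : ℝ} (hc1 : ∀ U, |cc p y D U| ≤ 1) (m : κ) (σ : ι → Option κ) :
    |Zm p y D m σ| ≤ 1 := by
  classical
  unfold Zm
  by_cases hc : cell σ m = ∅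
  · rw [if_pos hc, abs_mul]
    have h1 : |Yt y σ| ≤ 1 := by
      unfold Yt
      rw [Finset.abs_prod]
      apply Finset.prod_le_one
      · intro j _; exact abs_nonneg _
      · intro j _; exact hy1 _
    exact mul_le_one₀ h1 (abs_nonneg _) (hc1 _)
  · rw [if_neg hc]; simp

open Classical in
theorem Zm_sum {p : ι → ℕ} (hp : ∀ i, 2 ≤ p i) (y : Finset ι → ℝ) {D D2 δ τ : ℝ}
    (hc1 : ∀ U, |cc p y D U| ≤ 1) (hc2 : ∀ U, PP p U ≤ D2 → |cc p y D U| ≤ δ)
    (htail : ∑ σ ∈ (univ : Finset (ι → Option κ)).filter (fun σ => D2 < PP p (supp σ)),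
        Yd p y D σ ^ 2 / PH p (supp σ) ≤
      τ * ∑ σ : ι → Option κ, Yd p y D σ ^ 2 / PH p (supp σ)) (m : κ) :
    ∑ σ, Zm p y D m σ ^ 2 / PH p (supp σ) ≤
      (δ ^ 2 + τ) * ∑ σ : ι → Option κ, Yd p y D σ ^ 2 / PH p (supp σ) := by
  have hPH : ∀ σ : ι → Option κ, 0 < PH p (supp σ) := fun σ =>
    lt_of_lt_of_le one_pos (one_le_PH hp _)
  have key : ∀ σ : ι → Option κ, Zm p y D m σ ^ 2 ≤ Yd p y D σ ^ 2 * cc p y D (supp σ) ^ 2 := by
    intro σ
    unfold Zm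
    by_cases hc : cell σ m = ∅
    · rw [if_pos hc]
      by_cases hD : PP p (supp σ) ≤ D
      · unfold Yd
        rw [if_pos hD, mul_pow]
      · rw [cc_eq_zero hp y (lt_of_not_ge hD)]
        simp
    · rw [if_neg hc]
      have h0 : 0 ≤ Yd p y D σ ^ 2 * cc p y D (supp σ) ^ 2 :=
        mul_nonneg (sq_nonneg _) (sq_nonneg _)
      simpa using h0
  have hterm : ∀ σ : ι → Option κ, Zm p y D m σ ^ 2 / PH p (supp σ) ≤
      δ ^ 2 * (Yd p y D σ ^ 2 / PH p (supp σ)) +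
        (if D2 < PP p (supp σ) then Yd p y D σ ^ 2 / PH p (supp σ) else 0) := by
    intro σ
    have hq : 0 ≤ Yd p y D σ ^ 2 / PH p (supp σ) := div_nonneg (sq_nonneg _) (hPH σ).le
    have h1 : Zm p y D m σ ^ 2 / PH p (supp σ) ≤
        (Yd p y D σ ^ 2 / PH p (supp σ)) * cc p y D (supp σ) ^ 2 := by
      rw [div_mul_eq_mul_div]
      exact div_le_div_of_nonneg_right (key σ) (hPH σ).le
    by_cases h : D2 < PP p (supp σ)
    · rw [if_pos h]
      have h2 : cc p y D (supp σ) ^ 2 ≤ 1 := by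
        have := hc1 (supp σ)
        rw [← sq_abs]
        exact pow_le_one₀ (abs_nonneg _) this
      have h3 : (Yd p y D σ ^ 2 / PH p (supp σ)) * cc p y D (supp σ) ^ 2 ≤
          Yd p y D σ ^ 2 / PH p (supp σ) := mul_le_of_le_one_right hq h2
      have h4 : 0 ≤ δ ^ 2 * (Yd p y D σ ^ 2 / PH p (supp σ)) := mul_nonneg (sq_nonneg _) hq
      linarith
    · rw [if_neg h]
      have h2 : cc p y D (supp σ) ^ 2 ≤ δ ^ 2 := by
        have := hc2 (supp σ) (not_lt.mp h)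
        rw [← sq_abs]
        exact pow_le_pow_left₀ (abs_nonneg _) this 2
      have h3 : (Yd p y D σ ^ 2 / PH p (supp σ)) * cc p y D (supp σ) ^ 2 ≤
          (Yd p y D σ ^ 2 / PH p (supp σ)) * δ ^ 2 := mul_le_mul_of_nonneg_left h2 hq
      linarith
  calc ∑ σ, Zm p y D m σ ^ 2 / PH p (supp σ) ≤
      ∑ σ : ι → Option κ, (δ ^ 2 * (Yd p y D σ ^ 2 / PH p (supp σ)) +
        (if D2 < PP p (supp σ) then Yd p y D σ ^ 2 / PH p (supp σ) else 0)) :=
        Finset.sum_le_sum (fun σ _ => hterm σ)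
    _ = δ ^ 2 * ∑ σ : ι → Option κ, Yd p y D σ ^ 2 / PH p (supp σ) +
        ∑ σ ∈ (univ : Finset (ι → Option κ)).filter (fun σ => D2 < PP p (supp σ)),
          Yd p y D σ ^ 2 / PH p (supp σ) := by
        rw [Finset.sum_add_distrib, ← Finset.mul_sum, Finset.sum_filter]
    _ ≤ δ ^ 2 * ∑ σ : ι → Option κ, Yd p y D σ ^ 2 / PH p (supp σ) +
        τ * ∑ σ : ι → Option κ, Yd p y D σ ^ 2 / PH p (supp σ) := by
        gcongr
    _ = _ := by ring

end Pool.Agent.RS
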