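import Mathlib

/-! RS: repelling sieve weights. Basic definitions.
`ι` indexes a finite set of pairwise coprime moduli `p i` (primes), `κ` indexes the finite set of
integers `a j` to be killed.  An assignment is `σ : ι → Option κ`. -/

namespace Pool.Agent.RS

open Finset

variable {ι κ : Type} [Fintype ι] [DecidableEq ι] [DecidableEq κ]

/-- support of an assignment -/
def supp (σ : ι → Option κ) : Finset ι := univ.filter (fun i => σ i ≠ none)

/-- the cell of `j` -/
def cell (σ : ι → Option κ) (j : κ) : Finset ι := univ.filter (fun i => σ i = some j)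

/-- erase `j` from an assignment -/
def era (σ : ι → Option κ) (j : κ) : ι → Option κ := fun i => if σ i = some j then none else σ i

/-- put `j` on the set `S` -/
def put (σ : ι → Option κ) (S : Finset ι) (j : κ) : ι → Option κ :=
  fun i => if i ∈ S then some j else σ i

/-- product of the moduli over `S` -/
noncomputable def PP (p : ι → ℕ) (S : Finset ι) : ℝ := ∏ i ∈ S, (p i : ℝ)

/-- product of `p i - 1` over `S` -/
noncomputable def PH (p : ι → ℕ) (S : Finset ι) : ℝ := ∏ i ∈ S, ((p i : ℝ) - 1)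

/-- the local function `e_q(z)`: `-1` if `q ∣ z`, `1/(q-1)` otherwise -/
noncomputable def ee (q : ℕ) (z : ℤ) : ℝ :=
  open Classical in if (q : ℤ) ∣ z then -1 else 1 / ((q : ℝ) - 1)

/-- `1` on `none`, `e_q(n - a j)` on `some j` -/
noncomputable def eo (q : ℕ) (a : κ → ℤ) (n : ℤ) : Option κ → ℝ
  | none => 1
  | some j => ee q (n - a j)

/-- `e_σ(n)` -/
noncomputable def EE (p : ι → ℕ) (a : κ → ℤ) (σ : ι → Option κ) (n : ℤ) : ℝ :=
  ∏ i, eo (p i) a n (σ i)

/-- the Gram matrix at `q` -/
noncomputable def GG (q : ℕ) : Option κ → Option κ → ℝ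
  | none, none => 1
  | none, some _ => 0
  | some _, none => 0
  | some i, some j => if i = j then 1 / ((q : ℝ) - 1) else -1 / ((q : ℝ) - 1) ^ 2

section weights

variable [Fintype κ]

/-- the untruncated weight `∏_j y (cell j)` -/
noncomputable def Yt (y : Finset ι → ℝ) (σ : ι → Option κ) : ℝ := ∏ j, y (cell σ j)

/-- the truncated weight -/
noncomputable def Yd (p : ι → ℕ) (y : Finset ι → ℝ) (D : ℝ) (σ : ι → Option κ) : ℝ :=
  open Classical in if PP p (supp σ) ≤ D then Yt y σ else 0

/-- `c(U) = ∑_{S ∩ U = ∅, Π(S) Π(U) ≤ D} y(S)/φ(S)` -/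
noncomputable def cc (p : ι → ℕ) (y : Finset ι → ℝ) (D : ℝ) (U : Finset ι) : ℝ :=
  open Classical in ∑ S ∈ (univ \ U).powerset, if PP p S * PP p U ≤ D then y S / PH p S else 0

/-- coefficients of `F_m` (only assignments avoiding `m`) -/
noncomputable def Zm (p : ι → ℕ) (y : Finset ι → ℝ) (D : ℝ) (m : κ) (σ : ι → Option κ) : ℝ :=
  open Classical in if cell σ m = ∅ then Yt y σ * cc p y D (supp σ) else 0

end weights

/-! ### elementary facts -/

omit [Fintype ι] [DecidableEq ι] in
theorem PP_empty (p : ι → ℕ) : PP p ∅ = 1 := by simp [PP]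

omit [Fintype ι] [DecidableEq ι] in
theorem PH_empty (p : ι → ℕ) : PH p ∅ = 1 := by simp [PH]

omit [DecidableEq ι] [DecidableEq κ] in
theorem mem_supp {σ : ι → Option κ} {i : ι} : i ∈ supp σ ↔ σ i ≠ none := by simp [supp]

omit [DecidableEq ι] in
theorem mem_cell {σ : ι → Option κ} {j : κ} {i : ι} : i ∈ cell σ j ↔ σ i = some j := by simp [cell]

end Pool.Agent.RS
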