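import Pool.Agent.RS.Near
import Pool.Agent.RS.Chern

/-! RS/Abs.  The abstract repelling sieve.

Suppose not: for every `t < T` there is `m` such that no `p i` divides `n0 + M t - a m`.  Put
`g t = ∑_σ Yd σ EE σ (n0+Mt)`, `Fm t = ∑_σ Zm m σ EE σ (n0+Mt)`, `ZZ = ∑ Yd^2/PH ≥ 1` (term
`σ = none`; `D ≥ 1`).  By `rough_id`, `g t ^2 ≤ ∑_m Fm t ^2`.  `near_orth` with level `D` for
both (`Yd` is supported on `PP ≤ D`, `|Yd| ≤ 1` from `hy1`; for `Zm` use `Zm_supp`, `Zm_abs`):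
`4/5 T ZZ - 8 D^6 ≤ ∑_t g^2 ≤ ∑_m ∑_t Fm^2 ≤ 6/5 T ∑_m ∑ Zm^2/PH + k 8 D^6
 ≤ 6/5 T k (δ^2 + τ) ZZ + 8 k D^6 ≤ 3/5 T ZZ + 8 k D^6` by `Zm_sum`.
So `1/5 T ZZ ≤ (k+1) 8 D^6 ≤ T/10`, contradiction as `ZZ ≥ 1`, `T ≥ 1`
(`T > 0` follows from `hT` since `D ≥ 1`). -/

namespace Pool.Agent.RS

open Finset

variable {ι κ : Type} [Fintype ι] [DecidableEq ι] [DecidableEq κ] [Fintype κ]

open Classical in
theorem abstract_sieve {p : ι → ℕ} {M : ℕ} (hp : ∀ i, 2 ≤ p i)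
    (hc : ∀ i j, i ≠ j → Nat.Coprime (p i) (p j)) (hM : ∀ i, Nat.Coprime M (p i)) (n0 : ℤ)
    (a : κ → ℤ) (hd : ∀ i j j', j ≠ j' → ¬ (p i : ℤ) ∣ a j - a j')
    (hk : ∑ i, (Fintype.card κ : ℝ) / (p i : ℝ) ^ 2 ≤ 1 / 2)
    {D D2 δ τ : ℝ} (hD : 1 ≤ D)
    (hN : ∀ S : Finset ι, PP p S ≤ D →
      ∑ i ∈ S, (Fintype.card κ : ℝ) / ((p i : ℝ) - 1) ≤ 1 / 6)
    (y : Finset ι → ℝ) (hy0 : y ∅ = 1) (hy1 : ∀ S, |y S| ≤ 1)
    (hc1 : ∀ U, |cc p y D U| ≤ 1) (hc2 : ∀ U, PP p U ≤ D2 → |cc p y D U| ≤ δ)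
    (htail : ∑ σ ∈ (univ : Finset (ι → Option κ)).filter (fun σ => D2 < PP p (supp σ)),
        Yd p y D σ ^ 2 / PH p (supp σ) ≤
      τ * ∑ σ : ι → Option κ, Yd p y D σ ^ 2 / PH p (supp σ))
    (hnum : (Fintype.card κ : ℝ) * (δ ^ 2 + τ) ≤ 1 / 2)
    {T : ℕ} (hT : ((Fintype.card κ : ℝ) + 1) * (8 * D ^ 6) ≤ T / 10) :
    ∃ t < T, ∀ j, ∃ i, (p i : ℤ) ∣ n0 + M * t - a j := by
  by_contra hcon
  push Not at hcon
  have hPP1 : ∀ S : Finset ι, 1 ≤ PP p S := one_le_PP hp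
  have hPH1 : ∀ S : Finset ι, 1 ≤ PH p S := one_le_PH hp
  have hD0 : 0 ≤ D := by linarith
  set ZZ : ℝ := ∑ σ : ι → Option κ, Yd p y D σ ^ 2 / PH p (supp σ) with hZZ
  have hD6 : 1 ≤ D ^ 6 := one_le_pow₀ hD
  have hk0 : (0 : ℝ) ≤ Fintype.card κ := Nat.cast_nonneg _
  have hT0 : (0 : ℝ) < T := by
    have h1 : (0 : ℝ) < ((Fintype.card κ : ℝ) + 1) * (8 * D ^ 6) := by positivity
    linarith
  -- the trivial assignment
  have hs0 : supp (fun _ : ι => (none : Option κ)) = ∅ := by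
    ext i
    simp [mem_supp]
  have hc0 : ∀ j : κ, cell (fun _ : ι => (none : Option κ)) j = ∅ := by
    intro j
    ext i
    simp [mem_cell]
  have hYd0 : Yd p y D (fun _ : ι => (none : Option κ)) = 1 := by
    unfold Yd
    rw [hs0, PP_empty, if_pos hD]
    unfold Yt
    simp only [hc0, hy0, Finset.prod_const_one]
  have hZZ1 : 1 ≤ ZZ := by
    have h1 : Yd p y D (fun _ : ι => (none : Option κ)) ^ 2 /
        PH p (supp (fun _ : ι => (none : Option κ))) ≤ ZZ := by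
      rw [hZZ]
      exact Finset.single_le_sum
        (f := fun σ : ι → Option κ => Yd p y D σ ^ 2 / PH p (supp σ))
        (fun σ _ => div_nonneg (sq_nonneg _) (by linarith [hPH1 (supp σ)])) (Finset.mem_univ _)
    rw [hYd0, hs0, PH_empty] at h1
    linarith
  have hYt1 : ∀ σ : ι → Option κ, |Yt y σ| ≤ 1 := by
    intro σ
    unfold Yt
    rw [Finset.abs_prod]
    exact Finset.prod_le_one (fun j _ => abs_nonneg _) (fun j _ => hy1 _)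
  have hYd1 : ∀ σ : ι → Option κ, |Yd p y D σ| ≤ 1 := by
    intro σ
    unfold Yd
    split_ifs
    · exact hYt1 σ
    · simp
  have hYds : ∀ σ : ι → Option κ, Yd p y D σ ≠ 0 → PP p (supp σ) ≤ D := by
    intro σ h
    unfold Yd at h
    by_contra h2
    rw [if_neg h2] at h
    exact h rfl
  have hA := near_orth hp hc hM n0 a hd hk hD0 hN (Yd p y D) hYd1 hYds T
  have hB : ∀ m : κ, _ := fun m => near_orth hp hc hM n0 a hd hk hD0 hN (Zm p y D m)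
    (Zm_abs y hy1 hc1 m) (Zm_supp hp y m) T
  have hZs := fun m : κ => Zm_sum hp y hc1 hc2 htail m
  rw [← hZZ] at hA
  have hpt : ∀ t ∈ range T, (∑ σ, Yd p y D σ * EE p a σ (n0 + M * t)) ^ 2 ≤
      ∑ m : κ, (∑ σ, Zm p y D m σ * EE p a σ (n0 + M * t)) ^ 2 := by
    intro t ht
    obtain ⟨m, hm⟩ := hcon t (Finset.mem_range.mp ht)
    rw [rough_id hp a y hy0 m (n0 + M * t) hm]
    exact Finset.single_le_sum
      (f := fun m : κ => (∑ σ, Zm p y D m σ * EE p a σ (n0 + M * t)) ^ 2)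
      (fun m _ => sq_nonneg _) (Finset.mem_univ m)
  have hsum : ∑ t ∈ range T, (∑ σ, Yd p y D σ * EE p a σ (n0 + M * t)) ^ 2 ≤
      ∑ m : κ, ∑ t ∈ range T, (∑ σ, Zm p y D m σ * EE p a σ (n0 + M * t)) ^ 2 := by
    rw [Finset.sum_comm]
    exact Finset.sum_le_sum hpt
  have hm : ∀ m ∈ (univ : Finset κ),
      ∑ t ∈ range T, (∑ σ, Zm p y D m σ * EE p a σ (n0 + M * t)) ^ 2 ≤
        6 / 5 * (T * ((δ ^ 2 + τ) * ZZ)) + 8 * D ^ 6 := by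
    intro m _
    have h1 := (abs_le.mp (hB m)).2
    have h2 := hZs m
    rw [← hZZ] at h2
    have h3 : (T : ℝ) * ∑ σ, Zm p y D m σ ^ 2 / PH p (supp σ) ≤ T * ((δ ^ 2 + τ) * ZZ) :=
      mul_le_mul_of_nonneg_left h2 hT0.le
    linarith
  have hm2 := Finset.sum_le_sum hm
  rw [Finset.sum_const, Finset.card_univ, nsmul_eq_mul] at hm2
  have h1 := (abs_le.mp hA).1
  have h4 : (Fintype.card κ : ℝ) * (6 / 5 * (T * ((δ ^ 2 + τ) * ZZ)) + 8 * D ^ 6) =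
      6 / 5 * (T * ZZ * ((Fintype.card κ : ℝ) * (δ ^ 2 + τ))) +
        (Fintype.card κ : ℝ) * (8 * D ^ 6) := by ring
  have h5 : (T * ZZ : ℝ) * ((Fintype.card κ : ℝ) * (δ ^ 2 + τ)) ≤ T * ZZ * (1 / 2) :=
    mul_le_mul_of_nonneg_left hnum (by positivity)
  have h6 : (T : ℝ) ≤ T * ZZ := le_mul_of_one_le_right hT0.le hZZ1
  rw [h4] at hm2
  have h7 : ((Fintype.card κ : ℝ) + 1) * (8 * D ^ 6) =
      (Fintype.card κ : ℝ) * (8 * D ^ 6) + 8 * D ^ 6 := by ring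
  rw [h7] at hT
  linarith

end Pool.Agent.RS
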