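import Pool.Agent.RS.Abs
import Pool.Agent.RS.Wt

/-! RS/Abs2.  The repelling sieve with the concrete weights: `abstract_sieve` with `y = wt p S1`,
`D2 = D / S1`, `lam = 1/log S1`, `θ = 2/(H1 log S1)`, `δ = 1/(3k)` (from `cc_wt_small` and
`hN`: `∑_{i∈U} 2/(p i - 1) ≤ (2/k) (1/6)`), `τ = exp(-(log D)/(2 log S1))` (`tail`):
`D2^(-lam) exp(θ k) = exp((2k/H1 - log D + log S1)/log S1) ≤ exp(-(log D)/(2 log S1))`.
`k (δ^2 + τ) ≤ 1/(9 k) + 1/3 ≤ 1/2` for `k ≥ 1` (for `k = 0`: `κ` is empty, take `t = 0`). -/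

namespace Pool.Agent.RS

open Finset

variable {ι κ : Type} [Fintype ι] [DecidableEq ι] [DecidableEq κ] [Fintype κ]

theorem sieve2 {p : ι → ℕ} {M : ℕ} (hp : ∀ i, 2 ≤ p i)
    (hc : ∀ i j, i ≠ j → Nat.Coprime (p i) (p j)) (hM : ∀ i, Nat.Coprime M (p i)) (n0 : ℤ)
    (a : κ → ℤ) (hd : ∀ i j j', j ≠ j' → ¬ (p i : ℤ) ∣ a j - a j')
    (hk : ∑ i, (Fintype.card κ : ℝ) / (p i : ℝ) ^ 2 ≤ 1 / 2)
    {D S1 : ℝ} (hS1 : 1 < S1) (hD : 1 ≤ D)
    (hN : ∀ S : Finset ι, PP p S ≤ D →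
      ∑ i ∈ S, (Fintype.card κ : ℝ) / ((p i : ℝ) - 1) ≤ 1 / 6)
    (hH0 : 0 < H1 p S1) (hH : ∀ i, 1 ≤ H1 p S1 * Real.log (p i))
    (hHk : 2 * (Fintype.card κ : ℝ) / H1 p S1 ≤ Real.log D / 4)
    (hS1D : Real.log S1 ≤ Real.log D / 4)
    (hnum : (Fintype.card κ : ℝ) * Real.exp (-(Real.log D / (2 * Real.log S1))) ≤ 1 / 3)
    {T : ℕ} (hT : ((Fintype.card κ : ℝ) + 1) * (8 * D ^ 6) ≤ T / 10) :
    ∃ t < T, ∀ j, ∃ i, (p i : ℤ) ∣ n0 + M * t - a j := by
  classical
  have hlS : 0 < Real.log S1 := Real.log_pos hS1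
  have hS10 : (0 : ℝ) < S1 := by linarith
  have hD0 : (0 : ℝ) < D := by linarith
  rcases Nat.eq_zero_or_pos (Fintype.card κ) with h0 | hkpos
  · have hE : IsEmpty κ := Fintype.card_eq_zero_iff.1 h0
    refine ⟨0, ?_, fun j => hE.elim j⟩
    have h1 : (1 : ℝ) ≤ D ^ 6 := one_le_pow₀ hD
    rw [h0] at hT
    have h2 : (0 : ℝ) < (T : ℝ) := by
      have : ((0 : ℕ) : ℝ) = 0 := by norm_num
      rw [this] at hT
      linarith
    exact_mod_cast h2
  · have hk1 : (1 : ℝ) ≤ (Fintype.card κ : ℝ) := by exact_mod_cast hkpos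
    have hk0 : (0 : ℝ) < (Fintype.card κ : ℝ) := by linarith
    have hD2 : (0 : ℝ) < D / S1 := div_pos hD0 hS10
    have hlam : (0 : ℝ) ≤ 1 / Real.log S1 := by positivity
    have hθ0 : (0 : ℝ) ≤ 2 / (H1 p S1 * Real.log S1) := by positivity
    have htail := tail (κ := κ) hp (wt p S1) (wt_empty p S1) (D := D) (D2 := D / S1) hD2 hlam hθ0
      (wt_theta hp hS1 hH0)
    have hDS : D / S1 ≤ D := div_le_self hD0.le hS1.le
    have hτ : (D / S1) ^ (-(1 / Real.log S1)) *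
        Real.exp (2 / (H1 p S1 * Real.log S1) * (Fintype.card κ : ℝ)) ≤
        Real.exp (-(Real.log D / (2 * Real.log S1))) := by
      rw [Real.rpow_def_of_pos hD2, ← Real.exp_add, Real.log_div hD0.ne' hS10.ne']
      apply Real.exp_le_exp.2
      have e1 : (Real.log D - Real.log S1) * (-(1 / Real.log S1)) +
          2 / (H1 p S1 * Real.log S1) * (Fintype.card κ : ℝ) =
          (2 * (Fintype.card κ : ℝ) / H1 p S1 - Real.log D + Real.log S1) / Real.log S1 := by
        field_simp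
        ring
      have e2 : -(Real.log D / (2 * Real.log S1)) = (-(Real.log D / 2)) / Real.log S1 := by
        field_simp
      rw [e1, e2]
      apply div_le_div_of_nonneg_right _ hlS.le
      linarith
    refine abstract_sieve hp hc hM n0 a hd hk (D := D) (D2 := D / S1)
      (δ := 1 / (3 * (Fintype.card κ : ℝ)))
      (τ := (D / S1) ^ (-(1 / Real.log S1)) *
        Real.exp (2 / (H1 p S1 * Real.log S1) * (Fintype.card κ : ℝ)))
      hD hN (wt p S1) (wt_empty p S1) (wt_abs hp hH) (cc_wt_abs hp hH0) ?_ ?_ ?_ hT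
    · intro U hU
      have h1 : PP p U * S1 ≤ D := by
        have := mul_le_mul_of_nonneg_right hU hS10.le
        rwa [div_mul_cancel₀ _ hS10.ne'] at this
      refine (cc_wt_small hp hH0 hH U h1).trans ?_
      have h2 := hN U (hU.trans hDS)
      have h3 : ∑ i ∈ U, 2 / ((p i : ℝ) - 1) =
          2 / (Fintype.card κ : ℝ) * ∑ i ∈ U, (Fintype.card κ : ℝ) / ((p i : ℝ) - 1) := by
        rw [Finset.mul_sum]
        refine Finset.sum_congr rfl fun i _ => ?_
        have hp1 : ((p i : ℝ) - 1) ≠ 0 := by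
          have : (2 : ℝ) ≤ (p i : ℝ) := by exact_mod_cast hp i
          linarith
        field_simp
      rw [h3]
      have h4 : 2 / (Fintype.card κ : ℝ) * (1 / 6) = 1 / (3 * (Fintype.card κ : ℝ)) := by
        field_simp
        norm_num
      rw [← h4]
      exact mul_le_mul_of_nonneg_left h2 (by positivity)
    · exact htail
    · have h1 : (Fintype.card κ : ℝ) * (1 / (3 * (Fintype.card κ : ℝ))) ^ 2 ≤ 1 / 9 := by
        have : (Fintype.card κ : ℝ) * (1 / (3 * (Fintype.card κ : ℝ))) ^ 2 =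
            1 / (9 * (Fintype.card κ : ℝ)) := by
          field_simp
          norm_num
        rw [this]
        apply div_le_div_of_nonneg_left (by norm_num) (by norm_num)
        linarith
      have h2 : (Fintype.card κ : ℝ) * ((D / S1) ^ (-(1 / Real.log S1)) *
          Real.exp (2 / (H1 p S1 * Real.log S1) * (Fintype.card κ : ℝ))) ≤ 1 / 3 :=
        (mul_le_mul_of_nonneg_left hτ hk0.le).trans hnum
      rw [mul_add]
      linarith

end Pool.Agent.RS
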