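import Pool.Agent.RS.Base
import Pool.Agent.RW.Avg

/-! RS/Avg.  Averages of products of periodic functions with pairwise coprime periods.

Proof plan.  Put `Q = ∏_{i∈S} p i` and `f t = ∏_{i∈S} F i t`.
(1) `f (t + Q) = f t` (each `p i ∣ Q`, iterate `hF`).
(2) `∑_{t<Q} f t = ∏_{i∈S} ∑_{u<p i} F i u`: induction on `S`; for coprime `q, r` and `q`-periodic `g`,
    `r`-periodic `h`: `∑_{t<q*r} g t * h t = (∑_{t<q} g t) (∑_{t<r} h t)` (bijection
    `t ↦ (t % q, t % r)` from `range (q*r)` to `range q ×ˢ range r`, `Nat.chineseRemainder`).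
(3) `∑_{t<T} f = (T / Q) ∑_{t<Q} f + ∑_{t < T % Q} f`, the last sum is at most `Q` in absolute value
    because `|f| ≤ 1`, and `|T - (T/Q) Q| * |average| ≤ Q`. -/

namespace Pool.Agent.RS

open Finset

private theorem per_mod {f : ℕ → ℝ} {q : ℕ} (h : ∀ t, f (t + q) = f t) (t : ℕ) :
    f (t % q) = f t := by
  have h1 : ∀ m s : ℕ, f (s + m * q) = f s := by
    intro m
    induction m with
    | zero => intro s; simp
    | succ m ih =>
      intro s
      rw [Nat.succ_mul, ← add_assoc, h, ih]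
  have h2 := h1 (t / q) (t % q)
  rw [← h2]
  congr 1
  rw [mul_comm]
  exact Nat.mod_add_div t q

private theorem sum_zmod {q : ℕ} [NeZero q] (f : ℕ → ℝ) :
    ∑ x : ZMod q, f x.val = ∑ u ∈ range q, f u := by
  refine sum_bij (fun (y : ZMod q) _ => y.val) ?_ ?_ ?_ ?_
  · intro y _
    exact mem_range.2 (ZMod.val_lt y)
  · intro y _ y' _ h
    exact ZMod.val_injective q h
  · intro t ht
    exact ⟨(t : ZMod q), mem_univ _, ZMod.val_cast_of_lt (mem_range.1 ht)⟩
  · intro y _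
    rfl

theorem avg_prod {ι : Type} [DecidableEq ι] (S : Finset ι) (p : ι → ℕ) (hp : ∀ i ∈ S, 0 < p i)
    (hc : ∀ i ∈ S, ∀ j ∈ S, i ≠ j → Nat.Coprime (p i) (p j)) (F : ι → ℕ → ℝ)
    (hF : ∀ i ∈ S, ∀ t, F i (t + p i) = F i t) (hb : ∀ i ∈ S, ∀ t, |F i t| ≤ 1) (T : ℕ) :
    |∑ t ∈ range T, ∏ i ∈ S, F i t - T * ∏ i ∈ S, ((∑ u ∈ range (p i), F i u) / p i)| ≤
      2 * ∏ i ∈ S, (p i : ℝ) := by
  have ne1 : ∀ i : S, NeZero (p i) := fun i => ⟨(hp i i.2).ne'⟩
  have hQ0 : 0 < ∏ i : S, p i := prod_pos fun i _ => hp i i.2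
  have ne2 : NeZero (∏ i : S, p i) := ⟨hQ0.ne'⟩
  have hcp : Pairwise (Function.onFun Nat.Coprime (fun i : S => p i)) := by
    intro i j hij
    exact hc i i.2 j j.2 (fun h => hij (Subtype.ext h))
  have hcrt := RW.sum_prod_crt (fun i : S => p i) hcp (fun i x => F i x.val)
  have hsub := RW.sum_range_sub (q := ∏ i : S, p i)
    (fun y => ∏ i : S, F i
      (ZMod.castHom (dvd_prod_of_mem (fun i : S => p i) (mem_univ i)) (ZMod (p i)) y).val)
    (by
      intro y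
      rw [abs_prod]
      exact prod_le_one (fun _ _ => abs_nonneg _) fun i _ => hb i i.2 _)
    (M := 1) (Nat.coprime_one_left _) T 0
  rw [hcrt] at hsub
  have e1 : ∑ t ∈ range T, (fun y : ZMod (∏ i : S, p i) => ∏ i : S, F i
      (ZMod.castHom (dvd_prod_of_mem (fun i : S => p i) (mem_univ i)) (ZMod (p i)) y).val)
      ((0 + (1 : ℕ) * (t : ℕ) : ℤ) : ZMod (∏ i : S, p i)) = ∑ t ∈ range T, ∏ i ∈ S, F i t := by
    refine sum_congr rfl fun t _ => ?_
    rw [← prod_coe_sort S]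
    refine prod_congr rfl fun i _ => ?_
    have h0 : (((0 + (1 : ℕ) * (t : ℕ) : ℤ)) : ZMod (∏ i : S, p i)) = (t : ℕ) := by
      push_cast
      ring
    rw [h0, map_natCast, ZMod.val_natCast]
    exact per_mod (hF i i.2) t
  have e2 : ∀ i : S, ∑ x : ZMod (p i), F i x.val = ∑ u ∈ range (p i), F i u := by
    intro i
    exact sum_zmod (F i)
  have e3 : ((T : ℝ) / ((∏ i : S, p i : ℕ) : ℝ)) * ∏ i : S, ∑ x : ZMod (p i), F i x.val =
      T * ∏ i ∈ S, ((∑ u ∈ range (p i), F i u) / p i) := by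
    rw [prod_congr rfl fun i _ => e2 i]
    rw [prod_coe_sort S (fun i => ∑ u ∈ range (p i), F i u)]
    rw [prod_coe_sort S (fun i => p i)]
    rw [prod_div_distrib]
    push_cast
    ring
  have e4 : (((∏ i : S, p i : ℕ)) : ℝ) = ∏ i ∈ S, (p i : ℝ) := by
    rw [prod_coe_sort S (fun i => p i)]
    push_cast
    rfl
  rw [e1, e3, e4] at hsub
  exact hsub

end Pool.Agent.RS
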