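import Pool.Agent.RS.Tot
import Pool.Agent.Helper52.PrimeSums

/-! RS/Prm.  The set of primes used by the sieve and the density of its complement.

`excl L B z` = primes `q ≤ z` with `q ≤ L^6` or `q ∣ b - b'` for some `b ≠ b'` in `B`.
`excl_prod`: `∏_{q ∈ excl} (1 - 1/q) ≥ ∏_{q ≤ 2^(6(lam+1))} (1 - 1/q) * (1 - ∑_{q ∈ excl, q > L^6} 1/q)`
with `lam = Nat.log 2 L`, `L < 2^(lam+1)`; the first factor is `≥ exp(-9)/(6(lam+1))`
(`Helper52.prod_lower`); at most `k^2 (L+1)` primes `q > L^6` divide some `b - b'` (a nonzero integer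
of absolute value `≤ 2^(L+1)` has at most `L+1` prime factors, `k = B.card ≤ L`), so the sum is
`≤ L^2 (L+1) / L^6 ≤ 1/2`. -/

namespace Pool.Agent.RS

open Finset

open Classical in
/-- excluded primes -/
noncomputable def excl (L : ℕ) (B : Finset ℤ) (z : ℕ) : Finset ℕ :=
  (prz z).filter (fun q => q ≤ L ^ 6 ∨ ∃ b ∈ B, ∃ b' ∈ B, b ≠ b' ∧ (q : ℤ) ∣ b - b')

private theorem mem_prz {z q : ℕ} : q ∈ prz z ↔ q ≤ z ∧ q.Prime := by
  unfold prz
  rw [Finset.mem_filter, Finset.mem_Icc]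
  constructor
  · rintro ⟨⟨_, h2⟩, h3⟩
    exact ⟨h2, h3⟩
  · rintro ⟨h2, h3⟩
    exact ⟨⟨h3.pos, h2⟩, h3⟩

private theorem prod_sub_le {s t : Finset ℕ} (h : s ⊆ t) {f : ℕ → ℝ} (h0 : ∀ q ∈ t, 0 ≤ f q)
    (h1 : ∀ q ∈ t, f q ≤ 1) : ∏ q ∈ t, f q ≤ ∏ q ∈ s, f q := by
  rw [← Finset.prod_sdiff h]
  have a1 : ∏ q ∈ t \ s, f q ≤ 1 := by
    apply Finset.prod_le_one
    · intro q hq
      exact h0 q (Finset.mem_sdiff.1 hq).1
    · intro q hq
      exact h1 q (Finset.mem_sdiff.1 hq).1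
  have a2 : 0 ≤ ∏ q ∈ s, f q := Finset.prod_nonneg fun q hq => h0 q (h hq)
  nlinarith

private theorem one_sub_le (s : Finset ℕ) (f : ℕ → ℝ) (h0 : ∀ q ∈ s, 0 ≤ f q)
    (h1 : ∀ q ∈ s, f q ≤ 1) : 1 - ∑ q ∈ s, f q ≤ ∏ q ∈ s, (1 - f q) := by
  induction s using Finset.induction_on with
  | empty => simp
  | insert a s ha ih =>
    rw [Finset.sum_insert ha, Finset.prod_insert ha]
    have e1 := ih (fun q hq => h0 q (Finset.mem_insert_of_mem hq))
      (fun q hq => h1 q (Finset.mem_insert_of_mem hq))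
    have e2 := h0 a (Finset.mem_insert_self a s)
    have e3 := h1 a (Finset.mem_insert_self a s)
    have e4 : 0 ≤ ∑ q ∈ s, f q := Finset.sum_nonneg fun q hq => h0 q (Finset.mem_insert_of_mem hq)
    have e5 : (1 - f a) * (1 - ∑ q ∈ s, f q) ≤ (1 - f a) * ∏ q ∈ s, (1 - f q) :=
      mul_le_mul_of_nonneg_left e1 (by linarith)
    nlinarith [mul_nonneg e2 e4]

private theorem card_pf {n K : ℕ} (hn : n ≠ 0) (h : n ≤ 2 ^ K) : n.primeFactors.card ≤ K := by
  have h1 : 2 ^ n.primeFactors.card ≤ ∏ q ∈ n.primeFactors, q := by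
    apply Finset.pow_card_le_prod
    intro q hq
    exact (Nat.prime_of_mem_primeFactors hq).two_le
  have h2 : ∏ q ∈ n.primeFactors, q ≤ n :=
    Nat.le_of_dvd (Nat.pos_of_ne_zero hn) (Nat.prod_primeFactors_dvd n)
  have h3 := h1.trans (h2.trans h)
  exact (Nat.pow_le_pow_iff_right (by norm_num)).1 h3

open Classical in
private theorem card_big {L : ℕ} {B : Finset ℤ} (hB : ∀ b ∈ B, |b| ≤ 2 ^ L)
    (hk : B.card ≤ L) (z : ℕ) :
    ((prz z).filter (fun q : ℕ => ∃ b ∈ B, ∃ b' ∈ B, b ≠ b' ∧ (q : ℤ) ∣ b - b')).card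
      ≤ L ^ 2 * (L + 1) := by
  have h1 : (prz z).filter (fun q : ℕ => ∃ b ∈ B, ∃ b' ∈ B, b ≠ b' ∧ (q : ℤ) ∣ b - b') ⊆
      ((B ×ˢ B).filter (fun p => p.1 ≠ p.2)).biUnion
        (fun p => (p.1 - p.2).natAbs.primeFactors) := by
    intro q hq
    rw [Finset.mem_filter, mem_prz] at hq
    obtain ⟨⟨_, hp⟩, b, hb, b', hb', hne, hdvd⟩ := hq
    rw [Finset.mem_biUnion]
    refine ⟨(b, b'), ?_, ?_⟩
    · rw [Finset.mem_filter, Finset.mem_product]
      exact ⟨⟨hb, hb'⟩, hne⟩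
    · rw [Nat.mem_primeFactors]
      refine ⟨hp, Int.natCast_dvd.1 hdvd, ?_⟩
      rw [Int.natAbs_ne_zero]
      exact sub_ne_zero.2 hne
  refine (Finset.card_le_card h1).trans ?_
  refine (Finset.card_biUnion_le_card_mul _ _ (L + 1) ?_).trans ?_
  · intro p hp
    rw [Finset.mem_filter, Finset.mem_product] at hp
    obtain ⟨⟨hb, hb'⟩, hne⟩ := hp
    apply card_pf
    · rw [Int.natAbs_ne_zero]
      exact sub_ne_zero.2 hne
    · have e1 : |p.1 - p.2| ≤ 2 ^ (L + 1) := by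
        have := abs_sub p.1 p.2
        have e2 := hB _ hb
        have e3 := hB _ hb'
        have e4 : (2 : ℤ) ^ (L + 1) = 2 ^ L + 2 ^ L := by ring
        omega
      have e5 : ((p.1 - p.2).natAbs : ℤ) ≤ ((2 ^ (L + 1) : ℕ) : ℤ) := by
        rw [Int.natCast_natAbs]
        push_cast
        exact e1
      exact_mod_cast e5
  · apply Nat.mul_le_mul_right
    refine (Finset.card_filter_le _ _).trans ?_
    rw [Finset.card_product]
    have := Nat.mul_le_mul hk hk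
    rw [pow_two]
    exact this

private theorem sum_tail (N : ℕ) (hN : 1 ≤ N) (z : ℕ) :
    ∑ q ∈ (prz z).filter (fun q => N < q), 1 / (q : ℝ) ^ 2 ≤ 1 / (N : ℝ) := by
  have hNr : (0 : ℝ) < N := by exact_mod_cast hN
  have h2 : ∀ m : ℕ, ∑ q ∈ Finset.Ioc N (N + m), 1 / (q : ℝ) ^ 2 ≤ 1 / (N : ℝ) - 1 / ((N : ℝ) + m) := by
    intro m
    induction m with
    | zero => simp
    | succ m ih =>
      rw [show N + (m + 1) = (N + m) + 1 by ring, Finset.sum_Ioc_succ_top (by omega)]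
      have e1 : (0 : ℝ) < (N : ℝ) + m := by positivity
      have e2 : 1 / (((N + m + 1 : ℕ) : ℝ)) ^ 2 ≤ 1 / ((N : ℝ) + m) - 1 / ((N : ℝ) + (m + 1 : ℕ)) := by
        push_cast
        have e3 : 1 / ((N : ℝ) + m) - 1 / ((N : ℝ) + (m + 1)) =
            1 / (((N : ℝ) + m) * ((N : ℝ) + (m + 1))) := by
          field_simp
          ring
        rw [e3]
        apply one_div_le_one_div_of_le (by positivity)
        nlinarith
      linarith
  have h3 : ∑ q ∈ (prz z).filter (fun q => N < q), 1 / (q : ℝ) ^ 2 ≤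
      ∑ q ∈ Finset.Ioc N (N + z), 1 / (q : ℝ) ^ 2 := by
    apply Finset.sum_le_sum_of_subset_of_nonneg
    · intro q hq
      rw [Finset.mem_filter, mem_prz] at hq
      rw [Finset.mem_Ioc]
      omega
    · intro q _ _
      positivity
  have h4 := h2 z
  have h5 : 0 ≤ 1 / ((N : ℝ) + z) := by positivity
  linarith

theorem excl_prod {L : ℕ} (hL : 4 ≤ L) {B : Finset ℤ} (hB : ∀ b ∈ B, |b| ≤ 2 ^ L)
    (hk : B.card ≤ L) (z : ℕ) :
    Real.exp (-9) / (12 * ((Nat.log 2 L : ℝ) + 1)) ≤ ∏ q ∈ excl L B z, (1 - 1 / (q : ℝ)) := by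
  classical
  set lam := Nat.log 2 L with hlam
  have hLr : (4 : ℝ) ≤ L := by exact_mod_cast hL
  have hLlt : L < 2 ^ (lam + 1) := Nat.lt_pow_succ_log_self (by norm_num) L
  have hL6 : L ^ 6 ≤ 2 ^ (6 * (lam + 1)) := by
    rw [mul_comm 6 (lam + 1), pow_mul]
    exact Nat.pow_le_pow_left hLlt.le 6
  set E2 := (prz z).filter (fun q : ℕ => L ^ 6 < q ∧ ∃ b ∈ B, ∃ b' ∈ B, b ≠ b' ∧ (q : ℤ) ∣ b - b')
    with hE2
  set P := Helper52.pr 0 (2 ^ (6 * (lam + 1))) with hP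
  have hfac : ∀ q : ℕ, q.Prime → 0 ≤ 1 / (q : ℝ) ∧ 1 / (q : ℝ) ≤ 1 := by
    intro q hq
    have h1 : (1 : ℝ) ≤ q := by exact_mod_cast hq.one_lt.le
    refine ⟨by positivity, ?_⟩
    rw [div_le_one (by linarith)]
    exact h1
  have hsub : excl L B z ⊆ P ∪ E2 := by
    intro q hq
    unfold excl at hq
    rw [Finset.mem_filter] at hq
    have hq1 := mem_prz.1 hq.1
    rw [Finset.mem_union, hE2, Finset.mem_filter, hP, Helper52.mem_pr]
    by_cases h : q ≤ L ^ 6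
    · exact Or.inl ⟨hq1.2.pos, h.trans hL6, hq1.2⟩
    · rcases hq.2 with h' | h'
      · exact absurd h' h
      · exact Or.inr ⟨hq.1, by omega, h'⟩
  have hpr : ∀ q ∈ P ∪ E2, q.Prime := by
    intro q hq
    rw [Finset.mem_union, hE2, Finset.mem_filter, hP, Helper52.mem_pr, mem_prz] at hq
    rcases hq with h | h
    · exact h.2.2
    · exact h.1.2
  have h1 : ∏ q ∈ P ∪ E2, (1 - 1 / (q : ℝ)) ≤ ∏ q ∈ excl L B z, (1 - 1 / (q : ℝ)) := by
    apply prod_sub_le hsub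
    · intro q hq
      have := hfac q (hpr q hq)
      linarith [this.2]
    · intro q hq
      have := hfac q (hpr q hq)
      linarith [this.1]
  refine le_trans ?_ h1
  have h2 : (∏ q ∈ P, (1 - 1 / (q : ℝ))) * ∏ q ∈ E2, (1 - 1 / (q : ℝ)) ≤
      ∏ q ∈ P ∪ E2, (1 - 1 / (q : ℝ)) := by
    rw [← Finset.prod_union_inter]
    have h3 : ∏ q ∈ P ∩ E2, (1 - 1 / (q : ℝ)) ≤ 1 := by
      apply Finset.prod_le_one
      · intro q hq
        have := hfac q (hpr q (Finset.mem_union_left _ (Finset.mem_inter.1 hq).1))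
        linarith [this.2]
      · intro q hq
        have := hfac q (hpr q (Finset.mem_union_left _ (Finset.mem_inter.1 hq).1))
        linarith [this.1]
    have h4 : 0 ≤ ∏ q ∈ P ∪ E2, (1 - 1 / (q : ℝ)) := by
      apply Finset.prod_nonneg
      intro q hq
      have := hfac q (hpr q hq)
      linarith [this.2]
    nlinarith
  refine le_trans ?_ h2
  have h5 := Helper52.prod_lower (a := 6 * (lam + 1)) (by omega)
  have h6 : (1 : ℝ) / 2 ≤ ∏ q ∈ E2, (1 - 1 / (q : ℝ)) := by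
    have a1 := one_sub_le E2 (fun q => 1 / (q : ℝ))
      (fun q hq => (hfac q (hpr q (Finset.mem_union_right _ hq))).1)
      (fun q hq => (hfac q (hpr q (Finset.mem_union_right _ hq))).2)
    refine le_trans ?_ a1
    have a2 : ∑ q ∈ E2, 1 / (q : ℝ) ≤ ∑ _q ∈ E2, 1 / (L : ℝ) ^ 6 := by
      apply Finset.sum_le_sum
      intro q hq
      rw [hE2, Finset.mem_filter] at hq
      apply one_div_le_one_div_of_le (by positivity)
      exact_mod_cast hq.2.1.le
    have a3 : (E2.card : ℝ) ≤ (L : ℝ) ^ 2 * (L + 1) := by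
      have b1 : E2.card ≤ L ^ 2 * (L + 1) := by
        refine le_trans (Finset.card_le_card ?_) (card_big hB hk z)
        intro q hq
        rw [hE2, Finset.mem_filter] at hq
        rw [Finset.mem_filter]
        exact ⟨hq.1, hq.2.2⟩
      exact_mod_cast b1
    rw [Finset.sum_const, nsmul_eq_mul] at a2
    have a4 : (E2.card : ℝ) * (1 / (L : ℝ) ^ 6) ≤ (L : ℝ) ^ 2 * (L + 1) * (1 / (L : ℝ) ^ 6) :=
      mul_le_mul_of_nonneg_right a3 (by positivity)
    have a5 : (L : ℝ) ^ 2 * (L + 1) * (1 / (L : ℝ) ^ 6) ≤ 1 / 2 := by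
      rw [mul_one_div, div_le_div_iff₀ (by positivity) (by norm_num)]
      have c1 : (64 : ℝ) ≤ (L : ℝ) ^ 3 := by
        have := pow_le_pow_left₀ (by norm_num) hLr 3
        linarith
      have c2 : (L : ℝ) ^ 2 * (L + 1) * 2 ≤ 4 * (L : ℝ) ^ 3 := by
        nlinarith [sq_nonneg (L : ℝ)]
      have c3 : (L : ℝ) ^ 6 = (L : ℝ) ^ 3 * (L : ℝ) ^ 3 := by ring
      rw [c3]
      nlinarith
    linarith
  have h7 : (0 : ℝ) < (lam : ℝ) + 1 := by positivity
  have h8 : Real.exp (-9) / (12 * ((lam : ℝ) + 1)) =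
      Real.exp (-9) / ((6 * (lam + 1) : ℕ) : ℝ) * (1 / 2) := by
    push_cast
    field_simp
    ring
  rw [h8]
  have h9 : 0 ≤ Real.exp (-9) / ((6 * (lam + 1) : ℕ) : ℝ) := by positivity
  exact mul_le_mul h5 h6 (by norm_num) (le_trans h9 h5)

theorem sum_inv_sq {L : ℕ} (hL : 4 ≤ L) (B : Finset ℤ) (z : ℕ) :
    ∑ q ∈ prz z \ excl L B z, 1 / (q : ℝ) ^ 2 ≤ 1 / (L : ℝ) ^ 6 := by
  classical
  have hLp : 0 < L := by omega
  have hN : 1 ≤ L ^ 6 := Nat.one_le_iff_ne_zero.2 (by positivity)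
  have h := sum_tail (L ^ 6) hN z
  push_cast at h
  refine le_trans ?_ h
  apply Finset.sum_le_sum_of_subset_of_nonneg
  · intro q hq
    rw [Finset.mem_sdiff] at hq
    rw [Finset.mem_filter]
    refine ⟨hq.1, ?_⟩
    by_contra hc
    apply hq.2
    unfold excl
    rw [Finset.mem_filter]
    exact ⟨hq.1, Or.inl (by omega)⟩
  · intro q _ _
    positivity

end Pool.Agent.RS
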