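import Pool.Agent.RS.Abs2
import Pool.Agent.RS.Prm

/-! RS/Core.  The core theorem: at most `c L` integers can be killed by primes in `(L^6, 2^(L/48)]`,
inside any residue class modulo `M` (all of whose prime factors are `≤ L^6`), `L ~ log x`.

Parameters.  `lam = Nat.log 2 L`, `d = L / 48`, `z = 2^d`, `D = 2^d`, `s = d / (4 * lam)`,
`S1 = 2^s`, `Q = prz z \ excl L B z`, `ι = {q // q ∈ Q}`, `p = coe`, `κ = {b // b ∈ B}`, `a = coe`,
`V = exp(-9)/(12 (lam+1))`, `J = lam / 2`, `h0 = exp(-9)/400`. -/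

namespace Pool.Agent.RS

open Finset

private theorem grow (C : ℝ) : ∃ m0 : ℕ, ∀ m : ℕ, m0 ≤ m → C * ((m : ℝ) + 1) ^ 2 ≤ 2 ^ m := by
  have h := tendsto_pow_const_div_const_pow_of_one_lt 2 (r := (2 : ℝ)) (by norm_num)
  have h2 : Filter.Tendsto (fun m : ℕ => |C| * 2 * (((m + 1 : ℕ) : ℝ) ^ 2 / 2 ^ (m + 1)))
      Filter.atTop (nhds (|C| * 2 * 0)) :=
    Filter.Tendsto.const_mul _ ((Filter.tendsto_add_atTop_iff_nat 1).2 h)
  rw [mul_zero] at h2
  obtain ⟨m0, hm0⟩ := Filter.eventually_atTop.1 (h2.eventually_le_const (show (0 : ℝ) < 1 by norm_num))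
  refine ⟨m0, fun m hm => ?_⟩
  have h3 := hm0 m hm
  have h4 : (0 : ℝ) < 2 ^ m := by positivity
  have h5 : |C| * ((m : ℝ) + 1) ^ 2 / 2 ^ m ≤ 1 := by
    refine le_trans (le_of_eq ?_) h3
    push_cast
    field_simp
    ring
  rw [div_le_one h4] at h5
  have h6 : C * ((m : ℝ) + 1) ^ 2 ≤ |C| * ((m : ℝ) + 1) ^ 2 :=
    mul_le_mul_of_nonneg_right (le_abs_self C) (by positivity)
  linarith

/-- arithmetic of the parameters -/
private theorem params : ∃ L0 : ℕ, ∀ L : ℕ, L0 ≤ L →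
    10 ≤ Nat.log 2 L ∧ 1000 * Real.exp 9 ≤ (Nat.log 2 L : ℝ) ∧
    (2 : ℝ) ^ (Nat.log 2 L / 2) / (Real.exp (-9) / (12 * ((Nat.log 2 L : ℝ) + 1))) ≤
      ((L / 48 / (4 * Nat.log 2 L) : ℕ) : ℝ) * Real.log 2 ∧
    (L : ℝ) ≤ 49 * ((L / 48 : ℕ) : ℝ) ∧
    ((L : ℝ) + 1) * (8 * ((2 : ℝ) ^ (L / 48)) ^ 6) ≤ (2 : ℝ) ^ (L / 3) / 10 := by
  obtain ⟨m1, hm1⟩ := grow (12 * Real.exp 9 * 192 * 2 * 8)
  obtain ⟨m2, hm2⟩ := grow (8 * 8 * 10)
  obtain ⟨m3, hm3⟩ := exists_nat_ge (1000 * Real.exp 9)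
  refine ⟨2 ^ (2 * m1 + m3 + 12) + 8 * m2 + 48 * 49, fun L hL => ?_⟩
  set lam := Nat.log 2 L with hlam
  have hpp : 0 < 2 ^ (2 * m1 + m3 + 12) := by positivity
  have hL2 : 2 ^ (2 * m1 + m3 + 12) ≤ L := by omega
  have hL2' : 8 * m2 + 48 * 49 ≤ L := by omega
  have hlam0 : 2 * m1 + m3 + 12 ≤ lam := Nat.le_log_of_pow_le (by norm_num) hL2
  have hLpos : L ≠ 0 := by
    have : 0 < 2 ^ (2 * m1 + m3 + 12) := by positivity
    omega
  have hpow : 2 ^ lam ≤ L := Nat.pow_log_le_self 2 hLpos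
  refine ⟨by omega, ?_, ?_, ?_, ?_⟩
  · have : (m3 : ℝ) ≤ (lam : ℝ) := by exact_mod_cast (by omega : m3 ≤ lam)
    linarith
  · -- main inequality
    set J := lam / 2 with hJ
    have hJ1 : m1 ≤ J := by omega
    have hJ2 : lam ≤ 2 * J + 1 := by omega
    have h1 := hm1 J hJ1
    have hlamr : (lam : ℝ) + 1 ≤ 2 * ((J : ℝ) + 1) := by
      have : (lam : ℝ) ≤ 2 * J + 1 := by exact_mod_cast hJ2
      linarith
    have hlam1 : (1 : ℝ) ≤ lam := by exact_mod_cast (by omega : 1 ≤ lam)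
    have hJpos : (0 : ℝ) ≤ (J : ℝ) := Nat.cast_nonneg _
    have he9 : (1 : ℝ) ≤ Real.exp 9 := Real.one_le_exp (by norm_num)
    -- lower bound of s
    have hs : (L : ℝ) ≤ 192 * lam * (((L / 48 / (4 * lam) : ℕ) : ℝ) + 2) := by
      have ha : L < 48 * (L / 48) + 48 := by omega
      have hb : L / 48 < 4 * lam * (L / 48 / (4 * lam)) + 4 * lam := by
        have := Nat.lt_mul_div_succ (L / 48) (show 0 < 4 * lam by omega)
        calc L / 48 < 4 * lam * (L / 48 / (4 * lam) + 1) := this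
          _ = _ := by ring
      have hc : L ≤ 192 * lam * (L / 48 / (4 * lam) + 2) := by
        have h48 : 48 * (L / 48) ≤ 48 * (4 * lam * (L / 48 / (4 * lam)) + 4 * lam) := by omega
        have : 48 ≤ 192 * lam := by omega
        calc L ≤ 48 * (L / 48) + 48 := by omega
          _ ≤ 48 * (4 * lam * (L / 48 / (4 * lam)) + 4 * lam) + 192 * lam := by omega
          _ = _ := by ring
      exact_mod_cast hc
    have hL3 : (2 : ℝ) ^ J * 2 ^ J ≤ L := by
      have h2 : 2 ^ J * 2 ^ J ≤ 2 ^ lam := by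
        rw [← pow_add]
        exact Nat.pow_le_pow_right (by norm_num) (by omega)
      exact_mod_cast h2.trans hpow
    have hlog2 : (1 / 2 : ℝ) ≤ Real.log 2 := by
      have := Real.log_two_gt_d9
      linarith
    have hlog2' : Real.log 2 ≤ 1 := by
      have := Real.log_two_lt_d9
      linarith
    have hdiv : (2 : ℝ) ^ J / (Real.exp (-9) / (12 * ((lam : ℝ) + 1))) =
        2 ^ J * (12 * (lam + 1) * Real.exp 9) := by
      rw [Real.exp_neg]
      have : Real.exp 9 ≠ 0 := (Real.exp_pos 9).ne'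
      field_simp
    rw [hdiv]
    set s : ℝ := ((L / 48 / (4 * lam) : ℕ) : ℝ) with hsdef
    set E := Real.exp 9
    set P : ℝ := (2 : ℝ) ^ J with hP
    have hPpos : 0 < P := by positivity
    have hP1 : 1 ≤ P := one_le_pow₀ (by norm_num)
    -- (12 (lam+1) E + 2) * 192 lam * 2 ≤ P
    have hkey : (12 * (lam + 1) * E + 1) * (192 * lam * 2) ≤ P := by
      refine le_trans ?_ h1
      have e1 : 12 * ((lam : ℝ) + 1) * E + 1 ≤ 12 * (2 * ((J : ℝ) + 1)) * E * 2 := by
        have : 1 ≤ 12 * (2 * ((J : ℝ) + 1)) * E := by nlinarith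
        nlinarith
      have e2 : 192 * (lam : ℝ) * 2 ≤ 192 * (2 * ((J : ℝ) + 1)) * 2 := by nlinarith
      calc (12 * ((lam : ℝ) + 1) * E + 1) * (192 * lam * 2)
          ≤ (12 * (2 * ((J : ℝ) + 1)) * E * 2) * (192 * (2 * ((J : ℝ) + 1)) * 2) := by
            apply mul_le_mul e1 e2 (by positivity) (by positivity)
        _ = 12 * E * 192 * 2 * 8 * ((J : ℝ) + 1) ^ 2 := by ring
    -- P * P ≤ 192 lam (s+2)
    have hPP : P * P ≤ 192 * lam * (s + 2) := hL3.trans hs
    have h192 : (0 : ℝ) < 192 * lam * 2 := by positivity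
    -- from hkey, multiply by P
    have h7 : P * (12 * (lam + 1) * E + 1) * (192 * lam * 2) ≤ 192 * lam * (s + 2) := by
      calc P * (12 * (lam + 1) * E + 1) * (192 * lam * 2)
          = P * ((12 * (lam + 1) * E + 1) * (192 * lam * 2)) := by ring
        _ ≤ P * P := mul_le_mul_of_nonneg_left hkey hPpos.le
        _ ≤ _ := hPP
    have h8 : P * (12 * (lam + 1) * E + 1) * 2 ≤ s + 2 := by
      have h192' : (0 : ℝ) < 192 * lam := by positivity
      have : 192 * (lam : ℝ) * (P * (12 * (lam + 1) * E + 1) * 2) ≤ 192 * lam * (s + 2) := by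
        calc _ = P * (12 * (lam + 1) * E + 1) * (192 * lam * 2) := by ring
          _ ≤ _ := h7
      exact le_of_mul_le_mul_left this h192'
    have h9 : P * (12 * (lam + 1) * E) * 2 ≤ s := by nlinarith
    have hs0 : 0 ≤ s := Nat.cast_nonneg _
    nlinarith
  · have h : L ≤ 49 * (L / 48) := by omega
    exact_mod_cast h
  · have hm : m2 ≤ L / 8 := by omega
    have h2 := hm2 (L / 8) hm
    have hA : ((L : ℝ) + 1) * 8 * 10 ≤ 2 ^ (L / 8) := by
      refine le_trans ?_ h2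
      have : (L : ℝ) + 1 ≤ 8 * (((L / 8 : ℕ) : ℝ) + 1) := by
        have : L + 1 ≤ 8 * (L / 8 + 1) := by omega
        exact_mod_cast this
      have h0 : (0 : ℝ) ≤ ((L / 8 : ℕ) : ℝ) := Nat.cast_nonneg _
      nlinarith
    have hB : ((2 : ℝ) ^ (L / 48)) ^ 6 ≤ 2 ^ (L / 8) := by
      rw [← pow_mul]
      exact pow_le_pow_right₀ (by norm_num) (by omega)
    have hC : (2 : ℝ) ^ (L / 8) * 2 ^ (L / 8) ≤ 2 ^ (L / 3) := by
      rw [← pow_add]
      exact pow_le_pow_right₀ (by norm_num) (by omega)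
    have hL0 : (0 : ℝ) ≤ (L : ℝ) := Nat.cast_nonneg _
    rw [le_div_iff₀ (by norm_num : (0 : ℝ) < 10)]
    calc ((L : ℝ) + 1) * (8 * ((2 : ℝ) ^ (L / 48)) ^ 6) * 10
        = (((L : ℝ) + 1) * 8 * 10) * ((2 : ℝ) ^ (L / 48)) ^ 6 := by ring
      _ ≤ 2 ^ (L / 8) * 2 ^ (L / 8) := by
          apply mul_le_mul hA hB (by positivity) (by positivity)
      _ ≤ _ := hC

theorem core : ∃ c : ℝ, 0 < c ∧ ∃ L0 : ℕ, ∀ L : ℕ, L0 ≤ L → ∀ (M : ℕ) (n0 : ℤ) (B : Finset ℤ)
    (T : ℕ), (∀ q : ℕ, q.Prime → L ^ 6 < q → Nat.Coprime M q) → (∀ b ∈ B, |b| ≤ 2 ^ L) →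
    (B.card : ℝ) ≤ c * L → 2 ^ (L / 3) ≤ T →
    ∃ t < T, ∀ b ∈ B, ∃ q : ℕ, q.Prime ∧ L ^ 6 < q ∧ q ≤ 2 ^ (L / 48) ∧
      (q : ℤ) ∣ n0 + M * t - b := by
  obtain ⟨L0, hL0⟩ := params
  refine ⟨Real.exp (-9) / 400 / 600, by positivity, L0, ?_⟩
  intro L hL M n0 B T hM hB hcard hT
  obtain ⟨hlam10, hlamE, hJ, h49, hnumT⟩ := hL0 L hL
  set lam := Nat.log 2 L with hlam
  set d := L / 48 with hd
  set s := d / (4 * lam) with hs
  set E := excl L B (2 ^ d) with hE
  have hexp9 : Real.exp (-9) ≤ 1 := Real.exp_le_one_iff.2 (by norm_num)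
  have hL4 : 2 ^ 10 ≤ L := by
    have h := Nat.pow_log_le_self 2 (x := L) (by rintro rfl; simp [hlam] at hlam10)
    exact (Nat.pow_le_pow_right (by norm_num) hlam10).trans h
  have hLr : (1024 : ℝ) ≤ L := by exact_mod_cast hL4
  have hcardL : (B.card : ℝ) ≤ L := by
    refine hcard.trans ?_
    have : Real.exp (-9) / 400 / 600 ≤ 1 := by
      rw [div_div, div_le_one (by norm_num)]
      linarith
    nlinarith
  have hcardN : B.card ≤ L := by exact_mod_cast hcardL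
  have hlamr : (10 : ℝ) ≤ lam := by exact_mod_cast hlam10
  -- the primes
  have hQprime : ∀ i : {q // q ∈ prz (2 ^ d) \ E}, (i : ℕ).Prime := by
    intro i
    have := (Finset.mem_sdiff.1 i.2).1
    exact (Finset.mem_filter.1 this).2
  have hQle : ∀ i : {q // q ∈ prz (2 ^ d) \ E}, (i : ℕ) ≤ 2 ^ d := by
    intro i
    have := (Finset.mem_sdiff.1 i.2).1
    exact (Finset.mem_Icc.1 (Finset.mem_filter.1 this).1).2
  have hQnot : ∀ i : {q // q ∈ prz (2 ^ d) \ E}, ¬ ((i : ℕ) ≤ L ^ 6 ∨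
      ∃ b ∈ B, ∃ b' ∈ B, b ≠ b' ∧ ((i : ℕ) : ℤ) ∣ b - b') := by
    intro i h
    have h1 := (Finset.mem_sdiff.1 i.2)
    exact h1.2 (Finset.mem_filter.2 ⟨h1.1, h⟩)
  have hQgt : ∀ i : {q // q ∈ prz (2 ^ d) \ E}, L ^ 6 < (i : ℕ) := by
    intro i
    by_contra h
    exact hQnot i (Or.inl (not_lt.1 h))
  have hdpos : 0 < d := by omega
  -- s ≥ 1
  have hspos : 1 ≤ s := by
    by_contra h
    have hs0 : s = 0 := Nat.lt_one_iff.1 (not_le.1 h)
    rw [hs0] at hJ
    have : (0 : ℝ) < (2 : ℝ) ^ (lam / 2) / (Real.exp (-9) / (12 * ((lam : ℝ) + 1))) := by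
      positivity
    simp at hJ
    linarith
  have hsd : 4 * lam * s ≤ d := Nat.mul_div_le d (4 * lam)
  have hsdle : s ≤ d := by
    have : s ≤ 4 * lam * s := Nat.le_mul_of_pos_left _ (by omega)
    omega
  have hlog2 : (0 : ℝ) < Real.log 2 := Real.log_pos (by norm_num)
  have hlog2' : (0.69 : ℝ) ≤ Real.log 2 := by
    have := Real.log_two_gt_d9
    linarith
  -- H1
  have hH1 : Real.exp (-9) / 400 ≤
      H1 (fun q : {q // q ∈ prz (2 ^ d) \ E} => (q : ℕ)) ((2 : ℝ) ^ s) := by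
    have hV : 0 < Real.exp (-9) / (12 * ((lam : ℝ) + 1)) := by positivity
    have h := H1_lower (z := 2 ^ d) (E := E) (Finset.filter_subset _ _) hV
      (excl_prod (by omega) hB hcardN (2 ^ d)) (S1 := (2 : ℝ) ^ s)
      (one_lt_pow₀ (by norm_num) (by omega))
      (by exact_mod_cast Nat.pow_le_pow_right (by norm_num) hsdle) (lam / 2)
      (by rw [Real.log_pow]; exact hJ)
    refine le_trans ?_ h
    have hJr : ((lam : ℝ) - 1) / 2 ≤ ((lam / 2 : ℕ) : ℝ) := by
      have : lam ≤ 2 * (lam / 2) + 1 := by omega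
      have h2 : (lam : ℝ) ≤ 2 * ((lam / 2 : ℕ) : ℝ) + 1 := by exact_mod_cast this
      linarith
    have h3 : (1 : ℝ) / 400 ≤ ((((lam / 2 : ℕ) : ℝ)) - 1) / (4 * (12 * ((lam : ℝ) + 1))) := by
      rw [div_le_div_iff₀ (by norm_num) (by positivity)]
      nlinarith
    calc Real.exp (-9) / 400 = Real.exp (-9) * (1 / 400) := by ring
      _ ≤ Real.exp (-9) * (((((lam / 2 : ℕ) : ℝ)) - 1) / (4 * (12 * ((lam : ℝ) + 1)))) :=
          mul_le_mul_of_nonneg_left h3 (Real.exp_pos _).le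
      _ = _ := by
          have : ((lam : ℝ) + 1) ≠ 0 := by positivity
          field_simp
  have hH1pos : 0 < H1 (fun q : {q // q ∈ prz (2 ^ d) \ E} => (q : ℕ)) ((2 : ℝ) ^ s) :=
    lt_of_lt_of_le (by positivity) hH1
  have hD : (1 : ℝ) ≤ 2 ^ d := one_le_pow₀ (by norm_num)
  have hcardk : (Fintype.card {b // b ∈ B} : ℝ) = B.card := by simp
  have hLpow : (L : ℝ) ≤ (L : ℝ) ^ 6 := by
    have : (L : ℝ) ^ 1 ≤ (L : ℝ) ^ 6 := pow_le_pow_right₀ (by linarith) (by norm_num)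
    simpa using this
  have hres := sieve2 (ι := {q // q ∈ prz (2 ^ d) \ E}) (κ := {b // b ∈ B})
    (p := fun q => (q : ℕ)) (M := M) (fun i => (hQprime i).two_le)
    (fun i j hij => (Nat.coprime_primes (hQprime i) (hQprime j)).2 (fun h => hij (Subtype.ext h)))
    (fun i => hM i (hQprime i) (hQgt i)) n0 (fun b => (b : ℤ))
    (fun i j j' hjj h => hQnot i (Or.inr ⟨j, j.2, j', j'.2, fun h' => hjj (Subtype.ext h'), h⟩))
    (D := (2 : ℝ) ^ d) (S1 := (2 : ℝ) ^ s)
    (by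
      rw [hcardk]
      have h1 := sum_inv_sq (L := L) (by omega) B (2 ^ d)
      have h2 : ∑ i : {q // q ∈ prz (2 ^ d) \ E}, (B.card : ℝ) / ((i : ℕ) : ℝ) ^ 2 =
          (B.card : ℝ) * ∑ q ∈ prz (2 ^ d) \ E, 1 / (q : ℝ) ^ 2 := by
        rw [Finset.mul_sum, ← Finset.sum_coe_sort (prz (2 ^ d) \ E)
          (fun q => (B.card : ℝ) * (1 / (q : ℝ) ^ 2))]
        exact Finset.sum_congr rfl (fun i _ => by ring)
      rw [h2]
      have hL6 : (0 : ℝ) < (L : ℝ) ^ 6 := by positivity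
      have h3 : (B.card : ℝ) * ∑ q ∈ prz (2 ^ d) \ E, 1 / (q : ℝ) ^ 2 ≤ L * (1 / (L : ℝ) ^ 6) :=
        mul_le_mul hcardL h1 (Finset.sum_nonneg (fun q _ => by positivity)) (by positivity)
      refine h3.trans ?_
      rw [mul_one_div, div_le_div_iff₀ hL6 (by norm_num)]
      have : (L : ℝ) ^ 2 ≤ (L : ℝ) ^ 6 := pow_le_pow_right₀ (by linarith) (by norm_num)
      nlinarith)
    (one_lt_pow₀ (by norm_num) (by omega)) hD
    (by
      intro S hS
      rw [hcardk]
      have hScard : S.card ≤ d := by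
        have h1 : (2 : ℝ) ^ S.card ≤ PP (fun q : {q // q ∈ prz (2 ^ d) \ E} => (q : ℕ)) S := by
          unfold PP
          rw [← Finset.prod_const]
          exact Finset.prod_le_prod (fun _ _ => by norm_num)
            (fun i _ => by exact_mod_cast (hQprime i).two_le)
        have h2 : (2 : ℝ) ^ S.card ≤ 2 ^ d := h1.trans hS
        exact (pow_le_pow_iff_right₀ (by norm_num : (1 : ℝ) < 2)).1 h2
      have h1 : ∑ i ∈ S, (B.card : ℝ) / (((i : ℕ) : ℝ) - 1) ≤ ∑ i ∈ S, (L : ℝ) / (L : ℝ) ^ 6 := by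
        refine Finset.sum_le_sum (fun i _ => ?_)
        have h3 : (L : ℝ) ^ 6 ≤ ((i : ℕ) : ℝ) - 1 := by
          have : L ^ 6 + 1 ≤ (i : ℕ) := hQgt i
          have h4 : ((L : ℝ) ^ 6 + 1) ≤ ((i : ℕ) : ℝ) := by exact_mod_cast this
          linarith
        exact div_le_div₀ (by positivity) hcardL (by positivity) h3
      refine h1.trans ?_
      rw [Finset.sum_const, nsmul_eq_mul]
      have h5 : (S.card : ℝ) ≤ L := by
        have : S.card ≤ L := hScard.trans (by omega)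
        exact_mod_cast this
      have hL6 : (0 : ℝ) < (L : ℝ) ^ 6 := by positivity
      calc (S.card : ℝ) * ((L : ℝ) / (L : ℝ) ^ 6) ≤ L * ((L : ℝ) / (L : ℝ) ^ 6) :=
            mul_le_mul_of_nonneg_right h5 (by positivity)
        _ = (L : ℝ) ^ 2 / (L : ℝ) ^ 6 := by ring
        _ ≤ 1 / 6 := by
            rw [div_le_div_iff₀ hL6 (by norm_num)]
            have : (L : ℝ) ^ 3 ≤ (L : ℝ) ^ 6 := pow_le_pow_right₀ (by linarith) (by norm_num)
            nlinarith [sq_nonneg (L : ℝ)])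
    hH1pos
    (by
      intro i
      have h1 : Real.log (L : ℝ) * 6 ≤ Real.log ((i : ℕ) : ℝ) := by
        have h2 : Real.log ((L : ℝ) ^ 6) ≤ Real.log ((i : ℕ) : ℝ) :=
          Real.log_le_log (by positivity) (by exact_mod_cast (hQgt i).le)
        rw [Real.log_pow] at h2
        push_cast at h2
        linarith
      have h3 : (lam : ℝ) * Real.log 2 ≤ Real.log (L : ℝ) := by
        have h4 : (2 : ℝ) ^ lam ≤ L := by
          exact_mod_cast Nat.pow_log_le_self 2 (x := L) (by omega)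
        have h5 := Real.log_le_log (by positivity) h4
        rwa [Real.log_pow] at h5
      have h6 : 1000 * Real.exp 9 * 0.69 * 6 ≤ Real.log ((i : ℕ) : ℝ) := by
        have : 1000 * Real.exp 9 * 0.69 ≤ (lam : ℝ) * Real.log 2 :=
          mul_le_mul hlamE hlog2' (by norm_num) (by positivity)
        linarith
      have h7 : Real.exp (-9) / 400 * (1000 * Real.exp 9 * 0.69 * 6) ≤
          H1 (fun q : {q // q ∈ prz (2 ^ d) \ E} => (q : ℕ)) ((2 : ℝ) ^ s) *
            Real.log ((i : ℕ) : ℝ) :=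
        mul_le_mul hH1 h6 (by positivity) hH1pos.le
      refine le_trans ?_ h7
      have h8 : Real.exp (-9) * Real.exp 9 = 1 := by
        rw [← Real.exp_add]; norm_num
      have : Real.exp (-9) / 400 * (1000 * Real.exp 9 * 0.69 * 6) =
          (Real.exp (-9) * Real.exp 9) * (1000 * 0.69 * 6 / 400) := by ring
      rw [this, h8]
      norm_num)
    (by
      rw [hcardk, Real.log_pow]
      have h1 : 2 * (B.card : ℝ) / H1 (fun q : {q // q ∈ prz (2 ^ d) \ E} => (q : ℕ))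
          ((2 : ℝ) ^ s) ≤ 2 * (Real.exp (-9) / 400 / 600 * L) / (Real.exp (-9) / 400) := by
        apply div_le_div₀ (by positivity) (by linarith) (by positivity) hH1
      refine h1.trans ?_
      have h2 : 2 * (Real.exp (-9) / 400 / 600 * L) / (Real.exp (-9) / 400) = (L : ℝ) / 300 := by
        have := (Real.exp_pos (-9)).ne'
        field_simp
        norm_num
      rw [h2]
      have h3 : (L : ℝ) / 300 ≤ (d : ℝ) * 0.69 / 4 := by
        have : (0 : ℝ) ≤ (d : ℝ) := Nat.cast_nonneg _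
        nlinarith
      refine h3.trans ?_
      have : (0 : ℝ) ≤ (d : ℝ) := Nat.cast_nonneg _
      nlinarith)
    (by
      rw [Real.log_pow, Real.log_pow]
      have h1 : 4 * s ≤ d := by
        have : 4 * s ≤ 4 * lam * s := Nat.mul_le_mul_right s (by omega)
        omega
      have h2 : 4 * (s : ℝ) ≤ d := by exact_mod_cast h1
      nlinarith)
    (by
      rw [hcardk, Real.log_pow, Real.log_pow]
      have hspos' : (0 : ℝ) < (s : ℝ) := by exact_mod_cast hspos
      have h1 : 2 * (lam : ℝ) ≤ (d : ℝ) * Real.log 2 / (2 * ((s : ℝ) * Real.log 2)) := by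
        rw [le_div_iff₀ (by positivity)]
        have h2 : 4 * (lam : ℝ) * s ≤ d := by exact_mod_cast hsd
        nlinarith
      have h2 : Real.exp (-((d : ℝ) * Real.log 2 / (2 * ((s : ℝ) * Real.log 2)))) ≤
          Real.exp (-(2 * (lam : ℝ))) := Real.exp_le_exp.2 (by linarith)
      have h3 : (B.card : ℝ) ≤ 2 ^ (lam + 1) := by
        refine hcardL.trans ?_
        exact_mod_cast (Nat.lt_pow_succ_log_self (by norm_num : 1 < 2) L).le
      have h4 : Real.exp (-(2 * (lam : ℝ))) ≤ (1 / 4 : ℝ) ^ lam := by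
        have h5 : Real.exp (-2) ≤ 1 / 4 := by
          have h6 : (4 : ℝ) ≤ Real.exp 2 := by
            have := Real.exp_one_gt_d9
            have h7 : Real.exp 2 = Real.exp 1 * Real.exp 1 := by rw [← Real.exp_add]; norm_num
            rw [h7]
            nlinarith
          rw [Real.exp_neg, ← one_div]
          exact one_div_le_one_div_of_le (by norm_num) h6
        have h8 : Real.exp (-(2 * (lam : ℝ))) = Real.exp (-2) ^ lam := by
          rw [← Real.exp_nat_mul]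
          congr 1
          ring
        rw [h8]
        exact pow_le_pow_left₀ (Real.exp_pos _).le h5 _
      calc (B.card : ℝ) * Real.exp (-((d : ℝ) * Real.log 2 / (2 * ((s : ℝ) * Real.log 2))))
          ≤ 2 ^ (lam + 1) * (1 / 4 : ℝ) ^ lam :=
            mul_le_mul h3 (h2.trans h4) (Real.exp_pos _).le (by positivity)
        _ = 2 * (1 / 2 : ℝ) ^ lam := by
            rw [pow_succ, mul_assoc, mul_comm (2 : ℝ) ((1 / 4 : ℝ) ^ lam), ← mul_assoc, ← mul_pow]
            norm_num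
            ring
        _ ≤ 2 * (1 / 2 : ℝ) ^ 10 := by
            apply mul_le_mul_of_nonneg_left _ (by norm_num)
            exact pow_le_pow_of_le_one (by norm_num) (by norm_num) hlam10
        _ ≤ 1 / 3 := by norm_num)
    (T := T)
    (by
      rw [hcardk]
      have hTr : (2 : ℝ) ^ (L / 3) ≤ T := by exact_mod_cast hT
      have h1 : ((B.card : ℝ) + 1) * (8 * ((2 : ℝ) ^ d) ^ 6) ≤
          ((L : ℝ) + 1) * (8 * ((2 : ℝ) ^ d) ^ 6) :=
        mul_le_mul_of_nonneg_right (by linarith) (by positivity)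
      refine h1.trans (hnumT.trans ?_)
      linarith)
  obtain ⟨t, htT, ht⟩ := hres
  refine ⟨t, htT, fun b hb => ?_⟩
  obtain ⟨i, hi⟩ := ht ⟨b, hb⟩
  exact ⟨i, hQprime i, hQgt i, hQle i, hi⟩

end Pool.Agent.RS
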