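import Pool.Agent.RS.Abs2
import Pool.Agent.RS.Prm

/-! RS/CoreD.  The core theorem with a free level `2^d` (`L^(3/4) ≤ d ≤ L`): at most `c d` integers of
absolute value `≤ 2^L` can be killed by primes in `(L^6, 2^d]`, inside any residue class modulo `M`
(all of whose prime factors are `≤ L^6`), in any block of `2^(8d)` consecutive terms.

Parameters.  `lam = Nat.log 2 L` (`2^lam ≤ L < 2^(lam+1)`), `z = 2^d`, `D = 2^d`,
`s = d / (4 * lam)`, `S1 = 2^s`, `E = excl L B z`, `Q = prz z \ E`, `ι = {q // q ∈ Q}`, `p = coe`,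
`κ = {b // b ∈ B}`, `a = coe`, `V = exp(-9)/(12 (lam+1))` (`excl_prod`), `J = lam / 2`,
`h0 = exp(-9)/400`, `c = h0/600`.
* primes of `Q` are `> L^6`, pairwise coprime, coprime to `M`, divide no difference `b - b'`;
* `hk`: `k ∑ 1/q^2 ≤ L / L^6 ≤ 1/2` (`sum_inv_sq`); `k ≤ c d ≤ L`;
* `hN`: `PP S ≤ D = 2^d` gives `|S| ≤ d ≤ L`, so `∑ k/(q-1) ≤ L * L / (L^6) ≤ 1/6`
  (`q - 1 ≥ L^6`);
* `H1_lower` with `V`, `J`: `2^J / V ≤ log S1 = s log 2` for `L` large
  (`2^J ≤ 2^(lam/2)`, `d ≥ 2^(3 lam/4)` from `L^3 ≤ d^4`, `s ≥ d/(4 lam) - 1`), so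
  `H1 ≥ V (J-1)/4 ≥ h0` for `lam` large;
* `hH`: `H1 log q ≥ h0 * 6 log L ≥ h0 * 4 lam ≥ 1`;
* `hHk`: `2 k/H1 ≤ 2 c d/h0 ≤ d log 2/4 = log D/4`;
* `hS1D`: `s ≤ d/4` as `lam ≥ 1`; `hS1`: `s ≥ 1`;
* `hnum`: `log D/(2 log S1) = d/(2s) ≥ 2 lam`, `k exp(-2 lam) ≤ 2^(lam+1) exp(-2 lam) ≤ 1/3`;
* `hT`: `(k+1) * 8 * 2^(6 d) * 10 ≤ 2^(8 d) ≤ T`.
If `B` is empty take `t = 0`. -/

namespace Pool.Agent.RS

open Finset

private theorem grow (C : ℝ) : ∃ m0 : ℕ, ∀ m : ℕ, m0 ≤ m → C * ((m : ℝ) + 1) ^ 2 ≤ 2 ^ m := by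
  have h := tendsto_pow_const_div_const_pow_of_one_lt 2 (r := (2 : ℝ)) (by norm_num)
  have h2 : Filter.Tendsto (fun m : ℕ => |C| * 2 * (((m + 1 : ℕ) : ℝ) ^ 2 / 2 ^ (m + 1)))
      Filter.atTop (nhds (|C| * 2 * 0)) :=
    Filter.Tendsto.const_mul _ ((Filter.tendsto_add_atTop_iff_nat 1).2 h)
  rw [mul_zero] at h2
  obtain ⟨m0, hm0⟩ := Filter.eventually_atTop.1 (h2.eventually_le_const (show (0 : ℝ) < 1 by norm_num))
  refine ⟨m0, fun m hm => ?_⟩
  have h3 := hm0 m hm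
  have h4 : (0 : ℝ) < 2 ^ m := by positivity
  have h5 : |C| * ((m : ℝ) + 1) ^ 2 / 2 ^ m ≤ 1 := by
    refine le_trans (le_of_eq ?_) h3
    push_cast
    field_simp
    ring
  rw [div_le_one h4] at h5
  have h6 : C * ((m : ℝ) + 1) ^ 2 ≤ |C| * ((m : ℝ) + 1) ^ 2 :=
    mul_le_mul_of_nonneg_right (le_abs_self C) (by positivity)
  linarith

/-- arithmetic of the parameters -/
private theorem paramsD : ∃ L0 : ℕ, ∀ L d : ℕ, L0 ≤ L → L ^ 3 ≤ d ^ 4 → d ≤ L →
    10 ≤ Nat.log 2 L ∧ 1000 * Real.exp 9 ≤ (Nat.log 2 L : ℝ) ∧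
    (2 : ℝ) ^ (Nat.log 2 L / 2) / (Real.exp (-9) / (12 * ((Nat.log 2 L : ℝ) + 1))) ≤
      ((d / (4 * Nat.log 2 L) : ℕ) : ℝ) * Real.log 2 ∧
    ((L : ℝ) + 1) * (8 * ((2 : ℝ) ^ d) ^ 6) ≤ (2 : ℝ) ^ (8 * d) / 10 := by
  obtain ⟨m1, hm1⟩ := grow (16 * 97 * Real.exp 9)
  obtain ⟨m2, hm2⟩ := grow (8 * 10)
  obtain ⟨m3, hm3⟩ := exists_nat_ge (1000 * Real.exp 9)
  refine ⟨2 ^ (4 * m1 + m3 + 16) + m2 ^ 4, fun L d hL hLd hdL => ?_⟩
  set lam := Nat.log 2 L with hlam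
  have hpp : 0 < 2 ^ (4 * m1 + m3 + 16) := by positivity
  have hL2 : 2 ^ (4 * m1 + m3 + 16) ≤ L := le_trans (Nat.le_add_right _ _) hL
  have hL2' : m2 ^ 4 ≤ L := le_trans (Nat.le_add_left _ _) hL
  have hlam0 : 4 * m1 + m3 + 16 ≤ lam := Nat.le_log_of_pow_le (by norm_num) hL2
  have hLpos : L ≠ 0 := by omega
  have hpow : 2 ^ lam ≤ L := Nat.pow_log_le_self 2 hLpos
  have hL1 : 1 ≤ L := Nat.one_le_iff_ne_zero.2 hLpos
  have hLL3 : L ≤ L ^ 3 := by
    calc L = L ^ 1 := (pow_one L).symm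
      _ ≤ L ^ 3 := Nat.pow_le_pow_right hL1 (by norm_num)
  have hdm2 : m2 ≤ d := by
    have : m2 ^ 4 ≤ d ^ 4 := hL2'.trans (hLL3.trans hLd)
    exact (Nat.pow_le_pow_iff_left (by norm_num)).1 this
  have hd1 : 1 ≤ d := by
    rcases Nat.eq_zero_or_pos d with h | h
    · subst h
      have h0 : L ^ 3 = 0 := by simpa using hLd
      have h1 : 0 < L ^ 3 := by positivity
      omega
    · exact h
  refine ⟨by omega, ?_, ?_, ?_⟩
  · have : (m3 : ℝ) ≤ (lam : ℝ) := by exact_mod_cast (by omega : m3 ≤ lam)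
    linarith
  · set J := lam / 2 with hJ
    set I := J / 2 with hI
    have hI1 : m1 ≤ I := by omega
    have h1 := hm1 I hI1
    have hlamI : lam + 1 ≤ 4 * (I + 1) := by omega
    have hlamr : (lam : ℝ) + 1 ≤ 4 * ((I : ℝ) + 1) := by exact_mod_cast hlamI
    have hlam1 : (1 : ℝ) ≤ lam := by exact_mod_cast (by omega : 1 ≤ lam)
    have hIpos : (0 : ℝ) ≤ (I : ℝ) := Nat.cast_nonneg _
    have he9 : (1 : ℝ) ≤ Real.exp 9 := Real.one_le_exp (by norm_num)
    -- lower bound of d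
    have hdlow : 2 ^ J * 2 ^ I ≤ d := by
      have h2 : (2 ^ J * 2 ^ I) ^ 4 ≤ d ^ 4 := by
        refine le_trans ?_ hLd
        refine le_trans ?_ (Nat.pow_le_pow_left hpow 3)
        rw [← pow_add, ← pow_mul, ← pow_mul]
        exact Nat.pow_le_pow_right (by norm_num) (by omega)
      exact (Nat.pow_le_pow_iff_left (by norm_num)).1 h2
    -- lower bound of s
    have hs : (d : ℝ) ≤ 4 * lam * (((d / (4 * lam) : ℕ) : ℝ) + 1) := by
      have hb : d < 4 * lam * (d / (4 * lam) + 1) := Nat.lt_mul_div_succ d (by omega)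
      exact_mod_cast hb.le
    have hlog2 : (1 / 2 : ℝ) ≤ Real.log 2 := by
      have := Real.log_two_gt_d9
      linarith
    have hdiv : (2 : ℝ) ^ J / (Real.exp (-9) / (12 * ((lam : ℝ) + 1))) =
        2 ^ J * (12 * (lam + 1) * Real.exp 9) := by
      rw [Real.exp_neg]
      have : Real.exp 9 ≠ 0 := (Real.exp_pos 9).ne'
      field_simp
    rw [hdiv]
    set s : ℝ := ((d / (4 * lam) : ℕ) : ℝ) with hsdef
    set E := Real.exp 9
    set P : ℝ := (2 : ℝ) ^ J with hP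
    have hPpos : 0 < P := by positivity
    have hP1 : 1 ≤ P := one_le_pow₀ (by norm_num)
    have hdr : P * (2 : ℝ) ^ I ≤ (d : ℝ) := by
      have h2 : ((2 ^ J * 2 ^ I : ℕ) : ℝ) ≤ (d : ℝ) := Nat.cast_le.2 hdlow
      push_cast at h2
      exact h2
    -- (24 (lam+1) E + 1) * 4 lam ≤ 2 ^ I
    have hkey : (24 * ((lam : ℝ) + 1) * E + 1) * (4 * (lam : ℝ)) ≤ (2 : ℝ) ^ I := by
      refine le_trans ?_ h1
      have e1 : 24 * ((lam : ℝ) + 1) * E + 1 ≤ 97 * (((I : ℝ) + 1) * E) := by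
        have e3 : 1 ≤ ((I : ℝ) + 1) * E := by nlinarith
        have e4 : ((lam : ℝ) + 1) * E ≤ 4 * (((I : ℝ) + 1) * E) := by nlinarith
        nlinarith
      have e2 : 4 * (lam : ℝ) ≤ 16 * ((I : ℝ) + 1) := by linarith
      calc (24 * (lam + 1) * E + 1) * (4 * lam)
          ≤ (97 * (((I : ℝ) + 1) * E)) * (16 * ((I : ℝ) + 1)) := by
            apply mul_le_mul e1 e2 (by positivity) (by positivity)
        _ = 16 * 97 * E * ((I : ℝ) + 1) ^ 2 := by ring
    have h7 : 4 * (lam : ℝ) * (P * (24 * ((lam : ℝ) + 1) * E + 1)) ≤ 4 * (lam : ℝ) * (s + 1) := by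
      calc 4 * (lam : ℝ) * (P * (24 * ((lam : ℝ) + 1) * E + 1))
          = P * ((24 * ((lam : ℝ) + 1) * E + 1) * (4 * (lam : ℝ))) := by ring
        _ ≤ P * (2 : ℝ) ^ I := mul_le_mul_of_nonneg_left hkey hPpos.le
        _ ≤ (d : ℝ) := hdr
        _ ≤ _ := hs
    have h4l : (0 : ℝ) < 4 * (lam : ℝ) := by linarith
    have h8 : P * (24 * ((lam : ℝ) + 1) * E + 1) ≤ s + 1 := le_of_mul_le_mul_left h7 h4l
    have h8' : P * (24 * ((lam : ℝ) + 1) * E + 1) =
        2 * (P * (12 * ((lam : ℝ) + 1) * E)) + P := by ring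
    have h9 : 2 * (P * (12 * ((lam : ℝ) + 1) * E)) ≤ s := by linarith
    have hs0 : 0 ≤ s := Nat.cast_nonneg _
    have h10 : s * (1 / 2) ≤ s * Real.log 2 := mul_le_mul_of_nonneg_left hlog2 hs0
    linarith
  · have h2 := hm2 d hdm2
    have hLd2 : L ≤ d ^ 2 := by
      by_contra h
      have h3 : d ^ 2 < L := not_le.1 h
      have h4 : (d ^ 2) ^ 3 < L ^ 3 := Nat.pow_lt_pow_left h3 (by norm_num)
      have h5 : d ^ 4 ≤ (d ^ 2) ^ 3 := by
        rw [← pow_mul]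
        exact Nat.pow_le_pow_right hd1 (by norm_num)
      omega
    have hLr : (L : ℝ) + 1 ≤ ((d : ℝ) + 1) ^ 2 := by
      have h3 : (L : ℝ) ≤ (d : ℝ) ^ 2 := by exact_mod_cast hLd2
      have h4 : (0 : ℝ) ≤ (d : ℝ) := Nat.cast_nonneg _
      nlinarith
    have hA : ((L : ℝ) + 1) * 8 * 10 ≤ 2 ^ (2 * d) := by
      have h3 : (2 : ℝ) ^ d ≤ 2 ^ (2 * d) := pow_le_pow_right₀ (by norm_num) (by omega)
      linarith
    rw [le_div_iff₀ (by norm_num : (0 : ℝ) < 10)]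
    calc ((L : ℝ) + 1) * (8 * ((2 : ℝ) ^ d) ^ 6) * 10
        = (((L : ℝ) + 1) * 8 * 10) * ((2 : ℝ) ^ d) ^ 6 := by ring
      _ ≤ 2 ^ (2 * d) * ((2 : ℝ) ^ d) ^ 6 := mul_le_mul_of_nonneg_right hA (by positivity)
      _ = 2 ^ (8 * d) := by
          rw [← pow_mul, ← pow_add]
          congr 1
          ring

theorem coreD : ∃ c : ℝ, 0 < c ∧ ∃ L0 : ℕ, ∀ L d : ℕ, L0 ≤ L → L ^ 3 ≤ d ^ 4 → d ≤ L →
    ∀ (M : ℕ) (n0 : ℤ) (B : Finset ℤ) (T : ℕ),
    (∀ q : ℕ, q.Prime → L ^ 6 < q → Nat.Coprime M q) → (∀ b ∈ B, |b| ≤ 2 ^ L) →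
    (B.card : ℝ) ≤ c * d → 2 ^ (8 * d) ≤ T →
    ∃ t < T, ∀ b ∈ B, ∃ q : ℕ, q.Prime ∧ L ^ 6 < q ∧ q ≤ 2 ^ d ∧
      (q : ℤ) ∣ n0 + M * (t : ℕ) - b := by
  obtain ⟨L0, hL0⟩ := paramsD
  refine ⟨Real.exp (-9) / 400 / 600, by positivity, L0, ?_⟩
  intro L d hL hLd hdL M n0 B T hM hB hcard hT
  obtain ⟨hlam10, hlamE, hJ, hnumT⟩ := hL0 L d hL hLd hdL
  set lam := Nat.log 2 L with hlam
  set s := d / (4 * lam) with hs
  set E := excl L B (2 ^ d) with hE
  have hexp9 : Real.exp (-9) ≤ 1 := Real.exp_le_one_iff.2 (by norm_num)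
  have hL4 : 2 ^ 10 ≤ L := by
    have h := Nat.pow_log_le_self 2 (x := L) (by rintro rfl; simp [hlam] at hlam10)
    exact (Nat.pow_le_pow_right (by norm_num) hlam10).trans h
  have hLr : (1024 : ℝ) ≤ L := by exact_mod_cast hL4
  have hdLr : (d : ℝ) ≤ L := by exact_mod_cast hdL
  have hd0r : (0 : ℝ) ≤ (d : ℝ) := Nat.cast_nonneg _
  have hcardL : (B.card : ℝ) ≤ L := by
    refine hcard.trans ?_
    have : Real.exp (-9) / 400 / 600 ≤ 1 := by
      rw [div_div, div_le_one (by norm_num)]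
      linarith
    nlinarith
  have hcardN : B.card ≤ L := by exact_mod_cast hcardL
  have hlamr : (10 : ℝ) ≤ lam := by exact_mod_cast hlam10
  -- the primes
  have hQprime : ∀ i : {q // q ∈ prz (2 ^ d) \ E}, (i : ℕ).Prime := by
    intro i
    have := (Finset.mem_sdiff.1 i.2).1
    exact (Finset.mem_filter.1 this).2
  have hQle : ∀ i : {q // q ∈ prz (2 ^ d) \ E}, (i : ℕ) ≤ 2 ^ d := by
    intro i
    have := (Finset.mem_sdiff.1 i.2).1
    exact (Finset.mem_Icc.1 (Finset.mem_filter.1 this).1).2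
  have hQnot : ∀ i : {q // q ∈ prz (2 ^ d) \ E}, ¬ ((i : ℕ) ≤ L ^ 6 ∨
      ∃ b ∈ B, ∃ b' ∈ B, b ≠ b' ∧ ((i : ℕ) : ℤ) ∣ b - b') := by
    intro i h
    have h1 := (Finset.mem_sdiff.1 i.2)
    exact h1.2 (Finset.mem_filter.2 ⟨h1.1, h⟩)
  have hQgt : ∀ i : {q // q ∈ prz (2 ^ d) \ E}, L ^ 6 < (i : ℕ) := by
    intro i
    by_contra h
    exact hQnot i (Or.inl (not_lt.1 h))
  have hdpos : 0 < d := by
    rcases Nat.eq_zero_or_pos d with h | h
    · subst h
      have h0 : L ^ 3 = 0 := by simpa using hLd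
      have h1 : 0 < L ^ 3 := by positivity
      omega
    · exact h
  -- s ≥ 1
  have hspos : 1 ≤ s := by
    by_contra h
    have hs0 : s = 0 := Nat.lt_one_iff.1 (not_le.1 h)
    rw [hs0] at hJ
    have : (0 : ℝ) < (2 : ℝ) ^ (lam / 2) / (Real.exp (-9) / (12 * ((lam : ℝ) + 1))) := by
      positivity
    simp at hJ
    linarith
  have hsd : 4 * lam * s ≤ d := Nat.mul_div_le d (4 * lam)
  have hsdle : s ≤ d := by
    have : s ≤ 4 * lam * s := Nat.le_mul_of_pos_left _ (by omega)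
    omega
  have hlog2 : (0 : ℝ) < Real.log 2 := Real.log_pos (by norm_num)
  have hlog2' : (0.69 : ℝ) ≤ Real.log 2 := by
    have := Real.log_two_gt_d9
    linarith
  -- H1
  have hH1 : Real.exp (-9) / 400 ≤
      H1 (fun q : {q // q ∈ prz (2 ^ d) \ E} => (q : ℕ)) ((2 : ℝ) ^ s) := by
    have hV : 0 < Real.exp (-9) / (12 * ((lam : ℝ) + 1)) := by positivity
    have h := H1_lower (z := 2 ^ d) (E := E) (Finset.filter_subset _ _) hV
      (excl_prod (by omega) hB hcardN (2 ^ d)) (S1 := (2 : ℝ) ^ s)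
      (one_lt_pow₀ (by norm_num) (by omega))
      (by exact_mod_cast Nat.pow_le_pow_right (by norm_num) hsdle) (lam / 2)
      (by rw [Real.log_pow]; exact hJ)
    refine le_trans ?_ h
    have hJr : ((lam : ℝ) - 1) / 2 ≤ ((lam / 2 : ℕ) : ℝ) := by
      have : lam ≤ 2 * (lam / 2) + 1 := by omega
      have h2 : (lam : ℝ) ≤ 2 * ((lam / 2 : ℕ) : ℝ) + 1 := by exact_mod_cast this
      linarith
    have h3 : (1 : ℝ) / 400 ≤ ((((lam / 2 : ℕ) : ℝ)) - 1) / (4 * (12 * ((lam : ℝ) + 1))) := by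
      rw [div_le_div_iff₀ (by norm_num) (by positivity)]
      nlinarith
    calc Real.exp (-9) / 400 = Real.exp (-9) * (1 / 400) := by ring
      _ ≤ Real.exp (-9) * (((((lam / 2 : ℕ) : ℝ)) - 1) / (4 * (12 * ((lam : ℝ) + 1)))) :=
          mul_le_mul_of_nonneg_left h3 (Real.exp_pos _).le
      _ = _ := by
          have : ((lam : ℝ) + 1) ≠ 0 := by positivity
          field_simp
  have hH1pos : 0 < H1 (fun q : {q // q ∈ prz (2 ^ d) \ E} => (q : ℕ)) ((2 : ℝ) ^ s) :=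
    lt_of_lt_of_le (by positivity) hH1
  have hD : (1 : ℝ) ≤ 2 ^ d := one_le_pow₀ (by norm_num)
  have hcardk : (Fintype.card {b // b ∈ B} : ℝ) = B.card := by simp
  have hLpow : (L : ℝ) ≤ (L : ℝ) ^ 6 := by
    have : (L : ℝ) ^ 1 ≤ (L : ℝ) ^ 6 := pow_le_pow_right₀ (by linarith) (by norm_num)
    simpa using this
  have hres := sieve2 (ι := {q // q ∈ prz (2 ^ d) \ E}) (κ := {b // b ∈ B})
    (p := fun q => (q : ℕ)) (M := M) (fun i => (hQprime i).two_le)
    (fun i j hij => (Nat.coprime_primes (hQprime i) (hQprime j)).2 (fun h => hij (Subtype.ext h)))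
    (fun i => hM i (hQprime i) (hQgt i)) n0 (fun b => (b : ℤ))
    (fun i j j' hjj h => hQnot i (Or.inr ⟨j, j.2, j', j'.2, fun h' => hjj (Subtype.ext h'), h⟩))
    (D := (2 : ℝ) ^ d) (S1 := (2 : ℝ) ^ s)
    (by
      rw [hcardk]
      have h1 := sum_inv_sq (L := L) (by omega) B (2 ^ d)
      have h2 : ∑ i : {q // q ∈ prz (2 ^ d) \ E}, (B.card : ℝ) / ((i : ℕ) : ℝ) ^ 2 =
          (B.card : ℝ) * ∑ q ∈ prz (2 ^ d) \ E, 1 / (q : ℝ) ^ 2 := by
        rw [Finset.mul_sum, ← Finset.sum_coe_sort (prz (2 ^ d) \ E)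
          (fun q => (B.card : ℝ) * (1 / (q : ℝ) ^ 2))]
        exact Finset.sum_congr rfl (fun i _ => by ring)
      rw [h2]
      have hL6 : (0 : ℝ) < (L : ℝ) ^ 6 := by positivity
      have h3 : (B.card : ℝ) * ∑ q ∈ prz (2 ^ d) \ E, 1 / (q : ℝ) ^ 2 ≤ L * (1 / (L : ℝ) ^ 6) :=
        mul_le_mul hcardL h1 (Finset.sum_nonneg (fun q _ => by positivity)) (by positivity)
      refine h3.trans ?_
      rw [mul_one_div, div_le_div_iff₀ hL6 (by norm_num)]
      have : (L : ℝ) ^ 2 ≤ (L : ℝ) ^ 6 := pow_le_pow_right₀ (by linarith) (by norm_num)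
      nlinarith)
    (one_lt_pow₀ (by norm_num) (by omega)) hD
    (by
      intro S hS
      rw [hcardk]
      have hScard : S.card ≤ d := by
        have h1 : (2 : ℝ) ^ S.card ≤ PP (fun q : {q // q ∈ prz (2 ^ d) \ E} => (q : ℕ)) S := by
          unfold PP
          rw [← Finset.prod_const]
          exact Finset.prod_le_prod (fun _ _ => by norm_num)
            (fun i _ => by exact_mod_cast (hQprime i).two_le)
        have h2 : (2 : ℝ) ^ S.card ≤ 2 ^ d := h1.trans hS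
        exact (pow_le_pow_iff_right₀ (by norm_num : (1 : ℝ) < 2)).1 h2
      have h1 : ∑ i ∈ S, (B.card : ℝ) / (((i : ℕ) : ℝ) - 1) ≤ ∑ i ∈ S, (L : ℝ) / (L : ℝ) ^ 6 := by
        refine Finset.sum_le_sum (fun i _ => ?_)
        have h3 : (L : ℝ) ^ 6 ≤ ((i : ℕ) : ℝ) - 1 := by
          have : L ^ 6 + 1 ≤ (i : ℕ) := hQgt i
          have h4 : ((L : ℝ) ^ 6 + 1) ≤ ((i : ℕ) : ℝ) := by exact_mod_cast this
          linarith
        exact div_le_div₀ (by positivity) hcardL (by positivity) h3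
      refine h1.trans ?_
      rw [Finset.sum_const, nsmul_eq_mul]
      have h5 : (S.card : ℝ) ≤ L := by
        have : S.card ≤ L := hScard.trans hdL
        exact_mod_cast this
      have hL6 : (0 : ℝ) < (L : ℝ) ^ 6 := by positivity
      calc (S.card : ℝ) * ((L : ℝ) / (L : ℝ) ^ 6) ≤ L * ((L : ℝ) / (L : ℝ) ^ 6) :=
            mul_le_mul_of_nonneg_right h5 (by positivity)
        _ = (L : ℝ) ^ 2 / (L : ℝ) ^ 6 := by ring
        _ ≤ 1 / 6 := by
            rw [div_le_div_iff₀ hL6 (by norm_num)]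
            have : (L : ℝ) ^ 3 ≤ (L : ℝ) ^ 6 := pow_le_pow_right₀ (by linarith) (by norm_num)
            nlinarith [sq_nonneg (L : ℝ)])
    hH1pos
    (by
      intro i
      have h1 : Real.log (L : ℝ) * 6 ≤ Real.log ((i : ℕ) : ℝ) := by
        have h2 : Real.log ((L : ℝ) ^ 6) ≤ Real.log ((i : ℕ) : ℝ) :=
          Real.log_le_log (by positivity) (by exact_mod_cast (hQgt i).le)
        rw [Real.log_pow] at h2
        push_cast at h2
        linarith
      have h3 : (lam : ℝ) * Real.log 2 ≤ Real.log (L : ℝ) := by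
        have h4 : (2 : ℝ) ^ lam ≤ L := by
          exact_mod_cast Nat.pow_log_le_self 2 (x := L) (by omega)
        have h5 := Real.log_le_log (by positivity) h4
        rwa [Real.log_pow] at h5
      have h6 : 1000 * Real.exp 9 * 0.69 * 6 ≤ Real.log ((i : ℕ) : ℝ) := by
        have : 1000 * Real.exp 9 * 0.69 ≤ (lam : ℝ) * Real.log 2 :=
          mul_le_mul hlamE hlog2' (by norm_num) (by positivity)
        linarith
      have h7 : Real.exp (-9) / 400 * (1000 * Real.exp 9 * 0.69 * 6) ≤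
          H1 (fun q : {q // q ∈ prz (2 ^ d) \ E} => (q : ℕ)) ((2 : ℝ) ^ s) *
            Real.log ((i : ℕ) : ℝ) :=
        mul_le_mul hH1 h6 (by positivity) hH1pos.le
      refine le_trans ?_ h7
      have h8 : Real.exp (-9) * Real.exp 9 = 1 := by
        rw [← Real.exp_add]; norm_num
      have : Real.exp (-9) / 400 * (1000 * Real.exp 9 * 0.69 * 6) =
          (Real.exp (-9) * Real.exp 9) * (1000 * 0.69 * 6 / 400) := by ring
      rw [this, h8]
      norm_num)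
    (by
      rw [hcardk, Real.log_pow]
      have h1 : 2 * (B.card : ℝ) / H1 (fun q : {q // q ∈ prz (2 ^ d) \ E} => (q : ℕ))
          ((2 : ℝ) ^ s) ≤ 2 * (Real.exp (-9) / 400 / 600 * d) / (Real.exp (-9) / 400) := by
        apply div_le_div₀ (by positivity) (by linarith) (by positivity) hH1
      refine h1.trans ?_
      have h2 : 2 * (Real.exp (-9) / 400 / 600 * d) / (Real.exp (-9) / 400) = (d : ℝ) / 300 := by
        have := (Real.exp_pos (-9)).ne'
        field_simp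
        norm_num
      rw [h2]
      have h3 : (d : ℝ) / 300 ≤ (d : ℝ) * 0.69 / 4 := by
        have : (0 : ℝ) ≤ (d : ℝ) := Nat.cast_nonneg _
        nlinarith
      refine h3.trans ?_
      have : (0 : ℝ) ≤ (d : ℝ) := Nat.cast_nonneg _
      nlinarith)
    (by
      rw [Real.log_pow, Real.log_pow]
      have h1 : 4 * s ≤ d := by
        have : 4 * s ≤ 4 * lam * s := Nat.mul_le_mul_right s (by omega)
        omega
      have h2 : 4 * (s : ℝ) ≤ d := by exact_mod_cast h1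
      nlinarith)
    (by
      rw [hcardk, Real.log_pow, Real.log_pow]
      have hspos' : (0 : ℝ) < (s : ℝ) := by exact_mod_cast hspos
      have h1 : 2 * (lam : ℝ) ≤ (d : ℝ) * Real.log 2 / (2 * ((s : ℝ) * Real.log 2)) := by
        rw [le_div_iff₀ (by positivity)]
        have h2 : 4 * (lam : ℝ) * s ≤ d := by exact_mod_cast hsd
        nlinarith
      have h2 : Real.exp (-((d : ℝ) * Real.log 2 / (2 * ((s : ℝ) * Real.log 2)))) ≤
          Real.exp (-(2 * (lam : ℝ))) := Real.exp_le_exp.2 (by linarith)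
      have h3 : (B.card : ℝ) ≤ 2 ^ (lam + 1) := by
        refine hcardL.trans ?_
        exact_mod_cast (Nat.lt_pow_succ_log_self (by norm_num : 1 < 2) L).le
      have h4 : Real.exp (-(2 * (lam : ℝ))) ≤ (1 / 4 : ℝ) ^ lam := by
        have h5 : Real.exp (-2) ≤ 1 / 4 := by
          have h6 : (4 : ℝ) ≤ Real.exp 2 := by
            have := Real.exp_one_gt_d9
            have h7 : Real.exp 2 = Real.exp 1 * Real.exp 1 := by rw [← Real.exp_add]; norm_num
            rw [h7]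
            nlinarith
          rw [Real.exp_neg, ← one_div]
          exact one_div_le_one_div_of_le (by norm_num) h6
        have h8 : Real.exp (-(2 * (lam : ℝ))) = Real.exp (-2) ^ lam := by
          rw [← Real.exp_nat_mul]
          congr 1
          ring
        rw [h8]
        exact pow_le_pow_left₀ (Real.exp_pos _).le h5 _
      calc (B.card : ℝ) * Real.exp (-((d : ℝ) * Real.log 2 / (2 * ((s : ℝ) * Real.log 2))))
          ≤ 2 ^ (lam + 1) * (1 / 4 : ℝ) ^ lam :=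
            mul_le_mul h3 (h2.trans h4) (Real.exp_pos _).le (by positivity)
        _ = 2 * (1 / 2 : ℝ) ^ lam := by
            rw [pow_succ, mul_assoc, mul_comm (2 : ℝ) ((1 / 4 : ℝ) ^ lam), ← mul_assoc, ← mul_pow]
            norm_num
            ring
        _ ≤ 2 * (1 / 2 : ℝ) ^ 10 := by
            apply mul_le_mul_of_nonneg_left _ (by norm_num)
            exact pow_le_pow_of_le_one (by norm_num) (by norm_num) hlam10
        _ ≤ 1 / 3 := by norm_num)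
    (T := T)
    (by
      rw [hcardk]
      have hTr : (2 : ℝ) ^ (8 * d) ≤ T := by exact_mod_cast hT
      have h1 : ((B.card : ℝ) + 1) * (8 * ((2 : ℝ) ^ d) ^ 6) ≤
          ((L : ℝ) + 1) * (8 * ((2 : ℝ) ^ d) ^ 6) :=
        mul_le_mul_of_nonneg_right (by linarith) (by positivity)
      refine h1.trans (hnumT.trans ?_)
      linarith)
  obtain ⟨t, htT, ht⟩ := hres
  refine ⟨t, htT, fun b hb => ?_⟩
  obtain ⟨i, hi⟩ := ht ⟨b, hb⟩
  exact ⟨i, hQprime i, hQgt i, hQle i, hi⟩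

end Pool.Agent.RS
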