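import Pool.Agent.RS.CoreD

/-! RS/Kill.  From the core theorem to blocks of integers `n`.

`c`, `L0` from `coreD` (and `L0 ≥ 1`).  Let `n0` be the least integer `≥ s + H + 1` with
`n0 ≡ b mod M` (`n0 ≤ s + H + M`), `T = 2^(8d)`, `B` = image in `ℤ` of
`{a ∈ A : a ≤ s, IsCoprime (b - a) M}` (`|b| ≤ 2^L` as `s < 2^L`).  `coreD` gives `t < T`; put
`n = n0 + M t`; `s + H < n ≤ s + H + M + M T ≤ s + 2H`.  Let `a ∈ A`, `a ≤ n`; then `a ≤ s`
(no element in the block), so `n - a > H`.  If `IsCoprime (b - a) M` then a prime `q ≤ 2^d ≤ H`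
divides `n - a`, so `n - a` is not prime.  Otherwise a prime `q ∣ M` divides `b - a`, hence
`n - a`; `q ≤ M ≤ H < n - a`. -/

namespace Pool.Agent.RS

open Finset

open Classical in
theorem kill : ∃ c : ℝ, 0 < c ∧ ∃ L0 : ℕ, ∀ L d : ℕ, L0 ≤ L → L ^ 3 ≤ d ^ 4 → d ≤ L →
    ∀ (M : ℕ), 0 < M → (∀ q : ℕ, q.Prime → q ∣ M → q ≤ L ^ 6) →
    ∀ (b : ℕ) (A : Finset ℕ) (s H : ℕ), s + 2 * H < 2 ^ L → M * (2 ^ (8 * d) + 1) ≤ H →
    (∀ a ∈ A, ¬ (s < a ∧ a ≤ s + 2 * H)) →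
    ((A.filter (fun a => IsCoprime ((b : ℤ) - (a : ℤ)) (M : ℤ))).card : ℝ) ≤ c * d →
    ∃ n, s < n ∧ n ≤ s + 2 * H ∧ n ≡ b [MOD M] ∧ ∀ a ∈ A, a ≤ n → ¬ (n - a).Prime := by
  obtain ⟨c, hc, L0, hcore⟩ := coreD
  refine ⟨c, hc, L0, ?_⟩
  intro L d hL hLd hdL M hM hq b A s H h1 h2 h3 h4
  set w := s + H + 1 with hw
  set r := (b + w * (M - 1)) % M with hr
  have hrM : r < M := Nat.mod_lt _ hM
  have hn0 : w + r ≡ b [MOD M] := by
    have e1 : w + r ≡ w + (b + w * (M - 1)) [MOD M] :=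
      Nat.ModEq.add_left _ (Nat.mod_modEq _ _)
    have e2 : w + (b + w * (M - 1)) = b + M * w := by
      obtain ⟨M', rfl⟩ : ∃ M', M = M' + 1 := ⟨M - 1, by omega⟩
      simp only [Nat.add_sub_cancel]
      ring
    rw [e2] at e1
    exact e1.trans (by
      unfold Nat.ModEq
      simp)
  set B : Finset ℤ := (A.filter (fun a => a ≤ s ∧
    IsCoprime ((b : ℤ) - (a : ℤ)) (M : ℤ))).image (fun a : ℕ => (a : ℤ)) with hB
  have hcop : ∀ q : ℕ, q.Prime → L ^ 6 < q → Nat.Coprime M q := by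
    intro q hqp hqL
    rw [Nat.coprime_comm, Nat.Prime.coprime_iff_not_dvd hqp]
    intro hdvd
    have := hq q hqp hdvd
    omega
  have hBabs : ∀ x ∈ B, |x| ≤ 2 ^ L := by
    intro x hx
    rw [hB, mem_image] at hx
    obtain ⟨a, ha, rfl⟩ := hx
    rw [mem_filter] at ha
    have h5 : a ≤ s := ha.2.1
    have h6 : a ≤ 2 ^ L := by omega
    rw [abs_of_nonneg (by positivity)]
    exact_mod_cast h6
  have hBcard : (B.card : ℝ) ≤ c * d := by
    refine le_trans ?_ h4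
    have h5 : B.card ≤ (A.filter (fun a => IsCoprime ((b : ℤ) - (a : ℤ)) (M : ℤ))).card := by
      refine card_le_card ?_
      intro x hx
      rw [hB, mem_image] at hx
      obtain ⟨a, ha, rfl⟩ := hx
      rw [mem_filter] at ha
      rw [mem_filter]
      refine ⟨?_, ha.2.2⟩
      simp only [Finset.bind_def, Finset.pure_def, Finset.mem_sup, Finset.mem_singleton]
      exact ⟨a, ha.1, rfl⟩
    exact_mod_cast h5
  obtain ⟨t, ht, hkill⟩ := hcore L d hL hLd hdL M ((w + r : ℕ) : ℤ) B (2 ^ (8 * d)) hcop hBabs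
    hBcard le_rfl
  have hMt : M * t + M ≤ M * 2 ^ (8 * d) := by
    have : M * (t + 1) ≤ M * 2 ^ (8 * d) := Nat.mul_le_mul_left _ ht
    calc M * t + M = M * (t + 1) := by ring
      _ ≤ _ := this
  have hMH : M * 2 ^ (8 * d) + M ≤ H := by
    calc M * 2 ^ (8 * d) + M = M * (2 ^ (8 * d) + 1) := by ring
      _ ≤ H := h2
  have hnle : w + r + M * t ≤ s + 2 * H := by omega
  have hdH : 2 ^ d ≤ H := by
    have e1 : 2 ^ d ≤ 2 ^ (8 * d) := Nat.pow_le_pow_right (by norm_num) (by omega)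
    have e2 : 2 ^ (8 * d) ≤ M * 2 ^ (8 * d) := Nat.le_mul_of_pos_left _ hM
    omega
  have hmod : w + r + M * t ≡ b [MOD M] := by
    have : w + r + M * t ≡ w + r [MOD M] := by
      unfold Nat.ModEq
      simp
    exact this.trans hn0
  refine ⟨w + r + M * t, by omega, hnle, hmod, ?_⟩
  intro a ha han hprime
  have has : a ≤ s := by
    by_contra hcon
    exact h3 a ha ⟨by omega, by omega⟩
  have hbig : H < w + r + M * t - a := by omega
  by_cases hco : IsCoprime ((b : ℤ) - (a : ℤ)) (M : ℤ)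
  · have haB : (a : ℤ) ∈ B := by
      rw [hB, mem_image]
      exact ⟨a, mem_filter.mpr ⟨ha, has, hco⟩, rfl⟩
    obtain ⟨q, hqp, _, hqd, hqdvd⟩ := hkill _ haB
    have e1 : (q : ℤ) ∣ ((w + r + M * t - a : ℕ) : ℤ) := by
      rw [Nat.cast_sub han]
      push_cast at hqdvd ⊢
      exact hqdvd
    have e2 : q ∣ w + r + M * t - a := by exact_mod_cast e1
    have e3 := (Nat.prime_dvd_prime_iff_eq hqp hprime).mp e2
    omega
  · rw [Int.isCoprime_iff_gcd_eq_one] at hco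
    obtain ⟨q, hqp, hqdvd⟩ := Nat.exists_prime_and_dvd hco
    have e1 : (q : ℤ) ∣ (b : ℤ) - (a : ℤ) :=
      (Int.natCast_dvd_natCast.mpr hqdvd).trans (Int.gcd_dvd_left _ _)
    have e2 : (q : ℤ) ∣ (M : ℤ) :=
      (Int.natCast_dvd_natCast.mpr hqdvd).trans (Int.gcd_dvd_right _ _)
    have e3 : (M : ℤ) ∣ (b : ℤ) - ((w + r + M * t : ℕ) : ℤ) := (Nat.modEq_iff_dvd.mp hmod)
    have e4 : (q : ℤ) ∣ ((w + r + M * t - a : ℕ) : ℤ) := by
      rw [Nat.cast_sub han]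
      have e5 := dvd_sub e1 (e2.trans e3)
      have e6 : (b : ℤ) - (a : ℤ) - ((b : ℤ) - ((w + r + M * t : ℕ) : ℤ)) =
          ((w + r + M * t : ℕ) : ℤ) - (a : ℤ) := by ring
      rwa [e6] at e5
    have e7 : q ∣ w + r + M * t - a := by exact_mod_cast e4
    have e8 := (Nat.prime_dvd_prime_iff_eq hqp hprime).mp e7
    have e9 : q ∣ M := by exact_mod_cast e2
    have e10 := Nat.le_of_dvd hM e9
    omega

end Pool.Agent.RS
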