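import Mathlib

/-! RS/Sel.  Two pigeonhole lemmas.

`block`: the `m+1` blocks `(s_i, s_i + 2H]`, `s_i = s0 + 2 H i`, `i ≤ m`, are disjoint; one of them
contains no element of `A` (`m = A.card`).
`good_class`: for each `a` at most `φ(M)` classes `b mod M` have `gcd(b - a, M) = 1`; the number of
even `b < M` is `M/2`.  Double counting: some even `b` has
`#{a ∈ A : gcd (b - a, M) = 1} * (M/2) ≤ A.card * φ(M)`.  Here the coprimality is stated in `ℤ`. -/

namespace Pool.Agent.RS

open Finset

theorem block (A : Finset ℕ) (s0 H : ℕ) :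
    ∃ s, s0 ≤ s ∧ s + 2 * H ≤ s0 + 2 * H * (A.card + 1) ∧ ∀ a ∈ A, ¬ (s < a ∧ a ≤ s + 2 * H) := by
  by_contra hcon
  have key : ∀ i ∈ Finset.range (A.card + 1),
      ∃ a ∈ A, s0 + 2 * H * i < a ∧ a ≤ s0 + 2 * H * i + 2 * H := by
    intro i hi
    by_contra hno
    apply hcon
    refine ⟨s0 + 2 * H * i, Nat.le_add_right _ _, ?_, ?_⟩
    · have h1 : i + 1 ≤ A.card + 1 := by
        have := Finset.mem_range.1 hi
        omega
      have h2 := Nat.mul_le_mul_left (2 * H) h1
      have h3 : s0 + 2 * H * i + 2 * H = s0 + 2 * H * (i + 1) := by ring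
      rw [h3]
      exact Nat.add_le_add_left h2 s0
    · intro a ha h
      exact hno ⟨a, ha, h⟩
  choose! f hfA hf1 hf2 using key
  have hinj : Set.InjOn f (Finset.range (A.card + 1) : Finset ℕ) := by
    intro i hi j hj hij
    have hi' : i ∈ Finset.range (A.card + 1) := hi
    have hj' : j ∈ Finset.range (A.card + 1) := hj
    by_contra hne
    have h1 := hf1 i hi'
    have h2 := hf2 i hi'
    have h3 := hf1 j hj'
    have h4 := hf2 j hj'
    rw [hij] at h1 h2
    rcases lt_or_gt_of_ne hne with h | h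
    · have h5 : 2 * H * (i + 1) ≤ 2 * H * j := Nat.mul_le_mul_left _ h
      have h6 : 2 * H * (i + 1) = 2 * H * i + 2 * H := by ring
      omega
    · have h5 : 2 * H * (j + 1) ≤ 2 * H * i := Nat.mul_le_mul_left _ h
      have h6 : 2 * H * (j + 1) = 2 * H * j + 2 * H := by ring
      omega
  have hcard := Finset.card_le_card_of_injOn f (fun i hi => hfA i hi) hinj
  rw [Finset.card_range] at hcard
  omega

open Classical in
private lemma card_class {M : ℕ} (hM : 0 < M) (a : ℤ) :
    ((Finset.range M).filter (fun b : ℕ => IsCoprime ((b : ℤ) - a) (M : ℤ))).card ≤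
      Nat.totient M := by
  have hM' : (M : ℤ) ≠ 0 := by exact_mod_cast hM.ne'
  set k : ℕ := ((-a) % (M : ℤ)).toNat with hk
  have hk' : (k : ℤ) = (-a) % (M : ℤ) := Int.toNat_of_nonneg (Int.emod_nonneg _ hM')
  have hk2 : (k : ℤ) = -a - (M : ℤ) * ((-a) / (M : ℤ)) := by
    rw [hk']
    have := Int.emod_add_mul_ediv (-a) (M : ℤ)
    linarith
  rw [← Nat.filter_coprime_Ico_eq_totient M k]
  refine Finset.card_le_card_of_injOn (fun b => b + k) ?_ ?_
  · intro b hb
    have hb' := Finset.mem_filter.1 (Finset.mem_coe.1 hb)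
    apply Finset.mem_coe.2
    rw [Finset.mem_filter, Finset.mem_Ico]
    refine ⟨⟨?_, ?_⟩, ?_⟩
    · show k ≤ b + k
      omega
    · show b + k < k + M
      have := Finset.mem_range.1 hb'.1
      omega
    · show Nat.Coprime M (b + k)
      apply Nat.Coprime.symm
      rw [← Nat.isCoprime_iff_coprime]
      have h1 : ((b + k : ℕ) : ℤ) = ((b : ℤ) - a) + (M : ℤ) * (-((-a) / (M : ℤ))) := by
        push_cast
        rw [hk2]
        ring
      rw [h1]
      exact hb'.2.add_mul_left_left _
  · intro i _ j _ hij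
    have : i + k = j + k := hij
    omega

open Classical in
theorem good_class {M : ℕ} (hM : 0 < M) (h2 : 2 ∣ M) (A : Finset ℤ) :
    ∃ b : ℕ, b < M ∧ 2 ∣ b ∧
      ((A.filter (fun a => IsCoprime ((b : ℤ) - a) (M : ℤ))).card : ℝ) ≤
        2 * (A.card : ℝ) * (Nat.totient M : ℝ) / M := by
  obtain ⟨N, hN⟩ := h2
  have hNpos : 0 < N := by omega
  have hMR : (M : ℝ) = 2 * N := by rw [hN]; push_cast; ring
  have hNR : (0 : ℝ) < N := by exact_mod_cast hNpos
  by_contra hcon
  have hcon' : ∀ j ∈ Finset.range N, 2 * (A.card : ℝ) * (Nat.totient M : ℝ) / M <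
      ((A.filter (fun a => IsCoprime (((2 * j : ℕ) : ℤ) - a) (M : ℤ))).card : ℝ) := by
    intro j hj
    by_contra h
    apply hcon
    have := Finset.mem_range.1 hj
    exact ⟨2 * j, by omega, ⟨j, rfl⟩, not_lt.1 h⟩
  have hsum : ∑ j ∈ Finset.range N, (2 * (A.card : ℝ) * (Nat.totient M : ℝ) / M) <
      ∑ j ∈ Finset.range N,
        ((A.filter (fun a => IsCoprime (((2 * j : ℕ) : ℤ) - a) (M : ℤ))).card : ℝ) := by
    apply Finset.sum_lt_sum_of_nonempty
    · exact ⟨0, Finset.mem_range.2 hNpos⟩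
    · exact hcon'
  have hle : ∑ j ∈ Finset.range N,
      (A.filter (fun a => IsCoprime (((2 * j : ℕ) : ℤ) - a) (M : ℤ))).card ≤
      A.card * Nat.totient M := by
    have h1 : ∀ j ∈ Finset.range N,
        (A.filter (fun a => IsCoprime (((2 * j : ℕ) : ℤ) - a) (M : ℤ))).card =
        ∑ a ∈ A, if IsCoprime (((2 * j : ℕ) : ℤ) - a) (M : ℤ) then 1 else 0 := by
      intro j _
      rw [Finset.card_filter]
    rw [Finset.sum_congr rfl h1, Finset.sum_comm]
    have h3 : ∀ a ∈ A, (∑ j ∈ Finset.range N,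
        if IsCoprime (((2 * j : ℕ) : ℤ) - a) (M : ℤ) then 1 else 0) ≤ Nat.totient M := by
      intro a _
      rw [← Finset.card_filter]
      refine le_trans ?_ (card_class hM a)
      refine Finset.card_le_card_of_injOn (fun j => 2 * j) ?_ ?_
      · intro j hj
        have hj' := Finset.mem_filter.1 (Finset.mem_coe.1 hj)
        apply Finset.mem_coe.2
        rw [Finset.mem_filter, Finset.mem_range]
        refine ⟨?_, hj'.2⟩
        have := Finset.mem_range.1 hj'.1
        show 2 * j < M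
        omega
      · intro i _ j _ hij
        have : 2 * i = 2 * j := hij
        omega
    refine (Finset.sum_le_sum h3).trans ?_
    rw [Finset.sum_const, smul_eq_mul]
  have hle' : ∑ j ∈ Finset.range N,
      ((A.filter (fun a => IsCoprime (((2 * j : ℕ) : ℤ) - a) (M : ℤ))).card : ℝ) ≤
      (A.card : ℝ) * Nat.totient M := by exact_mod_cast hle
  have h5 : ∑ j ∈ Finset.range N, (2 * (A.card : ℝ) * (Nat.totient M : ℝ) / M) =
      (A.card : ℝ) * Nat.totient M := by
    rw [Finset.sum_const, Finset.card_range, nsmul_eq_mul, hMR]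
    field_simp
  rw [h5] at hsum
  exact absurd hle' (not_le.2 hsum)

end Pool.Agent.RS
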