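import Pool.Agent.RS.Core
import Pool.Agent.RS.Sel

/-! RS/Main.  THEOREM R.  `L = Nat.log 2 x + 1` (so `2^(L-1) ≤ x < 2^L`), `lam = Nat.log 2 L`, `w = 2^(lam-5) ≤ L/32`,
`M = primorial w ≤ 4^w ≤ 2^(L/16)` (even as `w ≥ 2`), `φ(M)/M = ∏_{q≤w} (1-1/q) ≤ 1/((lam-5) log 2)`
(`Helper52.prod_upper`), `H = 2^(L/2)`, `m = A.card ≤ c1 log x loglog x ≤ c1 (L+1)(lam+2)`.
* `block A s0 H` with `s0 = x/2`: `2 H (m+1) ≤ x/2 - 1`; get `s`.
* `A' = A.filter (· ≤ s)` (as integers), `good_class`: `b`; `n0` = least integer `≥ s + H` with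
  `n0 ≡ b mod M`; `B = {a ∈ A' : IsCoprime (n0 - a) M}`,
  `B.card ≤ 2 m /((lam-5) log 2) ≤ c L` for `c1` small.
* `T = 2^(L/3)`: `n0 + M T ≤ s + H + M + M T ≤ s + 2H`.
* `core` with `L`: get `t`; `n = n0 + M t` is even, `x/2 < n ≤ x`.  For `a ∈ A`, `a ≤ n`: `a ≤ s`
  (no element in the block), so `n - a ≥ H`.  If `a ∈ B`: a prime `q ≤ 2^(L/48) < H` divides `n - a`.
  If not: a prime `q ∣ M`, `q ≤ w < H` divides `n - a` (`n ≡ n0 mod M`).  So `n - a` is not prime. -/

namespace Pool.Agent.RS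

open Finset

private theorem totient_ratio (w : ℕ) : (Nat.totient (primorial w) : ℝ) / (primorial w : ℝ) =
    ∏ q ∈ Pool.Agent.Helper52.pr 0 w, (1 - 1 / (q : ℝ)) := by
  have h1 := Nat.totient_eq_mul_prod_factors (primorial w)
  have h2 : (Nat.totient (primorial w) : ℝ) =
      (primorial w : ℝ) * ∏ q ∈ (primorial w).primeFactors, (1 - ((q : ℝ))⁻¹) := by
    have := congrArg (fun z : ℚ => (z : ℝ)) h1
    push_cast at this
    exact this
  have h0 : (primorial w : ℝ) ≠ 0 := by exact_mod_cast primorial_ne_zero w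
  rw [h2, mul_div_cancel_left₀ _ h0]
  apply Finset.prod_congr
  · ext q
    rw [Pool.Agent.Helper52.mem_pr, Nat.mem_primeFactors]
    constructor
    · rintro ⟨hq, hd, _⟩
      exact ⟨hq.pos, (hq.dvd_primorial_iff).mp hd, hq⟩
    · rintro ⟨_, hle, hq⟩
      exact ⟨hq, (hq.dvd_primorial_iff).mpr hle, primorial_ne_zero w⟩
  · intro q _
    rw [one_div]

private theorem growth (k : ℕ) (hk : 10 ≤ k) : (2 * k + 7) ^ 2 + 1 ≤ 2 ^ k := by
  induction k, hk using Nat.le_induction with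
  | base => norm_num
  | succ k hk ih =>
    have h1 : 2 ^ (k + 1) = 2 * 2 ^ k := pow_succ' 2 k
    rw [h1]
    nlinarith

private theorem not_prime_of_small {n a q H : ℕ} (hq : q.Prime) (hqH : q < H) (hH : H ≤ n - a)
    (hd : (q : ℤ) ∣ (n : ℤ) - a) (han : a ≤ n) : ¬ (n - a).Prime := by
  intro hp
  have h1 : q ∣ n - a := by
    have : ((n - a : ℕ) : ℤ) = (n : ℤ) - a := by push_cast [han]; ring
    rw [← this] at hd
    exact_mod_cast hd
  have h2 := (Nat.prime_dvd_prime_iff_eq hq hp).mp h1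
  omega

/-- the numerical facts about the parameters -/
private theorem log_bounds {x L lam : ℕ} (hx : 3 ≤ x) (hxL : x < 2 ^ L) (hL : L < 2 ^ (lam + 1)) :
    Real.log x * Real.log (Real.log x) ≤ (L : ℝ) * ((lam : ℝ) + 1) * Real.log 2 := by
  have hl2 : 0 < Real.log 2 := Real.log_pos (by norm_num)
  have hl2' : Real.log 2 ≤ 1 := by have := Real.log_two_lt_d9; linarith
  have hx3 : (3 : ℝ) ≤ x := by exact_mod_cast hx
  have h1 : Real.log x ≤ L * Real.log 2 := by
    rw [← Real.log_pow]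
    apply Real.log_le_log (by linarith)
    exact_mod_cast hxL.le
  have h1' : Real.log x ≤ L := h1.trans (by
    have : (0 : ℝ) ≤ L := Nat.cast_nonneg L
    nlinarith)
  have h2 : 1 ≤ Real.log x := by
    rw [← Real.log_exp 1]
    apply Real.log_le_log (Real.exp_pos 1)
    have := Real.exp_one_lt_d9
    linarith
  have h3 : Real.log (Real.log x) ≤ ((lam : ℝ) + 1) * Real.log 2 := by
    have h4 : ((lam : ℝ) + 1) * Real.log 2 = Real.log (2 ^ (lam + 1)) := by
      rw [Real.log_pow]; push_cast; ring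
    rw [h4]
    apply Real.log_le_log (by linarith)
    refine h1'.trans ?_
    exact_mod_cast hL.le
  have h5 : 0 ≤ Real.log (Real.log x) := Real.log_nonneg h2
  calc Real.log x * Real.log (Real.log x) ≤ L * (((lam : ℝ) + 1) * Real.log 2) :=
        mul_le_mul h1' h3 h5 (Nat.cast_nonneg L)
    _ = _ := by ring

theorem mainR : ∃ c : ℝ, 0 < c ∧ ∃ x0 : ℕ, ∀ x : ℕ, x0 ≤ x → ∀ A : Finset ℕ,
    (A.card : ℝ) ≤ c * Real.log x * Real.log (Real.log x) →
    ∃ n : ℕ, x < 2 * n ∧ n ≤ x ∧ Even n ∧ ∀ a ∈ A, a ≤ n → ¬ (n - a).Prime := by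
  classical
  obtain ⟨c, hc, L0, hcore⟩ := core
  refine ⟨min (c / 4) 1, lt_min (by linarith) one_pos, 2 ^ (L0 + 2048), ?_⟩
  intro x hx A hA
  set L : ℕ := Nat.log 2 x + 1 with hLdef
  have hx0 : x ≠ 0 := by
    have : 0 < 2 ^ (L0 + 2048) := by positivity
    omega
  have hxL : x < 2 ^ L := Nat.lt_pow_succ_log_self (by norm_num) x
  have hLx : 2 ^ (L - 1) ≤ x := by
    rw [hLdef, Nat.add_sub_cancel]
    exact Nat.pow_log_le_self 2 hx0
  have hLbig : L0 + 2048 ≤ L := by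
    have h1 : Nat.log 2 (2 ^ (L0 + 2048)) ≤ Nat.log 2 x := Nat.log_mono_right hx
    rw [Nat.log_pow (by norm_num)] at h1
    omega
  have hx3 : 3 ≤ x := by
    have h1 : 2 ^ 2 ≤ 2 ^ (L0 + 2048) := Nat.pow_le_pow_right (by norm_num) (by omega)
    omega
  set lam : ℕ := Nat.log 2 L with hlam
  have hL0' : L ≠ 0 := by omega
  have hlamL : 2 ^ lam ≤ L := Nat.pow_log_le_self 2 hL0'
  have hLlam : L < 2 ^ (lam + 1) := Nat.lt_pow_succ_log_self (by norm_num) L
  have hlam11 : 11 ≤ lam := by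
    have h1 : Nat.log 2 (2 ^ 11) ≤ Nat.log 2 L := Nat.log_mono_right (by norm_num; omega)
    rw [Nat.log_pow (by norm_num)] at h1
    exact h1
  set w : ℕ := 2 ^ (lam - 5) with hw
  have hw32 : 32 * w ≤ L := by
    have : 32 * w = 2 ^ lam := by
      rw [hw, show (32 : ℕ) = 2 ^ 5 by norm_num, ← pow_add]
      congr 1
      omega
    omega
  have hw2 : 2 ≤ w := by
    rw [hw]
    calc 2 = 2 ^ 1 := by norm_num
      _ ≤ 2 ^ (lam - 5) := Nat.pow_le_pow_right (by norm_num) (by omega)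
  set M : ℕ := primorial w with hM
  have hM0 : 0 < M := primorial_pos w
  have hM2 : 2 ∣ M := (Nat.prime_two.dvd_primorial_iff).mpr hw2
  have hMle : M ≤ 2 ^ (L / 16) := by
    refine (primorial_le_four_pow w).trans ?_
    rw [show (4 : ℕ) = 2 ^ 2 by norm_num, ← pow_mul]
    exact Nat.pow_le_pow_right (by norm_num) (by omega)
  set H : ℕ := 2 ^ (L / 2) with hH
  have hwH : w < H := by
    have h1 : L / 2 < 2 ^ (L / 2) := Nat.lt_two_pow_self
    omega
  -- bound for the number of elements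
  have hlogs := log_bounds hx3 hxL hLlam
  have hl2 : 0 < Real.log 2 := Real.log_pos (by norm_num)
  have hl2' : Real.log 2 ≤ 1 := by have := Real.log_two_lt_d9; linarith
  have hpos : 0 ≤ Real.log x * Real.log (Real.log x) := by
    have hx3r : (3 : ℝ) ≤ x := by exact_mod_cast hx3
    have h2 : 1 ≤ Real.log x := by
      rw [← Real.log_exp 1]
      apply Real.log_le_log (Real.exp_pos 1)
      have := Real.exp_one_lt_d9
      linarith
    exact mul_nonneg (by linarith) (Real.log_nonneg h2)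
  have hm1 : (A.card : ℝ) ≤ c / 4 * ((L : ℝ) * ((lam : ℝ) + 1) * Real.log 2) := by
    refine hA.trans ?_
    rw [mul_assoc]
    exact mul_le_mul (min_le_left _ _) hlogs hpos (by linarith)
  have hm2 : (A.card : ℝ) ≤ (L : ℝ) * ((lam : ℝ) + 1) := by
    refine hA.trans ?_
    rw [mul_assoc]
    calc min (c / 4) 1 * (Real.log x * Real.log (Real.log x)) ≤ 1 * ((L : ℝ) * ((lam : ℝ) + 1) * Real.log 2) :=
          mul_le_mul (min_le_right _ _) hlogs hpos zero_le_one
      _ ≤ _ := by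
          have h0 : (0 : ℝ) ≤ (L : ℝ) * ((lam : ℝ) + 1) := by positivity
          rw [one_mul]
          exact mul_le_of_le_one_right h0 hl2'
  have hlamlt : lam + 1 ≤ L := by
    have : lam < 2 ^ lam := Nat.lt_two_pow_self
    omega
  have hm3 : A.card ≤ L * L := by
    have h1 : A.card ≤ L * (lam + 1) := by exact_mod_cast hm2
    exact h1.trans (Nat.mul_le_mul_left _ hlamlt)
  have hm4 : A.card + 1 ≤ 2 ^ (L / 2 - 3) := by
    refine le_trans ?_ (growth (L / 2 - 3) (by omega))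
    have h1 : L ≤ 2 * (L / 2 - 3) + 7 := by omega
    have h2 : L * L ≤ (2 * (L / 2 - 3) + 7) ^ 2 := by
      rw [pow_two]
      exact Nat.mul_le_mul h1 h1
    omega
  -- the block
  obtain ⟨s, hs0, hs1, hs2⟩ := block A (x / 2) H
  have hsx : s + 2 * H ≤ x := by
    refine hs1.trans ?_
    have h1 : 2 * H * (A.card + 1) ≤ 2 ^ (L - 2) := by
      calc 2 * H * (A.card + 1) ≤ 2 * H * 2 ^ (L / 2 - 3) := Nat.mul_le_mul_left _ hm4
        _ = 2 ^ (1 + L / 2 + (L / 2 - 3)) := by rw [hH, pow_add, pow_add, pow_one]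
        _ ≤ 2 ^ (L - 2) := Nat.pow_le_pow_right (by norm_num) (by omega)
    have h2 : 2 * 2 ^ (L - 2) = 2 ^ (L - 1) := by
      rw [mul_comm, ← pow_succ]
      congr 1
      omega
    omega
  -- the class
  set A' : Finset ℤ := (A.filter (· ≤ s)).image (fun a : ℕ => (a : ℤ)) with hA'
  obtain ⟨b, hbM, hb2, hb⟩ := good_class hM0 hM2 A'
  set B : Finset ℤ := A'.filter (fun a => IsCoprime ((b : ℤ) - a) (M : ℤ)) with hB
  have hBcard : (B.card : ℝ) ≤ c * L := by
    have h1 : (A'.card : ℝ) ≤ A.card := by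
      have : A'.card ≤ A.card := card_image_le.trans (card_filter_le _ _)
      exact_mod_cast this
    have h2 : (Nat.totient M : ℝ) / M ≤ 1 / (((lam - 5 : ℕ) : ℝ) * Real.log 2) := by
      rw [hM, totient_ratio, hw]
      exact Pool.Agent.Helper52.prod_upper (by omega)
    have h3 : ((lam - 5 : ℕ) : ℝ) = (lam : ℝ) - 5 := by
      rw [Nat.cast_sub (by omega)]; norm_num
    have h4 : (11 : ℝ) ≤ lam := by exact_mod_cast hlam11
    have h5 : (0 : ℝ) ≤ (Nat.totient M : ℝ) / M := by positivity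
    calc (B.card : ℝ) ≤ 2 * (A'.card : ℝ) * (Nat.totient M : ℝ) / M := hb
      _ = 2 * (A'.card : ℝ) * ((Nat.totient M : ℝ) / M) := by ring
      _ ≤ 2 * (c / 4 * ((L : ℝ) * ((lam : ℝ) + 1) * Real.log 2)) *
            (1 / (((lam : ℝ) - 5) * Real.log 2)) := by
          rw [← h3]
          apply mul_le_mul _ h2 h5
          · have : (0 : ℝ) ≤ (L : ℝ) * ((lam : ℝ) + 1) * Real.log 2 := by positivity
            positivity
          · linarith [h1.trans hm1]
      _ = c * L * ((((lam : ℝ) + 1) / (2 * ((lam : ℝ) - 5)))) := by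
          have h6 : (lam : ℝ) - 5 ≠ 0 := by linarith
          field_simp
          ring
      _ ≤ c * L * 1 := by
          apply mul_le_mul_of_nonneg_left _ (by positivity)
          rw [div_le_one (by linarith)]
          linarith
      _ = c * L := mul_one _
  -- the starting point
  set n0 : ℤ := ((s + H : ℕ) : ℤ) + ((b : ℤ) - ((s + H : ℕ) : ℤ)) % (M : ℤ) with hn0
  have hMz : (0 : ℤ) < M := by exact_mod_cast hM0
  have hn0a : ((s + H : ℕ) : ℤ) ≤ n0 := by
    have := Int.emod_nonneg ((b : ℤ) - ((s + H : ℕ) : ℤ)) hMz.ne'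
    omega
  have hn0b : n0 < ((s + H : ℕ) : ℤ) + M := by
    have := Int.emod_lt_of_pos ((b : ℤ) - ((s + H : ℕ) : ℤ)) hMz
    omega
  have hn0c : (M : ℤ) ∣ n0 - b := by
    have h1 := Int.emod_add_mul_ediv ((b : ℤ) - ((s + H : ℕ) : ℤ)) (M : ℤ)
    refine ⟨-(((b : ℤ) - ((s + H : ℕ) : ℤ)) / (M : ℤ)), ?_⟩
    rw [hn0]
    linarith
  obtain ⟨t, htT, ht⟩ := hcore L (by omega) M n0 B (2 ^ (L / 3)) (by
      intro q hq hqL
      rw [Nat.coprime_comm, hq.coprime_iff_not_dvd]
      intro hd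
      have h1 : q ≤ w := (hq.dvd_primorial_iff).mp hd
      have h2 : L ≤ L ^ 6 := Nat.le_self_pow (by norm_num) L
      omega) (by
      intro a ha
      rw [hB, mem_filter, hA', mem_image] at ha
      obtain ⟨⟨a', ha', rfl⟩, _⟩ := ha
      rw [mem_filter] at ha'
      rw [abs_of_nonneg (Int.natCast_nonneg _)]
      have : a' ≤ 2 ^ L := by omega
      exact_mod_cast this) hBcard le_rfl
  have hMT : M * 2 ^ (L / 3) ≤ H := by
    calc M * 2 ^ (L / 3) ≤ 2 ^ (L / 16) * 2 ^ (L / 3) := Nat.mul_le_mul_right _ hMle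
      _ = 2 ^ (L / 16 + L / 3) := by rw [pow_add]
      _ ≤ 2 ^ (L / 2) := Nat.pow_le_pow_right (by norm_num) (by omega)
  have hMt : M * t + M ≤ H := by
    calc M * t + M = M * (t + 1) := by ring
      _ ≤ M * 2 ^ (L / 3) := Nat.mul_le_mul_left _ htT
      _ ≤ H := hMT
  obtain ⟨n, hn⟩ : ∃ n : ℕ, (n : ℤ) = n0 + M * t := by
    have h1 : (0 : ℤ) ≤ n0 + M * t := by
      have : (0 : ℤ) ≤ (M : ℤ) * t := by positivity
      omega
    exact ⟨(n0 + M * t).toNat, Int.toNat_of_nonneg h1⟩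
  have hMtz : ((M * t + M : ℕ) : ℤ) ≤ H := by exact_mod_cast hMt
  have hMt0 : (0 : ℤ) ≤ (M : ℤ) * t := by positivity
  have hnlow : s + H ≤ n := by
    have : ((s + H : ℕ) : ℤ) ≤ n := by rw [hn]; omega
    exact_mod_cast this
  have hnup : n ≤ s + 2 * H := by
    have : (n : ℤ) ≤ ((s + 2 * H : ℕ) : ℤ) := by
      rw [hn]
      push_cast at hMtz hn0b ⊢
      linarith
    exact_mod_cast this
  have hH1 : 1 ≤ H := Nat.one_le_two_pow
  refine ⟨n, by omega, by omega, ?_, ?_⟩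
  · have h1 : (2 : ℤ) ∣ n := by
      have h2 : (2 : ℤ) ∣ M := by exact_mod_cast hM2
      have h3 : (2 : ℤ) ∣ b := by exact_mod_cast hb2
      have h4 : (2 : ℤ) ∣ n0 - b := h2.trans hn0c
      have h5 : (2 : ℤ) ∣ M * t := Dvd.dvd.mul_right h2 _
      have h6 : (n : ℤ) = (n0 - b) + b + M * t := by rw [hn]; ring
      rw [h6]
      exact dvd_add (dvd_add h4 h3) h5
    exact even_iff_two_dvd.mpr (by exact_mod_cast h1)
  · intro a ha han
    have has : a ≤ s := by
      by_contra hcon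
      exact hs2 a ha ⟨by omega, by omega⟩
    have hHle : H ≤ n - a := by omega
    have haA' : (a : ℤ) ∈ A' := by
      rw [hA', mem_image]
      exact ⟨a, by rw [mem_filter]; exact ⟨ha, has⟩, rfl⟩
    by_cases haB : IsCoprime ((b : ℤ) - a) (M : ℤ)
    · obtain ⟨q, hq, _, hqu, hqd⟩ := ht a (by rw [hB, mem_filter]; exact ⟨haA', haB⟩)
      refine not_prime_of_small hq (H := H) ?_ hHle (by rw [hn]; exact hqd) han
      refine hqu.trans_lt ?_
      exact Nat.pow_lt_pow_right (by norm_num) (by omega)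
    · rw [Int.isCoprime_iff_gcd_eq_one] at haB
      obtain ⟨q, hq, hqd⟩ := Nat.exists_prime_and_dvd haB
      have h1 : (q : ℤ) ∣ (b : ℤ) - a :=
        (Int.natCast_dvd_natCast.mpr hqd).trans (Int.gcd_dvd_left _ _)
      have h2 : (q : ℤ) ∣ (M : ℤ) :=
        (Int.natCast_dvd_natCast.mpr hqd).trans (Int.gcd_dvd_right _ _)
      have h3 : q ≤ w := (hq.dvd_primorial_iff).mp (by exact_mod_cast h2)
      refine not_prime_of_small hq (H := H) (by omega) hHle ?_ han
      have h4 : (q : ℤ) ∣ n0 - b := h2.trans hn0c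
      have h5 : (q : ℤ) ∣ M * t := Dvd.dvd.mul_right h2 _
      have h6 : (n : ℤ) - a = (n0 - b) + ((b : ℤ) - a) + M * t := by rw [hn]; ring
      rw [h6]
      exact dvd_add (dvd_add h4 h1) h5

end Pool.Agent.RS
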