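import Mathlib

/-! RS/Sel2.  Pigeonhole lemmas.

`good_class2`: for each `a` exactly `φ(M)` of the `b < M` have `gcd(b - a, M) = 1`
(`b ↦ (b - a) mod M` is a bijection of `ZMod M`; `≤ φ(M)` is enough); double counting.
`count_blocks`: the `m` blocks `(s0 + 2 H i, s0 + 2 H (i+1)]`, `i < m`, are disjoint; at most
`A.card` of them contain an element of `A`; each of the others contains some `n` with `P n`. -/

namespace Pool.Agent.RS

open Finset

open Classical in
private lemma card_class2 {M : ℕ} (hM : 0 < M) (a : ℤ) :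
    ((Finset.range M).filter (fun b : ℕ => IsCoprime ((b : ℤ) - a) (M : ℤ))).card ≤
      Nat.totient M := by
  have hM' : (M : ℤ) ≠ 0 := by exact_mod_cast hM.ne'
  set k : ℕ := ((-a) % (M : ℤ)).toNat with hk
  have hk' : (k : ℤ) = (-a) % (M : ℤ) := Int.toNat_of_nonneg (Int.emod_nonneg _ hM')
  have hk2 : (k : ℤ) = -a - (M : ℤ) * ((-a) / (M : ℤ)) := by
    rw [hk']
    have := Int.emod_add_mul_ediv (-a) (M : ℤ)
    linarith
  rw [← Nat.filter_coprime_Ico_eq_totient M k]
  refine Finset.card_le_card_of_injOn (fun b => b + k) ?_ ?_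
  · intro b hb
    have hb' := Finset.mem_filter.1 (Finset.mem_coe.1 hb)
    apply Finset.mem_coe.2
    rw [Finset.mem_filter, Finset.mem_Ico]
    refine ⟨⟨?_, ?_⟩, ?_⟩
    · show k ≤ b + k
      omega
    · show b + k < k + M
      have := Finset.mem_range.1 hb'.1
      omega
    · show Nat.Coprime M (b + k)
      apply Nat.Coprime.symm
      rw [← Nat.isCoprime_iff_coprime]
      have h1 : ((b + k : ℕ) : ℤ) = ((b : ℤ) - a) + (M : ℤ) * (-((-a) / (M : ℤ))) := by
        push_cast
        rw [hk2]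
        ring
      rw [h1]
      exact hb'.2.add_mul_left_left _
  · intro i _ j _ hij
    have : i + k = j + k := hij
    omega

open Classical in
/-- the version with the elements of `A` as natural numbers (in `good_class2` the variable `a` is
elaborated as an integer, so there the filter runs over the image of `A` in the integers) -/
theorem good_class2_nat {M : ℕ} (hM : 0 < M) (A : Finset ℕ) :
    ∃ b : ℕ, b < M ∧
      ((A.filter (fun a : ℕ => IsCoprime ((b : ℤ) - (a : ℤ)) (M : ℤ))).card : ℝ) ≤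
        (A.card : ℝ) * ((Nat.totient M : ℝ) / M) := by
  have hMR : (0 : ℝ) < M := by exact_mod_cast hM
  by_contra hcon
  have hcon' : ∀ b ∈ Finset.range M, (A.card : ℝ) * ((Nat.totient M : ℝ) / M) <
      ((A.filter (fun a : ℕ => IsCoprime ((b : ℤ) - (a : ℤ)) (M : ℤ))).card : ℝ) := by
    intro b hb
    by_contra h
    apply hcon
    exact ⟨b, Finset.mem_range.1 hb, not_lt.1 h⟩
  have hsum : ∑ b ∈ Finset.range M, ((A.card : ℝ) * ((Nat.totient M : ℝ) / M)) <
      ∑ b ∈ Finset.range M,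
        ((A.filter (fun a : ℕ => IsCoprime ((b : ℤ) - (a : ℤ)) (M : ℤ))).card : ℝ) := by
    apply Finset.sum_lt_sum_of_nonempty
    · exact ⟨0, Finset.mem_range.2 hM⟩
    · exact hcon'
  have hle : ∑ b ∈ Finset.range M,
      (A.filter (fun a : ℕ => IsCoprime ((b : ℤ) - (a : ℤ)) (M : ℤ))).card ≤
      A.card * Nat.totient M := by
    have h1 : ∀ b ∈ Finset.range M,
        (A.filter (fun a : ℕ => IsCoprime ((b : ℤ) - (a : ℤ)) (M : ℤ))).card =
        ∑ a ∈ A, if IsCoprime ((b : ℤ) - (a : ℤ)) (M : ℤ) then 1 else 0 := by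
      intro b _
      rw [Finset.card_filter]
    rw [Finset.sum_congr rfl h1, Finset.sum_comm]
    have h3 : ∀ a ∈ A, (∑ b ∈ Finset.range M,
        if IsCoprime ((b : ℤ) - (a : ℤ)) (M : ℤ) then 1 else 0) ≤ Nat.totient M := by
      intro a _
      rw [← Finset.card_filter]
      exact card_class2 hM a
    refine (Finset.sum_le_sum h3).trans ?_
    rw [Finset.sum_const, smul_eq_mul]
  have hle' : ∑ b ∈ Finset.range M,
      ((A.filter (fun a : ℕ => IsCoprime ((b : ℤ) - (a : ℤ)) (M : ℤ))).card : ℝ) ≤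
      (A.card : ℝ) * Nat.totient M := by exact_mod_cast hle
  have h5 : ∑ b ∈ Finset.range M, ((A.card : ℝ) * ((Nat.totient M : ℝ) / M)) =
      (A.card : ℝ) * Nat.totient M := by
    rw [Finset.sum_const, Finset.card_range, nsmul_eq_mul]
    field_simp
  rw [h5] at hsum
  exact absurd hle' (not_le.2 hsum)

open Classical in
theorem good_class2 {M : ℕ} (hM : 0 < M) (A : Finset ℕ) :
    ∃ b : ℕ, b < M ∧
      ((A.filter (fun a => IsCoprime ((b : ℤ) - (a : ℤ)) (M : ℤ))).card : ℝ) ≤
        (A.card : ℝ) * ((Nat.totient M : ℝ) / M) := by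
  obtain ⟨b, hb1, hb2⟩ := good_class2_nat hM A
  refine ⟨b, hb1, ?_⟩
  have h : (do let a ← A; pure (a : ℤ) : Finset ℤ) = A.image (fun a : ℕ => (a : ℤ)) := by
    ext z
    simp [Finset.bind_def, Finset.pure_def, Finset.mem_image, eq_comm]
  rw [h, Finset.filter_image, Finset.card_image_of_injective _ Nat.cast_injective]
  exact hb2

open Classical in
theorem count_blocks (A : Finset ℕ) (P : ℕ → Prop) (s0 H m : ℕ)
    (h : ∀ s, s0 ≤ s → s + 2 * H ≤ s0 + 2 * H * m → (∀ a ∈ A, ¬ (s < a ∧ a ≤ s + 2 * H)) →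
      ∃ n, s < n ∧ n ≤ s + 2 * H ∧ P n) :
    m ≤ ((Finset.Ioc s0 (s0 + 2 * H * m)).filter P).card + A.card := by
  set I1 := (Finset.range m).filter
    (fun i => ∃ n, s0 + 2 * H * i < n ∧ n ≤ s0 + 2 * H * i + 2 * H ∧ P n) with hI1
  set I2 := (Finset.range m).filter
    (fun i => ¬ ∃ n, s0 + 2 * H * i < n ∧ n ≤ s0 + 2 * H * i + 2 * H ∧ P n) with hI2
  have hsplit : I1.card + I2.card = m := by
    rw [hI1, hI2, Finset.card_filter_add_card_filter_not, Finset.card_range]
  have hstep : ∀ i j : ℕ, i < j → s0 + 2 * H * i + 2 * H ≤ s0 + 2 * H * j := by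
    intro i j hij
    have h5 : 2 * H * (i + 1) ≤ 2 * H * j := Nat.mul_le_mul_left _ hij
    have h6 : 2 * H * (i + 1) = 2 * H * i + 2 * H := by ring
    omega
  have hinj : ∀ (f : ℕ → ℕ) (I : Finset ℕ),
      (∀ i ∈ I, s0 + 2 * H * i < f i ∧ f i ≤ s0 + 2 * H * i + 2 * H) →
      Set.InjOn f (I : Set ℕ) := by
    intro f I hf i hi j hj hij
    by_contra hne
    have h1 := hf i hi
    have h2 := hf j hj
    rw [hij] at h1
    rcases lt_or_gt_of_ne hne with h | h
    · have := hstep i j h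
      omega
    · have := hstep j i h
      omega
  have h1 : I1.card ≤ ((Finset.Ioc s0 (s0 + 2 * H * m)).filter P).card := by
    have key : ∀ i ∈ I1, ∃ n, s0 + 2 * H * i < n ∧ n ≤ s0 + 2 * H * i + 2 * H ∧ P n := by
      intro i hi
      rw [hI1, Finset.mem_filter] at hi
      exact hi.2
    choose! f hf1 hf2 hf3 using key
    refine Finset.card_le_card_of_injOn f ?_ (hinj f I1 fun i hi => ⟨hf1 i hi, hf2 i hi⟩)
    intro i hi
    have hi' : i ∈ I1 := hi
    apply Finset.mem_coe.2
    rw [Finset.mem_filter, Finset.mem_Ioc]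
    have h2 := hf1 i hi'
    have h3 := hf2 i hi'
    refine ⟨⟨by omega, ?_⟩, hf3 i hi'⟩
    rw [hI1, Finset.mem_filter, Finset.mem_range] at hi'
    have := hstep i m hi'.1
    omega
  have h2 : I2.card ≤ A.card := by
    have key : ∀ i ∈ I2, ∃ a ∈ A, s0 + 2 * H * i < a ∧ a ≤ s0 + 2 * H * i + 2 * H := by
      intro i hi
      rw [hI2, Finset.mem_filter, Finset.mem_range] at hi
      by_contra hno
      apply hi.2
      refine h (s0 + 2 * H * i) (Nat.le_add_right _ _) (hstep i m hi.1) ?_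
      intro a ha hlt
      exact hno ⟨a, ha, hlt⟩
    choose! f hfA hf1 hf2 using key
    refine Finset.card_le_card_of_injOn f (fun i hi => hfA i hi)
      (hinj f I2 fun i hi => ⟨hf1 i hi, hf2 i hi⟩)
  omega

end Pool.Agent.RS
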