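import Pool.Agent.RS.Kill
import Pool.Agent.RS.Sel2

/-! RS/MainC.  THEOREM R with counting. -/

namespace Pool.Agent.RS

open Finset

/-- the product of the primes up to `w` which do not divide `W` -/
private def mcM (W w : ℕ) : ℕ := ∏ q ∈ (range (w + 1)).filter (fun q => q.Prime ∧ ¬ q ∣ W), q

private theorem mcM_pos (W w : ℕ) : 0 < mcM W w :=
  prod_pos fun _ hq => ((mem_filter.mp hq).2.1).pos

private theorem mcM_coprime (W w : ℕ) : Nat.Coprime W (mcM W w) := by
  apply Nat.Coprime.prod_right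
  intro q hq
  rw [mem_filter] at hq
  exact ((hq.2.1.coprime_iff_not_dvd).mpr hq.2.2).symm

private theorem mcM_dvd (W w : ℕ) : mcM W w ∣ primorial w := by
  unfold mcM primorial
  apply prod_dvd_prod_of_subset
  intro q hq
  rw [mem_filter] at hq ⊢
  exact ⟨hq.1, hq.2.1⟩

private theorem mcM_le (W w : ℕ) : mcM W w ≤ 4 ^ w :=
  (Nat.le_of_dvd (primorial_pos w) (mcM_dvd W w)).trans (primorial_le_four_pow w)

private theorem mcM_prime {W w q : ℕ} (hq : q.Prime) (h : q ∣ mcM W w) : q ≤ w :=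
  (hq.dvd_primorial_iff).mp (h.trans (mcM_dvd W w))

private theorem mc_ratio {W b : ℕ} (hW : 0 < W) (hb : 1 ≤ b) (hWw : W ≤ 2 ^ b) :
    (Nat.totient (mcM W (2 ^ b)) : ℝ) / (mcM W (2 ^ b) : ℝ) ≤
      ((W : ℝ) / Nat.totient W) * (1 / (b * Real.log 2)) := by
  set w := 2 ^ b with hw
  set P := mcM W w with hP
  have hP0 : 0 < P := mcM_pos W w
  have h1 := Nat.totient_eq_mul_prod_factors (W * P)
  have h2 : (Nat.totient (W * P) : ℝ) =
      ((W * P : ℕ) : ℝ) * ∏ q ∈ (W * P).primeFactors, (1 - ((q : ℝ))⁻¹) := by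
    have := congrArg (fun z : ℚ => (z : ℝ)) h1
    push_cast at this ⊢
    exact this
  have h3 : ∏ q ∈ (W * P).primeFactors, (1 - ((q : ℝ))⁻¹) =
      ∏ q ∈ Pool.Agent.Helper52.pr 0 w, (1 - 1 / (q : ℝ)) := by
    apply prod_congr
    · ext q
      rw [Pool.Agent.Helper52.mem_pr, Nat.mem_primeFactors]
      constructor
      · rintro ⟨hq, hd, _⟩
        refine ⟨hq.pos, ?_, hq⟩
        rcases (hq.dvd_mul).mp hd with h | h
        · exact (Nat.le_of_dvd hW h).trans hWw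
        · exact mcM_prime hq h
      · rintro ⟨_, hle, hq⟩
        refine ⟨hq, ?_, (Nat.mul_pos hW hP0).ne'⟩
        by_cases h : q ∣ W
        · exact h.mul_right _
        · apply Dvd.dvd.mul_left
          exact dvd_prod_of_mem (fun q => q)
            (mem_filter.mpr ⟨mem_range.mpr (Nat.lt_succ_of_le hle), hq, h⟩)
    · intro q _
      rw [one_div]
  have h4 := Pool.Agent.Helper52.prod_upper hb
  rw [h3, Nat.totient_mul (mcM_coprime W w), ← hP] at h2
  push_cast at h2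
  have hWr : (0 : ℝ) < W := by exact_mod_cast hW
  have hPr : (0 : ℝ) < P := by exact_mod_cast hP0
  have hφW : (0 : ℝ) < Nat.totient W := by exact_mod_cast Nat.totient_pos.mpr hW
  rw [← hw] at h4
  have h5 : (Nat.totient P : ℝ) / (P : ℝ) =
      ((W : ℝ) / Nat.totient W) * ∏ q ∈ Pool.Agent.Helper52.pr 0 w, (1 - 1 / (q : ℝ)) := by
    rw [div_mul_eq_mul_div, div_eq_div_iff hPr.ne' hφW.ne']
    linarith
  rw [h5]
  exact mul_le_mul_of_nonneg_left h4 (by positivity)

private theorem mc_growth (k : ℕ) (hk : 20 ≤ k) : (2 * k + 12) ^ 2 + 1 ≤ 2 ^ k := by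
  induction k, hk using Nat.le_induction with
  | base => norm_num
  | succ k hk ih =>
    have h1 : 2 ^ (k + 1) = 2 * 2 ^ k := pow_succ' 2 k
    rw [h1]
    nlinarith

/-- the numerical facts about the logarithms -/
private theorem mc_logs {x L lam : ℕ} (hxL : x < 2 ^ L) (hLx : 2 ^ (L - 1) ≤ x)
    (hL : L < 2 ^ (lam + 1)) (hL4 : 5 ≤ L) :
    (L : ℝ) ≤ 2 * Real.log x ∧ Real.log x ≤ L * Real.log 2 ∧ 0 < Real.log (Real.log x) ∧
      Real.log (Real.log x) ≤ ((lam : ℝ) + 1) * Real.log 2 := by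
  have hl2 : 0 < Real.log 2 := Real.log_pos (by norm_num)
  have hl2a : 0.69 ≤ Real.log 2 := by have := Real.log_two_gt_d9; linarith
  have hl2' : Real.log 2 ≤ 1 := by have := Real.log_two_lt_d9; linarith
  have hL4r : (5 : ℝ) ≤ L := by exact_mod_cast hL4
  have hx0 : 0 < x := lt_of_lt_of_le (by positivity) hLx
  have hx0r : (0 : ℝ) < x := by exact_mod_cast hx0
  have h1 : Real.log x ≤ L * Real.log 2 := by
    rw [← Real.log_pow]
    apply Real.log_le_log hx0r
    exact_mod_cast hxL.le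
  have h2 : ((L : ℝ) - 1) * Real.log 2 ≤ Real.log x := by
    have h3 : ((L : ℝ) - 1) * Real.log 2 = Real.log (2 ^ (L - 1)) := by
      rw [Real.log_pow, Nat.cast_sub (by omega)]
      norm_num
    rw [h3]
    apply Real.log_le_log (by positivity)
    exact_mod_cast hLx
  have h3 : (L : ℝ) ≤ 2 * Real.log x := by nlinarith
  have h4 : 1 < Real.log x := by linarith
  refine ⟨h3, h1, Real.log_pos h4, ?_⟩
  have h5 : ((lam : ℝ) + 1) * Real.log 2 = Real.log (2 ^ (lam + 1)) := by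
    rw [Real.log_pow]; push_cast; ring
  rw [h5]
  apply Real.log_le_log (by linarith)
  have h6 : Real.log x ≤ L := h1.trans (by nlinarith)
  refine h6.trans ?_
  exact_mod_cast hL.le

open Classical in
private theorem mc_survivors {W M1 b b1 : ℕ} (A : Finset ℤ) (hb : b ≡ b1 [MOD M1]) :
    (A.filter (fun a => IsCoprime ((b : ℤ) - a) ((W * M1 : ℕ) : ℤ))).card ≤
      (A.filter (fun a => IsCoprime ((b1 : ℤ) - a) (M1 : ℤ))).card := by
  apply card_le_card
  intro a ha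
  rw [mem_filter] at ha ⊢
  refine ⟨ha.1, ?_⟩
  have h1 : IsCoprime ((b : ℤ) - a) (M1 : ℤ) := by
    have := ha.2
    push_cast at this
    exact this.of_mul_right_right
  obtain ⟨t, ht⟩ := (Nat.modEq_iff_dvd.mp hb)
  have h2 := h1.add_mul_left_left t
  have h3 : (b1 : ℤ) - a = (b : ℤ) - a + (M1 : ℤ) * t := by
    rw [← ht]
    ring
  rw [h3]
  exact h2

open Classical in
theorem mainC : ∃ c C : ℝ, 0 < c ∧ 0 < C ∧ ∀ W : ℕ, 0 < W → ∃ x0 : ℕ, ∀ x : ℕ, x0 ≤ x →
    ∀ (r : ℕ) (A : Finset ℕ),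
    (A.card : ℝ) * ((W : ℝ) / Nat.totient W) ≤ c * (Real.log x * Real.log (Real.log x)) →
    (x : ℝ) * Real.exp (-(C * ((A.card : ℝ) * ((W : ℝ) / Nat.totient W) / Real.log (Real.log x) +
      Real.log x ^ (4 / 5 : ℝ)))) ≤
      (((Finset.Ioc (x / 2) x).filter
        (fun n => n ≡ r [MOD W] ∧ ∀ a ∈ A, a ≤ n → ¬ (n - a).Prime)).card : ℝ) := by
  obtain ⟨c0, hc0, L0, hkill⟩ := kill
  refine ⟨min (c0 / 256) 1, 32 / c0 + 62, lt_min (by positivity) one_pos, by positivity, ?_⟩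
  intro W hW
  refine ⟨2 ^ (L0 + 268435456 + 4 * W ^ 2), ?_⟩
  intro x hx r A hA
  set τ : ℝ := (A.card : ℝ) * ((W : ℝ) / Nat.totient W) with hτ
  have hWr : (0 : ℝ) < W := by exact_mod_cast hW
  have hφW : (0 : ℝ) < Nat.totient W := by exact_mod_cast Nat.totient_pos.mpr hW
  have hratio1 : 1 ≤ (W : ℝ) / Nat.totient W := by
    rw [one_le_div hφW]
    exact_mod_cast Nat.totient_le W
  have hτ0 : 0 ≤ τ := by positivity
  have hAτ : (A.card : ℝ) ≤ τ := le_mul_of_one_le_right (Nat.cast_nonneg _) hratio1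
  -- parameters
  set L : ℕ := Nat.log 2 x + 1 with hLdef
  have hx0 : x ≠ 0 := by
    have : 0 < 2 ^ (L0 + 268435456 + 4 * W ^ 2) := by positivity
    omega
  have hxL : x < 2 ^ L := Nat.lt_pow_succ_log_self (by norm_num) x
  have hLx : 2 ^ (L - 1) ≤ x := by
    rw [hLdef, Nat.add_sub_cancel]
    exact Nat.pow_log_le_self 2 hx0
  have hLbig : L0 + 268435456 + 4 * W ^ 2 ≤ L := by
    have h1 : Nat.log 2 (2 ^ (L0 + 268435456 + 4 * W ^ 2)) ≤ Nat.log 2 x := Nat.log_mono_right hx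
    rw [Nat.log_pow (by norm_num)] at h1
    omega
  set lam : ℕ := Nat.log 2 L with hlam
  have hL0' : L ≠ 0 := by omega
  have hlamL : 2 ^ lam ≤ L := Nat.pow_log_le_self 2 hL0'
  have hLlam : L < 2 ^ (lam + 1) := Nat.lt_pow_succ_log_self (by norm_num) L
  have hlam28 : 28 ≤ lam := by
    have h1 : Nat.log 2 (2 ^ 28) ≤ Nat.log 2 L := Nat.log_mono_right (by norm_num; omega)
    rw [Nat.log_pow (by norm_num)] at h1
    exact h1
  set w : ℕ := 2 ^ (lam / 2) with hw
  have hww : w * w ≤ L := by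
    refine le_trans ?_ hlamL
    rw [hw, ← pow_add]
    exact Nat.pow_le_pow_right (by norm_num) (by omega)
  have hWw : W ≤ w := by
    have h1 : W * W < w * w * 1 := by
      have h2 : 2 ^ (lam + 1) ≤ 4 * (w * w) := by
        have h3 : 4 * (w * w) = 2 ^ (2 + lam / 2 + lam / 2) := by
          rw [hw, pow_add, pow_add]
          ring
        rw [h3]
        exact Nat.pow_le_pow_right (by norm_num) (by omega)
      have h4 : 4 * W ^ 2 < 4 * (w * w) := by omega
      nlinarith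
    nlinarith
  have hw16 : 2 ^ 14 ≤ w := Nat.pow_le_pow_right (by norm_num) (by omega)
  have hw12 : 12 * w ≤ L := by
    refine le_trans ?_ hww
    exact Nat.mul_le_mul_right _ (le_trans (by norm_num) hw16)
  obtain ⟨hLlog, hlogL, hll0, hlllam⟩ := mc_logs hxL hLx hLlam (by omega)
  have hl2 : 0 < Real.log 2 := Real.log_pos (by norm_num)
  have hl2' : Real.log 2 ≤ 1 := by have := Real.log_two_lt_d9; linarith
  have hLr : (268435456 : ℝ) ≤ L := by
    have : 268435456 ≤ L := by omega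
    exact_mod_cast this
  have hlogx0 : 0 < Real.log x := by linarith
  have hlamr : (28 : ℝ) ≤ lam := by exact_mod_cast hlam28
  -- the floor of `lam / 2`
  have hfl : (lam : ℝ) + 1 ≤ 4 * ((lam / 2 : ℕ) : ℝ) := by
    have : lam + 1 ≤ 4 * (lam / 2) := by omega
    exact_mod_cast this
  have hfl0 : (0 : ℝ) < ((lam / 2 : ℕ) : ℝ) := by linarith
  have hτL : τ ≤ min (c0 / 256) 1 * ((L : ℝ) * ((lam : ℝ) + 1) * Real.log 2) := by
    refine hA.trans (mul_le_mul_of_nonneg_left ?_ (le_min (by positivity) zero_le_one))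
    calc Real.log x * Real.log (Real.log x) ≤ L * (((lam : ℝ) + 1) * Real.log 2) := by
          apply mul_le_mul _ hlllam hll0.le (Nat.cast_nonneg L)
          refine hlogL.trans ?_
          exact mul_le_of_le_one_right (Nat.cast_nonneg L) hl2'
      _ = _ := by ring
  -- the number of survivors
  set K : ℝ := τ / (((lam / 2 : ℕ) : ℝ) * Real.log 2) with hK
  have hden : (0 : ℝ) < ((lam / 2 : ℕ) : ℝ) * Real.log 2 := by positivity
  have hK0 : 0 ≤ K := by positivity
  have hKL : K / c0 ≤ L / 64 := by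
    rw [hK, div_div, div_le_iff₀ (by positivity)]
    refine hτL.trans ?_
    calc min (c0 / 256) 1 * ((L : ℝ) * ((lam : ℝ) + 1) * Real.log 2)
        ≤ c0 / 256 * ((L : ℝ) * (4 * ((lam / 2 : ℕ) : ℝ)) * Real.log 2) := by
          apply mul_le_mul (min_le_left _ _) _ (by positivity) (by positivity)
          apply mul_le_mul_of_nonneg_right _ hl2.le
          exact mul_le_mul_of_nonneg_left hfl (Nat.cast_nonneg L)
      _ = L / 64 * (((lam / 2 : ℕ) : ℝ) * Real.log 2 * c0) := by ring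
  have hKll : K ≤ 4 * (τ / Real.log (Real.log x)) := by
    rw [hK, ← mul_div_assoc, div_le_div_iff₀ hden hll0]
    have h1 : Real.log (Real.log x) ≤ 4 * (((lam / 2 : ℕ) : ℝ) * Real.log 2) := by
      refine hlllam.trans ?_
      rw [← mul_assoc]
      exact mul_le_mul_of_nonneg_right hfl hl2.le
    calc τ * Real.log (Real.log x) ≤ τ * (4 * (((lam / 2 : ℕ) : ℝ) * Real.log 2)) :=
          mul_le_mul_of_nonneg_left h1 hτ0
      _ = _ := by ring
  -- the level
  set y : ℝ := (L : ℝ) ^ (3 / 4 : ℝ) with hy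
  have hL0r : (0 : ℝ) < L := by linarith
  have hy4 : y ^ 4 = (L : ℝ) ^ 3 := by
    rw [hy, ← Real.rpow_natCast, ← Real.rpow_mul hL0r.le]
    norm_num
  have hy0 : 0 ≤ y := by positivity
  have hyL : y ≤ L / 128 := by
    by_contra hcon
    push Not at hcon
    have h1 : ((L : ℝ) / 128) ^ 4 < y ^ 4 := pow_lt_pow_left₀ hcon (by positivity) (by norm_num)
    rw [hy4] at h1
    have h2 : ((L : ℝ) / 128) ^ 4 = (L : ℝ) ^ 3 * (L / 268435456) := by
      rw [div_pow]
      ring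
    rw [h2] at h1
    have h3 : (1 : ℝ) ≤ L / 268435456 := by
      rw [one_le_div (by norm_num)]
      exact hLr
    have h4 : (0 : ℝ) < (L : ℝ) ^ 3 := by positivity
    nlinarith
  set d : ℕ := ⌈K / c0⌉₊ + ⌈y⌉₊ with hd
  have hd1 : K ≤ c0 * d := by
    have h1 := Nat.le_ceil (K / c0)
    rw [div_le_iff₀ hc0] at h1
    refine h1.trans ?_
    rw [mul_comm]
    apply mul_le_mul_of_nonneg_left _ hc0.le
    rw [hd]
    push_cast
    have : (0 : ℝ) ≤ (⌈y⌉₊ : ℝ) := Nat.cast_nonneg _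
    linarith
  have hdy : y ≤ d := by
    refine (Nat.le_ceil y).trans ?_
    rw [hd]
    push_cast
    have : (0 : ℝ) ≤ (⌈K / c0⌉₊ : ℝ) := Nat.cast_nonneg _
    linarith
  have hd2 : L ^ 3 ≤ d ^ 4 := by
    have h1 : (L : ℝ) ^ 3 ≤ (d : ℝ) ^ 4 := by
      rw [← hy4]
      exact pow_le_pow_left₀ hy0 hdy 4
    exact_mod_cast h1
  have hd3 : (d : ℝ) ≤ K / c0 + y + 2 := by
    have h1 := (Nat.ceil_lt_add_one (by positivity : 0 ≤ K / c0)).le
    have h2 := (Nat.ceil_lt_add_one hy0).le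
    rw [hd]
    push_cast
    linarith
  have hd32 : 32 * d ≤ L := by
    have h1 : (32 : ℝ) * d ≤ L := by linarith
    exact_mod_cast h1
  -- the modulus
  set M1 : ℕ := mcM W w with hM1
  set M : ℕ := W * M1 with hM
  have hM10 : 0 < M1 := mcM_pos W w
  have hM0 : 0 < M := Nat.mul_pos hW hM10
  have hMle : M ≤ 2 ^ (3 * w) := by
    have h1 : W ≤ 2 ^ w := hWw.trans Nat.lt_two_pow_self.le
    calc M ≤ 2 ^ w * 4 ^ w := Nat.mul_le_mul h1 (mcM_le W w)
      _ = 2 ^ (3 * w) := by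
        rw [show (4 : ℕ) = 2 ^ 2 by norm_num, ← pow_mul, ← pow_add]
        congr 1
        ring
  have hMprime : ∀ q : ℕ, q.Prime → q ∣ M → q ≤ L ^ 6 := by
    intro q hq hqM
    have h1 : q ≤ w := by
      rcases (hq.dvd_mul).mp hqM with h | h
      · exact (Nat.le_of_dvd hW h).trans hWw
      · exact mcM_prime hq h
    have h2 : L ≤ L ^ 6 := Nat.le_self_pow (by norm_num) L
    omega
  obtain ⟨b1, -, hb1⟩ := good_class2 hM10 A
  obtain ⟨b, hbr, hbb1⟩ := Nat.chineseRemainder (mcM_coprime W w) r b1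
  have hsurv : ((A.filter (fun a => IsCoprime ((b : ℤ) - (a : ℤ)) (M : ℤ))).card : ℝ) ≤
      c0 * d := by
    refine le_trans ?_ hd1
    have h1 : ((A.filter (fun a => IsCoprime ((b : ℤ) - (a : ℤ)) (M : ℤ))).card : ℝ) ≤
        ((A.filter (fun a => IsCoprime ((b1 : ℤ) - (a : ℤ)) (M1 : ℤ))).card : ℝ) := by
      exact_mod_cast mc_survivors (W := W) _ hbb1
    refine h1.trans (hb1.trans ?_)
    have h2 := mc_ratio (W := W) (b := lam / 2) hW (by omega) hWw
    calc (A.card : ℝ) * ((Nat.totient M1 : ℝ) / M1)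
        ≤ (A.card : ℝ) * (((W : ℝ) / Nat.totient W) * (1 / (((lam / 2 : ℕ) : ℝ) * Real.log 2))) :=
          mul_le_mul_of_nonneg_left h2 (Nat.cast_nonneg _)
      _ = K := by
        rw [hK, hτ]
        ring
  -- the blocks
  set H : ℕ := M * (2 ^ (8 * d) + 1) with hH
  have hH0 : 0 < H := by positivity
  set m : ℕ := (x - x / 2) / (2 * H) with hm
  have hmx : x / 2 + 2 * H * m ≤ x := by
    have h1 : 2 * H * m ≤ x - x / 2 := Nat.mul_div_le _ _
    have h2 : x / 2 ≤ x := Nat.div_le_self _ _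
    omega
  have hcount := count_blocks A (fun n => n ≡ r [MOD W] ∧ ∀ a ∈ A, a ≤ n → ¬ (n - a).Prime)
    (x / 2) H m (by
      intro s hs0 hs1 hs2
      obtain ⟨n, hn1, hn2, hn3, hn4⟩ := hkill L d (by omega) hd2 (by omega) M hM0 hMprime b A s H
        (by omega) le_rfl hs2 hsurv
      exact ⟨n, hn1, hn2, (hn3.of_mul_right M1).trans hbr, hn4⟩)
  have hcount3 : m ≤ ((Finset.Ioc (x / 2) (x / 2 + 2 * H * m)).filter
      (fun n => n ≡ r [MOD W] ∧ ∀ a ∈ A, a ≤ n → ¬ (n - a).Prime)).card + A.card := by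
    convert hcount
  have hcount2 : m ≤ ((Finset.Ioc (x / 2) x).filter
      (fun n => n ≡ r [MOD W] ∧ ∀ a ∈ A, a ≤ n → ¬ (n - a).Prime)).card + A.card := by
    refine hcount3.trans (Nat.add_le_add_right (card_le_card ?_) _)
    intro n hn
    rw [mem_filter, mem_Ioc] at hn ⊢
    exact ⟨⟨hn.1.1, hn.1.2.trans hmx⟩, hn.2⟩
  -- sizes
  have hH8 : 8 * H ≤ 2 ^ (3 * w + 8 * d + 4) := by
    have h1 : 2 ^ (8 * d) + 1 ≤ 2 ^ (8 * d + 1) := by
      rw [pow_succ]
      have : 1 ≤ 2 ^ (8 * d) := Nat.one_le_two_pow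
      omega
    calc 8 * H ≤ 8 * (2 ^ (3 * w) * 2 ^ (8 * d + 1)) :=
          Nat.mul_le_mul_left _ (Nat.mul_le_mul hMle h1)
      _ = 2 ^ (3 * w + 8 * d + 4) := by
        rw [← pow_add, show (8 : ℕ) = 2 ^ 3 by norm_num, ← pow_add]
        congr 1
        ring
  have hAL : A.card ≤ L * L := by
    have h1 : (A.card : ℝ) ≤ (L : ℝ) * ((lam : ℝ) + 1) := by
      refine hAτ.trans (hτL.trans ?_)
      calc min (c0 / 256) 1 * ((L : ℝ) * ((lam : ℝ) + 1) * Real.log 2)
          ≤ 1 * ((L : ℝ) * ((lam : ℝ) + 1) * Real.log 2) :=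
            mul_le_mul_of_nonneg_right (min_le_right _ _) (by positivity)
        _ ≤ _ := by
          rw [one_mul]
          exact mul_le_of_le_one_right (by positivity) hl2'
    have h2 : A.card ≤ L * (lam + 1) := by exact_mod_cast h1
    refine h2.trans (Nat.mul_le_mul_left _ ?_)
    have : lam < 2 ^ lam := Nat.lt_two_pow_self
    omega
  have hHx : 8 * H * (1 + A.card) ≤ x := by
    obtain ⟨k, hk⟩ : ∃ k, L - 1 = (3 * w + 8 * d + 4) + k := ⟨L - 1 - (3 * w + 8 * d + 4), by omega⟩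
    have hk20 : 20 ≤ k := by omega
    have hLk : L ≤ 2 * k + 12 := by omega
    have h1 : 1 + A.card ≤ 2 ^ k := by
      refine le_trans ?_ (mc_growth k hk20)
      have h2 : L * L ≤ (2 * k + 12) ^ 2 := by
        rw [pow_two]
        exact Nat.mul_le_mul hLk hLk
      omega
    calc 8 * H * (1 + A.card) ≤ 2 ^ (3 * w + 8 * d + 4) * 2 ^ k := Nat.mul_le_mul hH8 h1
      _ = 2 ^ (L - 1) := by rw [← pow_add, ← hk]
      _ ≤ x := hLx
  have hHr : (0 : ℝ) < H := by exact_mod_cast hH0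
  have hm1 : (x : ℝ) / (4 * H) - 1 ≤ m := by
    have h1 : x - x / 2 < 2 * H * (m + 1) := by
      have h2 := Nat.div_add_mod (x - x / 2) (2 * H)
      have h3 := Nat.mod_lt (x - x / 2) (by omega : 0 < 2 * H)
      rw [← hm] at h2
      rw [mul_add, mul_one]
      omega
    have h2 : x ≤ 4 * H * (m + 1) := by
      have h4 : x ≤ 2 * (x - x / 2) := by omega
      calc x ≤ 2 * (x - x / 2) := h4
        _ ≤ 2 * (2 * H * (m + 1)) := Nat.mul_le_mul_left _ h1.le
        _ = 4 * H * (m + 1) := by ring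
    have h3 : (x : ℝ) ≤ 4 * H * (m + 1) := by exact_mod_cast h2
    rw [sub_le_iff_le_add, div_le_iff₀ (by positivity)]
    linarith
  have hfin : (x : ℝ) / (8 * H) ≤ (((Finset.Ioc (x / 2) x).filter
      (fun n => n ≡ r [MOD W] ∧ ∀ a ∈ A, a ≤ n → ¬ (n - a).Prime)).card : ℝ) := by
    have h1 : (m : ℝ) ≤ (((Finset.Ioc (x / 2) x).filter
      (fun n => n ≡ r [MOD W] ∧ ∀ a ∈ A, a ≤ n → ¬ (n - a).Prime)).card : ℝ) + A.card := by
      exact_mod_cast hcount2
    have h2 : (1 : ℝ) + A.card ≤ x / (8 * H) := by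
      rw [le_div_iff₀ (by positivity)]
      have : (8 * (H : ℝ) * (1 + A.card)) ≤ x := by exact_mod_cast hHx
      linarith
    have h3 : (x : ℝ) / (4 * H) = x / (8 * H) + x / (8 * H) := by
      field_simp
      norm_num
    linarith
  refine le_trans ?_ hfin
  have hdivinv : (x : ℝ) / (8 * H) = x * (8 * (H : ℝ))⁻¹ := div_eq_mul_inv _ _
  rw [hdivinv]
  apply mul_le_mul_of_nonneg_left _ (Nat.cast_nonneg _)
  rw [Real.exp_neg]
  apply inv_anti₀ (by positivity)
  rw [← Real.log_le_iff_le_exp (by positivity)]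
  -- the logarithm of `8 H`
  have hlog8 : Real.log (8 * (H : ℝ)) ≤ Real.log W + (2 * w + 8 * d + 4) := by
    have h1 : 8 * H ≤ W * 2 ^ (2 * w + 8 * d + 4) := by
      have h2 : 2 ^ (8 * d) + 1 ≤ 2 ^ (8 * d + 1) := by
        rw [pow_succ]
        have : 1 ≤ 2 ^ (8 * d) := Nat.one_le_two_pow
        omega
      calc 8 * H ≤ 8 * ((W * 4 ^ w) * 2 ^ (8 * d + 1)) :=
            Nat.mul_le_mul_left _ (Nat.mul_le_mul (Nat.mul_le_mul_left _ (mcM_le W w)) h2)
        _ = W * 2 ^ (2 * w + 8 * d + 4) := by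
          rw [show (4 : ℕ) ^ w = 2 ^ (2 * w) by rw [show (4 : ℕ) = 2 ^ 2 by norm_num, ← pow_mul],
            show (2 : ℕ) ^ (2 * w + 8 * d + 4) = 2 ^ (2 * w) * 2 ^ (8 * d + 1) * 8 by
              rw [← pow_add, show (8 : ℕ) = 2 ^ 3 by norm_num, ← pow_add]; congr 1]
          ring
    have h3 : (8 * (H : ℝ)) ≤ W * 2 ^ (2 * w + 8 * d + 4) := by exact_mod_cast h1
    refine (Real.log_le_log (by positivity) h3).trans ?_
    rw [Real.log_mul hWr.ne' (by positivity), Real.log_pow]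
    have h4 : ((2 * w + 8 * d + 4 : ℕ) : ℝ) * Real.log 2 ≤ ((2 * w + 8 * d + 4 : ℕ) : ℝ) :=
      mul_le_of_le_one_right (Nat.cast_nonneg _) hl2'
    push_cast at h4 ⊢
    linarith
  refine hlog8.trans ?_
  -- comparison with `L ^ (4/5)`
  set z : ℝ := (L : ℝ) ^ (4 / 5 : ℝ) with hz
  have hL1 : (1 : ℝ) ≤ L := by linarith
  have hz1 : 1 ≤ z := Real.one_le_rpow hL1 (by norm_num)
  have hyz : y ≤ z := Real.rpow_le_rpow_of_exponent_le hL1 (by norm_num)
  have hwz : (w : ℝ) ≤ z := by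
    have h1 : (w : ℝ) ≤ (L : ℝ) ^ (1 / 2 : ℝ) := by
      rw [← Real.sqrt_eq_rpow]
      apply Real.le_sqrt_of_sq_le
      rw [pow_two]
      exact_mod_cast hww
    exact h1.trans (Real.rpow_le_rpow_of_exponent_le hL1 (by norm_num))
  have hWz : Real.log W ≤ z := by
    have h1 : Real.log W ≤ W := (Real.log_le_sub_one_of_pos hWr).trans (by linarith)
    have h2 : (W : ℝ) ≤ w := by exact_mod_cast hWw
    linarith
  have hzx : z ≤ 2 * Real.log x ^ (4 / 5 : ℝ) := by
    have h1 : z ≤ (2 * Real.log x) ^ (4 / 5 : ℝ) :=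
      Real.rpow_le_rpow hL0r.le hLlog (by norm_num)
    rw [Real.mul_rpow (by norm_num) hlogx0.le] at h1
    have h2 : (2 : ℝ) ^ (4 / 5 : ℝ) ≤ 2 ^ (1 : ℝ) :=
      Real.rpow_le_rpow_of_exponent_le (by norm_num) (by norm_num)
    rw [Real.rpow_one] at h2
    exact h1.trans (mul_le_mul_of_nonneg_right h2 (by positivity))
  have hKc : K / c0 ≤ 4 * (τ / Real.log (Real.log x)) / c0 :=
    div_le_div_of_nonneg_right hKll hc0.le
  have hr0 : 0 ≤ τ / Real.log (Real.log x) := by positivity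
  have hs0 : 0 ≤ Real.log x ^ (4 / 5 : ℝ) := by positivity
  have h1 : (32 / c0 + 62) * (τ / Real.log (Real.log x) + Real.log x ^ (4 / 5 : ℝ)) =
      8 * (4 * (τ / Real.log (Real.log x)) / c0) + 62 * Real.log x ^ (4 / 5 : ℝ) +
        (62 * (τ / Real.log (Real.log x)) + 32 / c0 * Real.log x ^ (4 / 5 : ℝ)) := by
    ring
  have h2 : 0 ≤ 62 * (τ / Real.log (Real.log x)) + 32 / c0 * Real.log x ^ (4 / 5 : ℝ) := by
    positivity
  rw [h1]
  linarith

end Pool.Agent.RS
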