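import Pool.Agent.RS.Kill
import Pool.Agent.RS.Sel2
import Pool.Agent.Helper9.GW.Final

/-! RS/Rankin.  Theorem R combined with Rankin's trick for the small elements of `A`. -/

set_option autoImplicit false

namespace Pool.Agent.RS

open Finset Filter

namespace Rankin

open Pool.Agent.Helper9.GW

variable {k : ℕ} {l l2 l3 : ℝ}

theorem modulus_pos (z : ℕ) : 0 < modulus z :=
  Finset.prod_pos fun _ hℓ => (mem_oddPrimes.1 hℓ).1.pos

/-- combining a class modulo the small odd primes, one residue for the medium primes and parity -/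
theorem comb_class {z1 z2 : ℕ} (hz : 2 ≤ z1) (h0 b1 : ℕ) :
    ∃ b : ℕ, b % 2 = 0 ∧ b ≡ b1 [MOD modulus z1] ∧ ∀ ℓ ∈ medium z1 z2, b ≡ h0 [MOD ℓ] := by
  set M2 := ∏ ℓ ∈ medium z1 z2, ℓ with hM2
  have c1 : Nat.Coprime 2 (modulus z1) := by
    unfold modulus
    refine Nat.Coprime.prod_right fun ℓ hℓ => ?_
    have h := mem_oddPrimes.1 hℓ
    exact (Nat.coprime_primes Nat.prime_two h.1).2 (fun e => h.2.1 e.symm)
  have c2 : Nat.Coprime 2 M2 := by
    refine Nat.Coprime.prod_right fun ℓ hℓ => ?_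
    have h := (mem_medium hz).1 hℓ
    exact (Nat.coprime_primes Nat.prime_two h.1).2 (fun e => by omega)
  have c3 : Nat.Coprime (modulus z1) M2 := by
    unfold modulus
    refine Nat.Coprime.prod_right fun ℓ hℓ => Nat.Coprime.prod_left fun p hp => ?_
    have h := (mem_medium hz).1 hℓ
    have h' := mem_oddPrimes.1 hp
    exact (Nat.coprime_primes h'.1 h.1).2 (fun e => by omega)
  obtain ⟨r, hr1, hr2⟩ := Nat.chineseRemainder c3 b1 h0
  obtain ⟨b, hb1, hb2⟩ := Nat.chineseRemainder (Nat.Coprime.mul_right c1 c2) 0 r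
  refine ⟨b, hb1, (hb2.of_mul_right M2).trans hr1, fun ℓ hℓ => ?_⟩
  have h1 : b ≡ r [MOD M2] := hb2.of_mul_left _
  exact (h1.trans hr2).of_dvd (Finset.dvd_prod_of_mem _ hℓ)

open Helper52 in
theorem totient_modulus_le {b : ℕ} (hb : 1 ≤ b) :
    ((Nat.totient (modulus (2 ^ b)) : ℝ) / modulus (2 ^ b)) ≤ 2 / (b * Real.log 2) := by
  have h2b : 2 ≤ 2 ^ b := by
    calc 2 = 2 ^ 1 := rfl
      _ ≤ 2 ^ b := Nat.pow_le_pow_right (by norm_num) hb
  have hpf : (modulus (2 ^ b)).primeFactors = oddPrimes (2 ^ b) := by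
    unfold modulus
    rw [Nat.primeFactors_prod]
    intro p hp
    exact (mem_oddPrimes.1 hp).1
  have h1 : ((Nat.totient (modulus (2 ^ b)) : ℝ) / modulus (2 ^ b)) =
      ∏ ℓ ∈ oddPrimes (2 ^ b), (1 - 1 / (ℓ : ℝ)) := by
    have h2 := Nat.totient_eq_mul_prod_factors (modulus (2 ^ b))
    have h3 : ((Nat.totient (modulus (2 ^ b)) : ℝ)) = (modulus (2 ^ b) : ℝ) *
        ∏ p ∈ (modulus (2 ^ b)).primeFactors, (1 - (p : ℝ)⁻¹) := by
      have h4 := congrArg (fun q : ℚ => (q : ℝ)) h2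
      push_cast at h4
      exact h4
    have hpos : (0 : ℝ) < modulus (2 ^ b) := by exact_mod_cast modulus_pos _
    rw [h3, mul_div_cancel_left₀ _ hpos.ne', hpf]
    refine prod_congr rfl fun p _ => by rw [one_div]
  rw [h1]
  have h2 := prod_upper (b := b) hb
  have h3 : pr 0 (2 ^ b) = insert 2 (oddPrimes (2 ^ b)) := by
    ext q
    rw [mem_pr, mem_insert, mem_oddPrimes]
    constructor
    · rintro ⟨_, h5, h6⟩
      by_cases h : q = 2
      · exact Or.inl h
      · exact Or.inr ⟨h6, h, h5⟩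
    · rintro (rfl | ⟨h4, h5, h6⟩)
      · exact ⟨by norm_num, h2b, Nat.prime_two⟩
      · exact ⟨h4.pos, h6, h4⟩
  rw [h3, prod_insert (fun h => (mem_oddPrimes.1 h).2.1 rfl)] at h2
  have h5 : (1 - 1 / ((2 : ℕ) : ℝ)) * (∏ ℓ ∈ oddPrimes (2 ^ b), (1 - 1 / (ℓ : ℝ))) =
      (∏ ℓ ∈ oddPrimes (2 ^ b), (1 - 1 / (ℓ : ℝ))) / 2 := by
    push_cast
    ring
  rw [h5] at h2
  have h6 : 2 / (b * Real.log 2) = 2 * (1 / (b * Real.log 2)) := by ring
  rw [h6]
  linarith

open Classical in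
/-- few survivors -/
theorem survivors (h : Par k l l2 l3) (B : ℕ) (S : Finset ℕ) (Y : ℕ)
    (hY : (Y : ℝ) ≤ k * l ^ B) :
    ∃ b : ℕ, b % 2 = 0 ∧
      ((S.filter (fun q : ℕ => IsCoprime ((b : ℤ) - (q : ℤ))
        ((2 * modulus (zz l) : ℕ) : ℤ))).card : ℝ) ≤
      2882 * (B + 5) / l * (l2 ^ 2 / (l * l3) * ((S.filter (fun q => q ≤ Y)).card : ℝ) +
      ((S.filter (fun q => ¬ q ≤ Y)).card : ℝ)) := by
  obtain ⟨e1, e2, e3, g1, g2, g3⟩ := h.facts
  obtain ⟨b1, b2, b3⟩ := h.bb_facts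
  obtain ⟨z1, z2, z3⟩ := h.zz_facts
  obtain ⟨H1, H2, H3⟩ := h.HH_facts B
  have p1 := h.p1
  have p2 := h.p2
  have h3 := h.h3
  have hl : 1 ≤ l := by linarith
  have hH0 : (0 : ℝ) < HH l B := lt_of_lt_of_le (Real.exp_pos _) H3
  have hH1 : 1 ≤ HH l B := by exact_mod_cast hH0
  have h2b : 2 ≤ 2 ^ bb l l2 l3 := by
    calc 2 = 2 ^ 1 := rfl
      _ ≤ _ := Nat.pow_le_pow_right (by norm_num) b1
  have hbz : 2 ^ bb l l2 l3 ≤ zz l := by
    have h5 : ((2 ^ bb l l2 l3 : ℕ) : ℝ) ≤ zz l := by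
      refine le_trans ?_ z1
      rw [← Real.log_le_iff_le_exp (by positivity)]
      push_cast
      rw [Real.log_pow]
      refine b2.trans ?_
      rw [div_le_div_iff₀ (by positivity) (by norm_num)]
      nlinarith
    exact_mod_cast h5
  have hYH : Y ≤ HH l B := by
    unfold HH
    refine Nat.le_floor ?_
    rw [← e1]
    exact hY
  obtain ⟨h0, hh0⟩ := exists_shift (2 ^ bb l l2 l3) (zz l) (HH l B) hH1 S
    (fun q => if q ≤ Y then 9 * (B + 5) * l2 / l * HH l B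
      else 1441 * (bb l l2 l3 * Real.log 2) / l * HH l B) (by
      intro q _
      by_cases hqY : q ≤ Y
      · simp only [if_pos hqY]
        exact h.small_le B (hqY.trans hYH)
      · simp only [if_neg hqY]
        exact h.large_le B q)
  set S0 := S.filter (fun q => ∀ ℓ ∈ medium (2 ^ bb l l2 l3) (zz l), ¬ q ≡ h0 [MOD ℓ]) with hS0
  obtain ⟨b', hb'1, hb'2⟩ := good_class2_nat (modulus_pos (2 ^ bb l l2 l3)) S0
  obtain ⟨b, c1, c2, c3⟩ := comb_class (z2 := zz l) h2b h0 b'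
  refine ⟨b, c1, ?_⟩
  set s := ((S.filter (fun q => q ≤ Y)).card : ℝ) with hs
  set t := ((S.filter (fun q => ¬ q ≤ Y)).card : ℝ) with ht
  set β := (bb l l2 l3 : ℝ) * Real.log 2 with hβ
  have hβ0 : 0 < β := by
    refine lt_of_lt_of_le ?_ b3
    positivity
  have hs0 : 0 ≤ s := Nat.cast_nonneg _
  have ht0 : 0 ≤ t := Nat.cast_nonneg _
  -- the survivors lie in the filtered set
  have hsub : S.filter (fun q : ℕ => IsCoprime ((b : ℤ) - (q : ℤ))
        ((2 * modulus (zz l) : ℕ) : ℤ)) ⊆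
      S0.filter (fun q : ℕ => IsCoprime ((b' : ℤ) - (q : ℤ))
        ((modulus (2 ^ bb l l2 l3) : ℕ) : ℤ)) := by
    intro q hq
    rw [mem_filter] at hq
    obtain ⟨hq1, hq2⟩ := hq
    have hmz : ∀ ℓ : ℕ, ℓ ∈ oddPrimes (zz l) → IsCoprime ((b : ℤ) - (q : ℤ)) (ℓ : ℤ) := by
      intro ℓ hℓ
      refine hq2.of_isCoprime_of_dvd_right ?_
      have : ℓ ∣ 2 * modulus (zz l) := Dvd.dvd.mul_left (Finset.dvd_prod_of_mem _ hℓ) _
      exact_mod_cast this
    rw [mem_filter]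
    simp only [hS0, mem_filter]
    refine ⟨⟨hq1, fun ℓ hℓ hmod => ?_⟩, ?_⟩
    · have hℓ' := (mem_medium h2b).1 hℓ
      have hℓo : ℓ ∈ oddPrimes (zz l) := mem_oddPrimes.2 ⟨hℓ'.1, by omega, hℓ'.2.2⟩
      have h5 := hmz ℓ hℓo
      have h6 : (ℓ : ℤ) ∣ (b : ℤ) - (q : ℤ) := by
        have h7 : q ≡ b [MOD ℓ] := hmod.trans (c3 ℓ hℓ).symm
        exact (Nat.modEq_iff_dvd.1 h7)
      have h8 := h5.isUnit_of_dvd' h6 (dvd_refl _)
      rw [Int.isUnit_iff_natAbs_eq] at h8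
      have h9 := hℓ'.1.one_lt
      simp at h8
      omega
    · have h5 : IsCoprime ((b : ℤ) - (q : ℤ)) ((modulus (2 ^ bb l l2 l3) : ℕ) : ℤ) := by
        refine hq2.of_isCoprime_of_dvd_right ?_
        have : modulus (2 ^ bb l l2 l3) ∣ 2 * modulus (zz l) := by
          refine Dvd.dvd.mul_left ?_ _
          unfold modulus
          refine Finset.prod_dvd_prod_of_subset _ _ _ ?_
          intro ℓ hℓ
          have := mem_oddPrimes.1 hℓ
          exact mem_oddPrimes.2 ⟨this.1, this.2.1, this.2.2.trans hbz⟩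
        exact_mod_cast this
      obtain ⟨e, he⟩ := Nat.modEq_iff_dvd.1 c2
      have h6 : (b' : ℤ) - q = ((b : ℤ) - q) + ((modulus (2 ^ bb l l2 l3) : ℕ) : ℤ) * e := by
        rw [← he]; ring
      rw [h6]
      exact IsCoprime.add_mul_left_left h5 e
  have hN : ((S.filter (fun q : ℕ => IsCoprime ((b : ℤ) - (q : ℤ))
        ((2 * modulus (zz l) : ℕ) : ℤ))).card : ℝ) ≤ (S0.card : ℝ) * (2 / β) := by
    refine le_trans (by exact_mod_cast card_le_card hsub) (hb'2.trans ?_)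
    exact mul_le_mul_of_nonneg_left (totient_modulus_le b1) (Nat.cast_nonneg _)
  have hS0c : (S0.card : ℝ) ≤ s * (9 * (B + 5) * l2 / l) + t * (1441 * β / l) := by
    refine le_trans (le_of_eq ?_) (hh0.trans (le_of_eq ?_))
    · congr!
    · rw [sum_ite, sum_const, sum_const, nsmul_eq_mul, nsmul_eq_mul, div_eq_iff hH0.ne']
      ring
  refine hN.trans ?_
  have hB : (0 : ℝ) ≤ B := Nat.cast_nonneg B
  have hβi : 2 / β ≤ 32 * l2 / (l * l3) := by
    rw [div_le_div_iff₀ hβ0 (by positivity)]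
    have h7 : 2 * (l * l3) = 32 * l2 * (l * l3 / (16 * l2)) := by
      field_simp
      norm_num
    rw [h7]
    exact mul_le_mul_of_nonneg_left b3 (by positivity)
  calc (S0.card : ℝ) * (2 / β)
      ≤ (s * (9 * (B + 5) * l2 / l) + t * (1441 * β / l)) * (2 / β) :=
        mul_le_mul_of_nonneg_right hS0c (by positivity)
    _ = s * (9 * (B + 5) * l2 / l) * (2 / β) + 2882 * t / l := by
        field_simp
        ring
    _ ≤ s * (9 * (B + 5) * l2 / l) * (32 * l2 / (l * l3)) + 2882 * t / l := by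
        gcongr
    _ = 288 * (B + 5) / l * (l2 ^ 2 / (l * l3) * s) + 2882 / l * t := by
        field_simp
        ring
    _ ≤ 2882 * (B + 5) / l * (l2 ^ 2 / (l * l3) * s) + 2882 * (B + 5) / l * t := by
        have a1 : 288 * ((B : ℝ) + 5) / l ≤ 2882 * (B + 5) / l := by
          apply div_le_div_of_nonneg_right _ p1.le
          linarith
        have a2 : (2882 : ℝ) / l ≤ 2882 * (B + 5) / l := by
          apply div_le_div_of_nonneg_right _ p1.le
          linarith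
        exact add_le_add (mul_le_mul_of_nonneg_right a1 (by positivity))
          (mul_le_mul_of_nonneg_right a2 ht0)
    _ = _ := by ring

/-- the quantity to be compared -/
theorem growth (B : ℕ) {c : ℝ} (hc : 0 < c) : ∀ᶠ t : ℝ in atTop,
    10 + t * Real.log t ^ B + c * (t * Real.log t) ≤ Real.exp (t / 2) := by
  have h1 := isLittleO_pow_exp_pos_mul_atTop (k := B + 3) (b := 1 / 2) (by norm_num)
  have h2 := h1.bound (c := 1) one_pos
  filter_upwards [h2, eventually_ge_atTop (c + 10)] with t ht ht1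
  have ht0 : 1 ≤ t := by linarith
  rw [Real.norm_of_nonneg (by positivity), Real.norm_of_nonneg (Real.exp_pos _).le, one_mul] at ht
  have e : Real.exp (t / 2) = Real.exp (1 / 2 * t) := by congr 1; ring
  rw [e]
  refine le_trans ?_ ht
  have hl0 : 0 ≤ Real.log t := Real.log_nonneg ht0
  have hl1 : Real.log t ≤ t := by
    have := Real.log_le_sub_one_of_pos (by linarith : 0 < t)
    linarith
  have a1 : t * Real.log t ^ B ≤ t ^ (B + 2) := by
    calc t * Real.log t ^ B ≤ t * t ^ B :=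
          mul_le_mul_of_nonneg_left (pow_le_pow_left₀ hl0 hl1 B) (by linarith)
      _ = t ^ (B + 1) := by ring
      _ ≤ t ^ (B + 2) := pow_le_pow_right₀ ht0 (by omega)
  have a2 : t * Real.log t ≤ t ^ (B + 2) := by
    calc t * Real.log t ≤ t * t := mul_le_mul_of_nonneg_left hl1 (by linarith)
      _ = t ^ 2 := by ring
      _ ≤ t ^ (B + 2) := pow_le_pow_right₀ ht0 (by omega)
  have a3 : 10 ≤ t ^ (B + 2) := by
    calc (10 : ℝ) ≤ t := by linarith
      _ = t ^ 1 := by ring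
      _ ≤ t ^ (B + 2) := pow_le_pow_right₀ ht0 (by omega)
  have a4 : t ^ (B + 3) = t * t ^ (B + 2) := by ring
  rw [a4]
  have a5 : (c + 10) * t ^ (B + 2) ≤ t * t ^ (B + 2) :=
    mul_le_mul_of_nonneg_right ht1 (by positivity)
  have a6 : c * (t * Real.log t) ≤ c * t ^ (B + 2) := mul_le_mul_of_nonneg_left a2 hc.le
  linarith

open Classical in
/-- the residue class version of `kill` with the filter over natural numbers -/
theorem kill' : ∃ c : ℝ, 0 < c ∧ ∃ L0 : ℕ, ∀ L d : ℕ, L0 ≤ L → L ^ 3 ≤ d ^ 4 → d ≤ L →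
    ∀ (M : ℕ), 0 < M → (∀ q : ℕ, q.Prime → q ∣ M → q ≤ L ^ 6) →
    ∀ (b : ℕ) (A : Finset ℕ) (s H : ℕ), s + 2 * H < 2 ^ L → M * (2 ^ (8 * d) + 1) ≤ H →
    (∀ a ∈ A, ¬ (s < a ∧ a ≤ s + 2 * H)) →
    ((A.filter (fun a : ℕ => IsCoprime ((b : ℤ) - (a : ℤ)) (M : ℤ))).card : ℝ) ≤ c * d →
    ∃ n, s < n ∧ n ≤ s + 2 * H ∧ n ≡ b [MOD M] ∧ ∀ a ∈ A, a ≤ n → ¬ (n - a).Prime := by
  obtain ⟨c, hc, L0, h⟩ := kill
  refine ⟨c, hc, L0, fun L d h1 h2 h3 M h4 h5 b A s H h6 h7 h8 h9 => ?_⟩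
  refine h L d h1 h2 h3 M h4 h5 b A s H h6 h7 h8 ?_
  have e : (do let a ← A; pure (a : ℤ) : Finset ℤ) = A.image (fun a : ℕ => (a : ℤ)) := by
    ext z
    simp [Finset.bind_def, Finset.pure_def, Finset.mem_image, eq_comm]
  rw [e, Finset.filter_image, Finset.card_image_of_injective _ Nat.cast_injective]
  exact h9

/-- logarithms of `k = ⌊log x / 4⌋` against those of `x` -/
theorem log_compare {k : ℕ} {L1 L2 L3 L4 l l2 l3 : ℝ} (hk : k = ⌊L1 / 4⌋₊)
    (hL2 : L2 = Real.log L1) (hL3 : L3 = Real.log L2) (hL4 : L4 = Real.log L3)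
    (hl : l = Real.log k) (hl2 : l2 = Real.log l) (hl3 : l3 = Real.log l2)
    (g1 : 40 ≤ L1) (g2 : 42 ≤ L2) (g3 : 4 ≤ L3) (g4 : 4 ≤ L4) :
    (k : ℝ) ≤ L1 / 4 ∧ L1 / 8 ≤ k ∧ L2 / 2 ≤ l ∧ l ≤ L2 ∧ L3 / 2 ≤ l2 ∧ l2 ≤ L3 ∧
      L4 / 2 ≤ l3 := by
  have hku : (k : ℝ) ≤ L1 / 4 := by rw [hk]; exact Nat.floor_le (by linarith)
  have hkl : L1 / 8 ≤ (k : ℝ) := by
    have := Nat.lt_floor_add_one (L1 / 4)
    rw [← hk] at this
    linarith
  have hk0 : (0 : ℝ) < k := by linarith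
  have hl1 : L2 / 2 ≤ l := by
    have h1 : Real.log (L1 / 8) ≤ l := by rw [hl]; exact Real.log_le_log (by linarith) hkl
    rw [Real.log_div (by linarith) (by norm_num), ← hL2] at h1
    have h8 : Real.log 8 ≤ 3 := by
      have : Real.log 8 = 3 * Real.log 2 := by
        rw [show (8 : ℝ) = 2 ^ 3 by norm_num, Real.log_pow]; norm_num
      have := Real.log_two_lt_d9
      linarith
    linarith
  have hlu : l ≤ L2 := by rw [hl, hL2]; exact Real.log_le_log hk0 (by linarith)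
  have hlog2 : Real.log 2 ≤ 1 := by
    have := Real.log_two_lt_d9
    linarith
  have hl2l : L3 / 2 ≤ l2 := by
    have h1 : Real.log (L2 / 2) ≤ l2 := by rw [hl2]; exact Real.log_le_log (by linarith) hl1
    rw [Real.log_div (by linarith) (by norm_num), ← hL3] at h1
    linarith
  have hl2u : l2 ≤ L3 := by rw [hl2, hL3]; exact Real.log_le_log (by linarith) hlu
  have hl3l : L4 / 2 ≤ l3 := by
    have h1 : Real.log (L3 / 2) ≤ l3 := by rw [hl3]; exact Real.log_le_log (by linarith) hl2l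
    rw [Real.log_div (by linarith) (by norm_num), ← hL4] at h1
    linarith
  exact ⟨hku, hkl, hl1, hlu, hl2l, hl2u, hl3l⟩

/-- size of the blocks -/
theorem block_size {L d z M H : ℕ} {L1 l δ η : ℝ}
    (hδ0 : 0 < δ) (hη : η = δ / 64) (hL : (L : ℝ) ≤ 2 * L1) (hd : (d : ℝ) ≤ η * L + 1)
    (hM : M = 2 * modulus z) (hz : (z : ℝ) ≤ L1 / 4 / l ^ 2) (hl : 4 / δ ≤ l) (hl1 : 1 ≤ l)
    (hH : H = M * (2 ^ (8 * d) + 1)) (hL1p : 0 ≤ L1) :
    (2 * H : ℝ) ≤ Real.exp (11 + 3 / 8 * δ * L1) := by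
  have hmod := modulus_le z
  have h1 : (M : ℝ) ≤ 2 * 4 ^ z := by
    rw [hM]; push_cast
    have : ((modulus z : ℕ) : ℝ) ≤ 4 ^ z := by exact_mod_cast hmod
    linarith
  have h2 : (2 : ℝ) ^ (8 * d) + 1 ≤ 2 * 2 ^ (8 * d) := by
    have : (1 : ℝ) ≤ 2 ^ (8 * d) := one_le_pow₀ (by norm_num)
    linarith
  have h3 : (2 * H : ℝ) ≤ 2 * ((2 * 4 ^ z) * (2 * 2 ^ (8 * d))) := by
    rw [hH]; push_cast
    refine mul_le_mul_of_nonneg_left ?_ (by norm_num)
    exact mul_le_mul h1 h2 (by positivity) (by positivity)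
  refine h3.trans ?_
  have e4 : (4 : ℝ) ^ z = Real.exp (z * Real.log 4) := by
    rw [mul_comm (z : ℝ), Real.exp_mul, Real.exp_log (by norm_num), Real.rpow_natCast]
  have e2 : (2 : ℝ) ^ (8 * d) = Real.exp ((8 * d : ℕ) * Real.log 2) := by
    rw [mul_comm ((8 * d : ℕ) : ℝ), Real.exp_mul, Real.exp_log (by norm_num),
      Real.rpow_natCast]
  have e8 : (2 : ℝ) * ((2 * 4 ^ z) * (2 * 2 ^ (8 * d))) =
      Real.exp (3 * Real.log 2 + z * Real.log 4 + (8 * d : ℕ) * Real.log 2) := by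
    rw [Real.exp_add, Real.exp_add, ← e4, ← e2]
    have : Real.exp (3 * Real.log 2) = 8 := by
      rw [mul_comm, Real.exp_mul, Real.exp_log (by norm_num)]
      norm_num
    rw [this]
    ring
  rw [e8, Real.exp_le_exp]
  have hlog2 := Real.log_two_lt_d9
  have hlog2' := Real.log_two_gt_d9
  have hlog4 : Real.log 4 ≤ 7 / 5 := by
    have : Real.log 4 = 2 * Real.log 2 := by
      rw [show (4 : ℝ) = 2 ^ 2 by norm_num, Real.log_pow]; norm_num
    linarith
  have hlog40 : 0 ≤ Real.log 4 := Real.log_nonneg (by norm_num)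
  -- the part of `M`
  have k1 : (z : ℝ) * Real.log 4 ≤ 1 / 8 * δ * L1 := by
    have k2 : (z : ℝ) ≤ L1 * δ / 16 := by
      refine hz.trans ?_
      rw [div_div, div_le_div_iff₀ (by positivity) (by norm_num)]
      have k3 : 4 ≤ δ * l := by
        rw [div_le_iff₀ hδ0] at hl
        linarith
      have k4 : 4 ≤ δ * l ^ 2 := by nlinarith
      nlinarith
    have k5 : 0 ≤ L1 * δ / 16 := by positivity
    calc (z : ℝ) * Real.log 4 ≤ (L1 * δ / 16) * (7 / 5) :=
          mul_le_mul k2 hlog4 hlog40 k5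
      _ ≤ _ := by nlinarith
  have k2 : ((8 * d : ℕ) : ℝ) * Real.log 2 ≤ 8 + 1 / 4 * δ * L1 := by
    push_cast
    have m1 : (d : ℝ) ≤ 1 + δ * L1 / 32 := by
      have : η * L ≤ η * (2 * L1) := by
        apply mul_le_mul_of_nonneg_left hL
        rw [hη]; positivity
      rw [hη] at this hd
      linarith
    have m2 : (0 : ℝ) ≤ d := Nat.cast_nonneg _
    have m3 : 8 * (d : ℝ) * Real.log 2 ≤ 8 * d := by nlinarith
    linarith
  linarith

open Classical in
/-- Theorem R with Rankin's trick: a set `A` of natural numbers whose elements `≤ Y` are counted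
with the small weight `wt x`. -/
theorem rankin2 (B : ℕ) {δ : ℝ} (hδ : 0 < δ) : ∃ c : ℝ, 0 < c ∧ ∀ᶠ x : ℕ in atTop,
    ∀ (A : Finset ℕ) (Y : ℕ), (Y : ℝ) ≤ Real.log x * Real.log (Real.log x) ^ B →
    Helper9.GW.wt x * ((A.filter (fun q => q ≤ Y)).card : ℝ) +
      ((A.filter (fun q => ¬ q ≤ Y)).card : ℝ) ≤ c * (Real.log x * Real.log (Real.log x)) →
    (x : ℝ) ^ (1 - δ) + 2 ≤ (((Finset.Ioc 0 x).filter
      (fun n => ∀ a ∈ A, a ≤ 2 * n → ¬ (2 * n - a).Prime)).card : ℝ) := by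
  obtain ⟨c0, hc0, L0, hkill⟩ := kill'
  set δ1 := min δ (1 / 2) with hδ1
  have hδ10 : 0 < δ1 := by rw [hδ1]; positivity
  have hδ12 : δ1 ≤ 1 / 2 := min_le_right _ _
  have hδ1δ : δ1 ≤ δ := min_le_left _ _
  set η := δ1 / 64 with hη
  have hη0 : 0 < η := by positivity
  have hη1 : η ≤ 1 / 128 := by rw [hη]; linarith
  set c := c0 * η / (2882 * 8 * (B + 6)) with hc
  have hcpos : 0 < c := by positivity
  refine ⟨c, hcpos, ?_⟩
  have hcast : Tendsto (fun k : ℕ => (k : ℝ)) atTop atTop := tendsto_natCast_atTop_atTop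
  have t1 : Tendsto (fun k : ℕ => Real.log k) atTop atTop := Real.tendsto_log_atTop.comp hcast
  have t2 : Tendsto (fun k : ℕ => Real.log (Real.log k)) atTop atTop :=
    Real.tendsto_log_atTop.comp t1
  have t3 : Tendsto (fun k : ℕ => Real.log (Real.log (Real.log k))) atTop atTop :=
    Real.tendsto_log_atTop.comp t2
  have t4 : Tendsto (fun k : ℕ => Real.log (Real.log (Real.log (Real.log k)))) atTop atTop :=
    Real.tendsto_log_atTop.comp t3
  have hk : Tendsto (fun x : ℕ => ⌊Real.log x / 4⌋₊) atTop atTop :=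
    tendsto_nat_floor_atTop.comp (t1.atTop_div_const (by norm_num))
  filter_upwards [hk.eventually par_eventually, t1.eventually (growth B hcpos),
    t1.eventually_ge_atTop (max 40 (max (L0 : ℝ) (max (1 / η ^ 4) (96 / δ1)))),
    t2.eventually_ge_atTop (max (32 * 2 ^ B + 10) (8 / δ1)),
    t3.eventually_ge_atTop 4, t4.eventually_ge_atTop 4,
    eventually_ge_atTop 2] with x hpar hgrow g1 g2 g3 g4 hx2 A Y hY hcond
  obtain ⟨g1a, g1b, g1c, g1d⟩ : 40 ≤ Real.log x ∧ (L0 : ℝ) ≤ Real.log x ∧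
      1 / η ^ 4 ≤ Real.log x ∧ 96 / δ1 ≤ Real.log x := by
    simp only [max_le_iff] at g1
    exact ⟨g1.1, g1.2.1, g1.2.2.1, g1.2.2.2⟩
  obtain ⟨g2a, g2b⟩ : 32 * 2 ^ B + 10 ≤ Real.log (Real.log x) ∧
      8 / δ1 ≤ Real.log (Real.log x) := by
    simp only [max_le_iff] at g2
    exact ⟨g2.1, g2.2⟩
  set k := ⌊Real.log x / 4⌋₊ with hkdef
  set L1 := Real.log x with hL1
  set L2 := Real.log L1 with hL2
  set L3 := Real.log L2 with hL3
  set L4 := Real.log L3 with hL4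
  set l := Real.log k with hl
  set l2 := Real.log l with hl2
  set l3 := Real.log l2 with hl3
  have h2B : (1 : ℝ) ≤ 2 ^ B := one_le_pow₀ (by norm_num)
  have hL42 : 42 ≤ L2 := by linarith
  obtain ⟨hku, hkl, hl1, hlu, hl2l, hl2u, hl3l⟩ :=
    log_compare hkdef hL2 hL3 hL4 hl hl2 hl3 g1a hL42 g3 g4
  have hk0 : (0 : ℝ) < k := by linarith
  have p1 : 0 < l := by linarith
  have p2 : 0 < l2 := by linarith
  have p3 : 0 < l3 := by linarith
  have hx0 : (0 : ℝ) < x := by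
    have : 0 < x := by omega
    exact_mod_cast this
  -- survivors
  obtain ⟨b, hb0, hbS⟩ := survivors hpar (B + 1) A Y (by
    refine hY.trans ?_
    have h1 : L2 ^ B ≤ (2 * l) ^ B := pow_le_pow_left₀ (by linarith) (by linarith) B
    have h2 : (8 : ℝ) * 2 ^ B ≤ l := by linarith
    calc L1 * L2 ^ B ≤ (8 * k) * (2 * l) ^ B := by
          apply mul_le_mul (by linarith) h1 (by positivity) (by linarith)
      _ = k * (8 * 2 ^ B) * l ^ B := by rw [mul_pow]; ring
      _ ≤ k * l * l ^ B := by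
          apply mul_le_mul_of_nonneg_right _ (by positivity)
          exact mul_le_mul_of_nonneg_left h2 hk0.le
      _ = k * l ^ (B + 1) := by rw [pow_succ]; ring)
  set s := ((A.filter (fun q => q ≤ Y)).card : ℝ) with hs
  set t := ((A.filter (fun q => ¬ q ≤ Y)).card : ℝ) with ht
  have hs0 : 0 ≤ s := Nat.cast_nonneg _
  have ht0 : 0 ≤ t := Nat.cast_nonneg _
  have hL2p : 0 < L2 := by linarith
  have hL3p : 0 < L3 := by linarith
  have hL4p : 0 < L4 := by linarith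
  have hwt : l2 ^ 2 / (l * l3) ≤ 4 * Helper9.GW.wt x := by
    have h2 : 4 * Helper9.GW.wt x = L3 ^ 2 / (L2 / 2 * (L4 / 2)) := by
      unfold Helper9.GW.wt
      rw [← hL1, ← hL2, ← hL3, ← hL4]
      field_simp
      norm_num
    rw [h2]
    apply div_le_div₀ (by positivity)
    · exact pow_le_pow_left₀ p2.le hl2u 2
    · positivity
    · exact mul_le_mul hl1 hl3l (by positivity) p1.le
  -- parameters
  set L := Nat.log 2 (2 * x) + 1 with hLdef
  have hxL : 2 * x < 2 ^ L := Nat.lt_pow_succ_log_self (by norm_num) _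
  have hLx : 2 ^ (L - 1) ≤ 2 * x := by
    rw [hLdef, Nat.add_sub_cancel]
    exact Nat.pow_log_le_self 2 (by omega)
  have hlog2 := Real.log_two_lt_d9
  have hlog2' := Real.log_two_gt_d9
  have hL1L : L1 ≤ L := by
    have h1 : L1 ≤ Real.log ((2 : ℝ) ^ L) := by
      refine Real.log_le_log hx0 ?_
      have h2 : (2 * (x : ℝ)) < 2 ^ L := by exact_mod_cast hxL
      linarith
    rw [Real.log_pow] at h1
    have h2 : (0 : ℝ) ≤ L := Nat.cast_nonneg _
    have h3 : (L : ℝ) * Real.log 2 ≤ L * 1 := mul_le_mul_of_nonneg_left (by linarith) h2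
    linarith
  have hLL1 : (L : ℝ) ≤ 2 * L1 := by
    have h1 : Real.log ((2 : ℝ) ^ (L - 1)) ≤ Real.log (2 * x) := by
      refine Real.log_le_log (by positivity) ?_
      exact_mod_cast hLx
    rw [Real.log_pow, Real.log_mul (by norm_num) hx0.ne', ← hL1] at h1
    have h2 : ((L - 1 : ℕ) : ℝ) = (L : ℝ) - 1 := by
      rw [hLdef]; push_cast; simp
    rw [h2] at h1
    have h3 : ((L : ℝ) - 1) * 0.69 ≤ ((L : ℝ) - 1) * Real.log 2 :=
      mul_le_mul_of_nonneg_left (by linarith) (by linarith)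
    linarith
  have hLpos : (0 : ℝ) < L := by linarith
  set d := ⌊η * L⌋₊ + 1 with hd
  have hdu : (d : ℝ) ≤ η * L + 1 := by
    rw [hd]; push_cast
    have := Nat.floor_le (show 0 ≤ η * L by positivity)
    linarith
  have hdl : η * L ≤ d := by
    rw [hd]; push_cast
    exact (Nat.lt_floor_add_one _).le
  have hdL : d ≤ L := by
    have h1 : (d : ℝ) ≤ L := by
      have h2 : η * L ≤ 1 / 128 * L := mul_le_mul_of_nonneg_right hη1 hLpos.le
      linarith
    exact_mod_cast h1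
  have hdL4 : L ^ 3 ≤ d ^ 4 := by
    have h1 : ((L : ℝ)) ^ 3 ≤ (d : ℝ) ^ 4 := by
      have h2 : (η * L) ^ 4 ≤ (d : ℝ) ^ 4 := pow_le_pow_left₀ (by positivity) hdl 4
      refine le_trans ?_ h2
      have h3 : 1 ≤ η ^ 4 * L := by
        have h4 : 1 / η ^ 4 ≤ L := g1c.trans hL1L
        rw [div_le_iff₀ (by positivity)] at h4
        linarith
      calc (L : ℝ) ^ 3 = 1 * L ^ 3 := by ring
        _ ≤ (η ^ 4 * L) * L ^ 3 := mul_le_mul_of_nonneg_right h3 (by positivity)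
        _ = (η * L) ^ 4 := by ring
    exact_mod_cast h1
  set M := 2 * modulus (zz l) with hM
  have hMpos : 0 < M := by
    have := modulus_pos (zz l)
    omega
  obtain ⟨z1, z2, z3⟩ := hpar.zz_facts
  obtain ⟨e1, e2, e3, f1, f2, f3⟩ := hpar.facts
  have hzk : (zz l : ℝ) ≤ k := by
    refine z2.trans ?_
    rw [← e1, div_le_iff₀ (by positivity)]
    have : 1 ≤ l ^ 2 := one_le_pow₀ (by linarith)
    exact le_mul_of_one_le_right hk0.le this
  have hLL0 : L0 ≤ L := by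
    have : (L0 : ℝ) ≤ L := g1b.trans hL1L
    exact_mod_cast this
  have hqM : ∀ q : ℕ, q.Prime → q ∣ M → q ≤ L ^ 6 := by
    intro q hq hqM
    have hL2 : 2 ≤ L := by
      have : (2 : ℝ) ≤ L := by linarith
      exact_mod_cast this
    have hLL6 : L ≤ L ^ 6 := Nat.le_self_pow (by norm_num) L
    rcases (Nat.Prime.dvd_mul hq).1 hqM with h | h
    · have := Nat.le_of_dvd (by norm_num) h
      omega
    · unfold modulus at h
      obtain ⟨ℓ, hℓ, hqℓ⟩ := (Prime.dvd_finsetProd_iff hq.prime _).1 h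
      have h1 := mem_oddPrimes.1 hℓ
      have h2 := Nat.le_of_dvd h1.1.pos hqℓ
      have h3 : (zz l : ℝ) ≤ L := by linarith
      have h4 : zz l ≤ L := by exact_mod_cast h3
      omega
  set H := M * (2 ^ (8 * d) + 1) with hH
  have hHpos : 0 < H := by positivity
  set m := x / (2 * H) with hm
  obtain ⟨P, hP⟩ : ∃ P : ℕ → Prop, P = fun N => N % 2 = 0 ∧
    ∀ a ∈ A, a ≤ N → ¬ (N - a).Prime := ⟨_, rfl⟩
  have hPiff : ∀ N, P N ↔ (N % 2 = 0 ∧ ∀ a ∈ A, a ≤ N → ¬ (N - a).Prime) := by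
    intro N; rw [hP]
  have hmx : 2 * H * m ≤ x := Nat.mul_div_le x (2 * H)
  have hsurv : ((A.filter (fun a : ℕ => IsCoprime ((b : ℤ) - (a : ℤ)) (M : ℤ))).card : ℝ) ≤
      c0 * d := by
    have q1 : l2 ^ 2 / (l * l3) * s + t ≤ 4 * (c * (L1 * L2)) := by
      have h4 := mul_le_mul_of_nonneg_right hwt hs0
      have h5 : 4 * Helper9.GW.wt x * s + 4 * t ≤ 4 * (c * (L1 * L2)) := by linarith
      linarith
    have q2 : 2882 * (((B + 1 : ℕ) : ℝ) + 5) / l *
        (l2 ^ 2 / (l * l3) * s + t) ≤ 2882 * (((B + 1 : ℕ) : ℝ) + 5) / l * (4 * (c * (L1 * L2))) :=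
      mul_le_mul_of_nonneg_left q1 (by positivity)
    refine hbS.trans (q2.trans ?_)
    have q3 : L2 / l ≤ 2 := by
      rw [div_le_iff₀ p1]; linarith
    have hBpos : (0 : ℝ) < 2882 * 8 * (B + 6) := by positivity
    calc 2882 * (((B + 1 : ℕ) : ℝ) + 5) / l * (4 * (c * (L1 * L2)))
        = 2882 * 4 * (B + 6) * c * L1 * (L2 / l) := by push_cast; ring
      _ ≤ 2882 * 4 * (B + 6) * c * L1 * 2 :=
          mul_le_mul_of_nonneg_left q3 (by positivity)
      _ = c0 * η * L1 := by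
          rw [hc]
          field_simp
          norm_num
      _ ≤ c0 * η * L := mul_le_mul_of_nonneg_left hL1L (by positivity)
      _ = c0 * (η * L) := by ring
      _ ≤ c0 * d := mul_le_mul_of_nonneg_left hdl hc0.le
  have hcount0 : ∀ s', x ≤ s' → s' + 2 * H ≤ x + 2 * H * m →
      (∀ a ∈ A, ¬ (s' < a ∧ a ≤ s' + 2 * H)) → ∃ n, s' < n ∧ n ≤ s' + 2 * H ∧ P n := by
    intro s' hs1 hs2 hs3
    have hs4 : s' + 2 * H < 2 ^ L := lt_of_le_of_lt (hs2.trans (by linarith)) hxL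
    obtain ⟨n, h1, h2, h3, h4⟩ := hkill L d hLL0 hdL4 hdL M hMpos hqM b A s' H
      hs4 hH.ge hs3 hsurv
    refine ⟨n, h1, h2, (hPiff n).2 ⟨?_, h4⟩⟩
    have h5 : n ≡ b [MOD 2] := h3.of_dvd (Dvd.intro _ rfl)
    have h6 : n % 2 = b % 2 := h5
    rw [h6, hb0]
  have hcount := count_blocks A P x H m hcount0
  have hinj : ((Finset.Ioc x (x + 2 * H * m)).filter P).card ≤
      ((Finset.Ioc 0 x).filter (fun n => ∀ a ∈ A, a ≤ 2 * n → ¬ (2 * n - a).Prime)).card := by
    refine Finset.card_le_card_of_injOn (fun N => N / 2) ?_ ?_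
    · intro N hN
      rw [Finset.mem_coe, Finset.mem_filter, Finset.mem_Ioc, hPiff] at hN
      obtain ⟨⟨h1, h2⟩, h3, h4⟩ := hN
      have h7 : 2 * (N / 2) = N := by omega
      rw [Finset.mem_coe, Finset.mem_filter, Finset.mem_Ioc]
      have h8 : 0 < N / 2 := by omega
      have h9 : N / 2 ≤ x := by omega
      refine ⟨⟨h8, h9⟩, ?_⟩
      rw [h7]
      exact h4
    · intro N hN N' hN' hNN
      rw [Finset.mem_coe, Finset.mem_filter, Finset.mem_Ioc, hPiff] at hN hN'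
      have h5 := hN.2.1
      have h6 := hN'.2.1
      simp only at hNN
      omega
  have hAcard : (A.card : ℝ) ≤ L1 * L2 ^ B + 1 + c * (L1 * L2) := by
    have h1 : (A.card : ℝ) = s + t := by
      rw [hs, ht]
      have h2 := Finset.card_filter_add_card_filter_not (s := A) (fun q => q ≤ Y)
      rw [← h2]
      push_cast
      rfl
    have h2 : s ≤ Y + 1 := by
      rw [hs]
      have h3 : (A.filter (fun q => q ≤ Y)) ⊆ Finset.range (Y + 1) := by
        intro q hq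
        rw [Finset.mem_range]
        have := (Finset.mem_filter.1 hq).2
        omega
      have h4 := Finset.card_le_card h3
      rw [Finset.card_range] at h4
      exact_mod_cast h4
    have h3 : t ≤ c * (L1 * L2) := by
      have h5 : 0 ≤ Helper9.GW.wt x := by
        unfold Helper9.GW.wt
        rw [← hL1, ← hL2, ← hL3, ← hL4]
        exact div_nonneg (sq_nonneg _) (mul_nonneg hL2p.le hL4p.le)
      have h6 : 0 ≤ Helper9.GW.wt x * s := mul_nonneg h5 hs0
      linarith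
    linarith
  -- lower bound for the number of blocks
  have hbs := block_size (L := L) (d := d) (z := zz l) (M := M) (H := H) (L1 := L1)
    (l := l) hδ10 hη hLL1 hdu hM (by
      refine z2.trans ?_
      rw [← e1]
      gcongr) (by
      have : 4 / δ1 = 8 / δ1 / 2 := by ring
      rw [this]
      linarith) (by linarith) hH (by linarith)
  have hHr : (0 : ℝ) < H := by exact_mod_cast hHpos
  have hmr : (x : ℝ) / (2 * H) - 1 ≤ m := by
    have h5 := Nat.lt_div_mul_add (a := x) (b := 2 * H) (by omega)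
    have h6 : (x : ℝ) < (m : ℝ) * (2 * H) + 2 * H := by
      rw [hm]; exact_mod_cast h5
    rw [sub_le_iff_le_add, div_le_iff₀ (by positivity)]
    linarith
  have hxe : (x : ℝ) = Real.exp L1 := by rw [hL1, Real.exp_log hx0]
  have hquot : Real.exp (L1 - (11 + 3 / 8 * δ1 * L1)) ≤ (x : ℝ) / (2 * H) := by
    rw [Real.exp_sub, ← hxe]
    exact div_le_div_of_nonneg_left hx0.le (by positivity) hbs
  have hrp : (x : ℝ) ^ (1 - δ) ≤ Real.exp ((1 - δ1) * L1) := by
    rw [Real.rpow_def_of_pos hx0, ← hL1, Real.exp_le_exp, mul_comm]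
    exact mul_le_mul_of_nonneg_right (by linarith) (by linarith)
  have hsplit : 2 * Real.exp ((1 - δ1) * L1) ≤ Real.exp (L1 - (11 + 3 / 8 * δ1 * L1)) := by
    have h1 : L1 - (11 + 3 / 8 * δ1 * L1) = (1 - δ1) * L1 + (5 / 8 * δ1 * L1 - 11) := by ring
    rw [h1, Real.exp_add, mul_comm]
    apply mul_le_mul_of_nonneg_left _ (Real.exp_pos _).le
    have h2 := Real.add_one_le_exp (5 / 8 * δ1 * L1 - 11)
    have h3 : 96 ≤ δ1 * L1 := by
      rw [div_le_iff₀ hδ10] at g1d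
      linarith
    linarith
  have hhalf : Real.exp (L1 / 2) ≤ Real.exp ((1 - δ1) * L1) := by
    rw [Real.exp_le_exp]
    have h1 : 1 / 2 * L1 ≤ (1 - δ1) * L1 :=
      mul_le_mul_of_nonneg_right (by linarith) (by linarith)
    linarith
  have hfin1 : (m : ℝ) ≤ (((Finset.Ioc x (x + 2 * H * m)).filter P).card : ℝ) + A.card := by
    exact_mod_cast hcount
  have hfin2 : ((((Finset.Ioc x (x + 2 * H * m)).filter P).card : ℝ)) ≤
      (((Finset.Ioc 0 x).filter (fun n => ∀ a ∈ A, a ≤ 2 * n → ¬ (2 * n - a).Prime)).card : ℝ) := by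
    exact_mod_cast hinj
  linarith

end Rankin

end Pool.Agent.RS
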